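import Pool.Agent.LibSAR.Defs

/-!
# Algebraic dependence of `d + 1` polynomial functions
-/

namespace Pool.Agent.LibSAR

lemma a_mono (d : ℕ) {D₁ D₂ : ℕ} (h : D₁ ≤ D₂) (v : ℕ → Fin d → ℝ) : VD d D₁ v ≤ VD d D₂ v := by
  apply Submodule.span_mono
  rintro _ ⟨b, rfl⟩
  exact ⟨fun a => Fin.castLE (Nat.succ_le_succ h) (b a), rfl⟩

lemma a_mul (d : ℕ) (D₁ D₂ : ℕ) (v : ℕ → Fin d → ℝ) {f g : ℕ → ℝ} (hf : f ∈ VD d D₁ v)
    (hg : g ∈ VD d D₂ v) : f * g ∈ VD d (D₁ + D₂) v := by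
  have h1 : f * g ∈ VD d D₁ v * VD d D₂ v := Submodule.mul_mem_mul hf hg
  have h2 : VD d D₁ v * VD d D₂ v ≤ VD d (D₁ + D₂) v := by
    unfold VD
    rw [Submodule.span_mul_span]
    apply Submodule.span_mono
    rintro _ ⟨_, ⟨b, rfl⟩, _, ⟨c, rfl⟩, rfl⟩
    refine ⟨fun a => ⟨b a + c a, by have := (b a).2; have := (c a).2; omega⟩, ?_⟩
    funext i
    simp only [Pi.mul_apply, pow_add, Finset.prod_mul_distrib]
  exact h2 h1

lemma a_one (d : ℕ) (v : ℕ → Fin d → ℝ) : (1 : ℕ → ℝ) ∈ VD d 0 v := by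
  apply Submodule.subset_span
  refine ⟨fun _ => 0, ?_⟩
  funext i
  simp

lemma a_pow (d D : ℕ) (v : ℕ → Fin d → ℝ) {f : ℕ → ℝ} (hf : f ∈ VD d D v) (k : ℕ) :
    f ^ k ∈ VD d (k * D) v := by
  induction k with
  | zero => simpa using a_one d v
  | succ k ih =>
    rw [pow_succ, Nat.succ_mul]
    exact a_mul d _ _ v ih hf

lemma a_prod (d : ℕ) (v : ℕ → Fin d → ℝ) {β : Type} [DecidableEq β] (s : Finset β) (e : β → ℕ)
    (f : β → ℕ → ℝ) (hf : ∀ b ∈ s, f b ∈ VD d (e b) v) :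
    ∏ b ∈ s, f b ∈ VD d (∑ b ∈ s, e b) v := by
  induction s using Finset.induction_on with
  | empty => simpa using a_one d v
  | insert b s hb ih =>
    rw [Finset.prod_insert hb, Finset.sum_insert hb]
    exact a_mul d _ _ v (hf b (Finset.mem_insert_self b s))
      (ih fun c hc => hf c (Finset.mem_insert_of_mem hc))

/-- TASK A -/
theorem alg_dep (d D : ℕ) : ∃ n : ℕ, ∀ (v : ℕ → Fin d → ℝ) (X : Fin (d + 1) → ℕ → ℝ),
    (∀ b, X b ∈ VD d D v) → ∃ P : (Fin (d + 1) → Fin (n + 1)) → ℝ, P ≠ 0 ∧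
      ∀ i, ∑ a, P a * ∏ b, X b i ^ (a b : ℕ) = 0 := by
  obtain ⟨n, hn⟩ : ∃ n, n = ((d + 1) * D + 1) ^ d := ⟨_, rfl⟩
  refine ⟨n, fun v X hX => ?_⟩
  let D' := (d + 1) * (n * D)
  let W : Submodule ℝ (ℕ → ℝ) := VD d D' v
  have hW : ∀ a : Fin (d + 1) → Fin (n + 1), ∏ b, X b ^ (a b : ℕ) ∈ W := by
    intro a
    have h1 := a_prod d v Finset.univ (fun b => (a b : ℕ) * D) (fun b => X b ^ (a b : ℕ))
      (fun b _ => a_pow d D v (hX b) _)
    refine a_mono d ?_ v h1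
    calc ∑ b, (a b : ℕ) * D ≤ ∑ _b : Fin (d + 1), n * D :=
          Finset.sum_le_sum fun b _ => Nat.mul_le_mul_right D (Nat.lt_succ_iff.1 (a b).2)
      _ = D' := by simp [D']
  have hfin : FiniteDimensional ℝ W := FiniteDimensional.span_of_finite ℝ (Set.finite_range _)
  have hrank : Module.finrank ℝ W ≤ (D' + 1) ^ d := by
    have h1 := finrank_range_le_card (R := ℝ) fun (b : Fin d → Fin (D' + 1)) =>
      fun i : ℕ => ∏ a, v i a ^ (b a : ℕ)
    rw [Fintype.card_fun, Fintype.card_fin, Fintype.card_fin] at h1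
    exact h1
  let w : (Fin (d + 1) → Fin (n + 1)) → W := fun a => ⟨∏ b, X b ^ (a b : ℕ), hW a⟩
  have hdep : ¬ LinearIndependent ℝ w := by
    intro hli
    have h1 := hli.fintype_card_le_finrank
    rw [Fintype.card_fun, Fintype.card_fin, Fintype.card_fin] at h1
    have h2 : (D' + 1) ^ d ≤ n * (n + 1) ^ d := by
      calc (D' + 1) ^ d ≤ (((d + 1) * D + 1) * (n + 1)) ^ d := by
            apply Nat.pow_le_pow_left
            have : D' = (d + 1) * D * n := by simp only [D']; ring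
            rw [this]
            nlinarith
        _ = n * (n + 1) ^ d := by rw [mul_pow, ← hn]
    have h3 : n * (n + 1) ^ d < (n + 1) ^ (d + 1) := by
      rw [pow_succ, mul_comm ((n + 1) ^ d)]
      exact Nat.mul_lt_mul_of_pos_right (Nat.lt_succ_self n) (by positivity)
    omega
  rw [Fintype.not_linearIndependent_iff] at hdep
  obtain ⟨P, hP, a₀, ha₀⟩ := hdep
  refine ⟨P, fun h => ha₀ (congrFun h a₀), fun i => ?_⟩
  have h1 := congrFun (congrArg Subtype.val hP) i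
  simp only [w, Submodule.coe_sum, Submodule.coe_smul, Finset.sum_apply, Pi.smul_apply,
    Finset.prod_apply, Pi.pow_apply, smul_eq_mul, Submodule.coe_zero, Pi.zero_apply] at h1
  exact h1

end Pool.Agent.LibSAR
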