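import Pool.Agent.LibSAR.Domination

/-!
# Combinatorial lemmas for the key lemma
-/

namespace Pool.Agent.LibSAR

/-- the elements of `S` below `j` -/
def below (S : Finset ℕ) (j : ℕ) : Finset ℕ := S.filter (· < j)

theorem mem_below {S : Finset ℕ} {j i : ℕ} : i ∈ below S j ↔ i ∈ S ∧ i < j := by
  simp [below]

theorem below_subset (S : Finset ℕ) (j : ℕ) : below S j ⊆ S := Finset.filter_subset _ _

/-- the elements of `S` which have at least `n` elements of `S` below -/
theorem top_card (S : Finset ℕ) (n : ℕ) :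
    S.card ≤ (S.filter fun j => n ≤ (below S j).card).card + n := by
  have h1 : (S.filter fun j => ¬ n ≤ (below S j).card).card ≤ n := by
    have h2 : Set.InjOn (fun j => (below S j).card)
        (S.filter fun j => ¬ n ≤ (below S j).card : Finset ℕ) := by
      intro a ha b hb hab
      simp only [Finset.coe_filter, Set.mem_ofPred_eq] at ha hb
      by_contra hne
      rcases lt_or_gt_of_ne hne with h | h
      · have : below S a ⊂ below S b := by
          refine Finset.ssubset_iff_subset_ne.2 ⟨fun i hi => ?_, fun he => ?_⟩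
          · rw [mem_below] at hi ⊢; exact ⟨hi.1, hi.2.trans h⟩
          · have : a ∈ below S b := mem_below.2 ⟨ha.1, h⟩
            rw [← he] at this
            exact lt_irrefl _ (mem_below.1 this).2
        exact absurd hab (Finset.card_lt_card this).ne
      · have : below S b ⊂ below S a := by
          refine Finset.ssubset_iff_subset_ne.2 ⟨fun i hi => ?_, fun he => ?_⟩
          · rw [mem_below] at hi ⊢; exact ⟨hi.1, hi.2.trans h⟩
          · have : b ∈ below S a := mem_below.2 ⟨hb.1, h⟩
            rw [← he] at this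
            exact lt_irrefl _ (mem_below.1 this).2
        exact absurd hab (Finset.card_lt_card this).ne'
    calc _ = ((S.filter fun j => ¬ n ≤ (below S j).card).image
          (fun j => (below S j).card)).card := (Finset.card_image_of_injOn h2).symm
      _ ≤ (Finset.range n).card := by
          apply Finset.card_le_card
          intro x hx
          simp only [Finset.mem_image, Finset.mem_filter] at hx
          obtain ⟨j, ⟨_, hj⟩, rfl⟩ := hx
          rw [Finset.mem_range]; omega
      _ = n := Finset.card_range n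
  have h3 := Finset.card_filter_add_card_filter_not (s := S)
    (fun j => n ≤ (below S j).card)
  omega

/-- pigeonhole -/
theorem pigeon {β : Type} [DecidableEq β] (B : Finset ℕ) (hB : B.Nonempty) (t : Finset β)
    (f : ℕ → β) (hf : ∀ i ∈ B, f i ∈ t) (n : ℕ) (hn : t.card ≤ n) :
    ∃ y ∈ t, (B.filter fun i => f i = y).Nonempty ∧
      B.card ≤ n * (B.filter fun i => f i = y).card := by
  have ht : t.Nonempty := by
    obtain ⟨i, hi⟩ := hB
    exact ⟨f i, hf i hi⟩
  obtain ⟨y, hy, hmax⟩ := Finset.exists_max_image t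
    (fun y => (B.filter fun i => f i = y).card) ht
  have h1 : B.card = ∑ b ∈ t, (B.filter fun i => f i = b).card :=
    Finset.card_eq_sum_card_fiberwise (fun i hi => hf i hi)
  have h2 : B.card ≤ n * (B.filter fun i => f i = y).card := by
    calc B.card = ∑ b ∈ t, (B.filter fun i => f i = b).card := h1
      _ ≤ ∑ b ∈ t, (B.filter fun i => f i = y).card := Finset.sum_le_sum hmax
      _ = t.card * (B.filter fun i => f i = y).card := by rw [Finset.sum_const, smul_eq_mul]
      _ ≤ _ := Nat.mul_le_mul_right _ hn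
  refine ⟨y, hy, ?_, h2⟩
  rw [← Finset.card_pos]
  by_contra h0
  have h3 : (B.filter fun i => f i = y).card = 0 := by omega
  rw [h3, mul_zero] at h2
  have := Finset.card_pos.2 hB
  omega

/-- pigeonhole for real values -/
theorem cluster (B : Finset ℕ) (hB : B.Nonempty) (ρ : ℕ → ℝ) (M η : ℝ) (hη : 0 < η)
    (hρ : ∀ i ∈ B, |ρ i| ≤ M) (n : ℕ) (hn : 2 * M < η * n) :
    ∃ B' ⊆ B, B'.Nonempty ∧ B.card ≤ n * B'.card ∧ ∀ i ∈ B', ∀ j ∈ B', |ρ i - ρ j| ≤ η := by
  set f : ℕ → ℕ := fun i => ⌊(ρ i + M) / η⌋₊ with hf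
  have hnn : ∀ i ∈ B, 0 ≤ (ρ i + M) / η := by
    intro i hi
    have h1 := abs_le.1 (hρ i hi)
    exact div_nonneg (by linarith) hη.le
  have hmaps : ∀ i ∈ B, f i ∈ Finset.range n := by
    intro i hi
    rw [Finset.mem_range]
    have h1 := abs_le.1 (hρ i hi)
    have h2 : (ρ i + M) / η < n := by
      rw [div_lt_iff₀ hη]; linarith
    exact (Nat.floor_lt (hnn i hi)).2 h2
  obtain ⟨y, hy, hne, hc⟩ := pigeon B hB (Finset.range n) f hmaps n (by simp)
  refine ⟨_, Finset.filter_subset _ _, hne, hc, ?_⟩
  intro i hi j hj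
  rw [Finset.mem_filter] at hi hj
  have h1 : f i = f j := hi.2.trans hj.2.symm
  have a1 := Nat.floor_le (hnn i hi.1)
  have a2 := Nat.lt_floor_add_one ((ρ i + M) / η)
  have b1 := Nat.floor_le (hnn j hj.1)
  have b2 := Nat.lt_floor_add_one ((ρ j + M) / η)
  have h2 : (⌊(ρ i + M) / η⌋₊ : ℝ) = ⌊(ρ j + M) / η⌋₊ := by exact_mod_cast h1
  rw [h2] at a1 a2
  have h3 : |(ρ i + M) / η - (ρ j + M) / η| ≤ 1 := by
    rw [abs_le]; constructor <;> linarith
  have h4 : (ρ i + M) / η - (ρ j + M) / η = (ρ i - ρ j) / η := by ring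
  rw [h4, abs_div, abs_of_pos hη, div_le_one hη] at h3
  exact h3

/-- many large subsets of `S` have `n` common elements -/
theorem overlap (S J : Finset ℕ) (hJ : J.Nonempty) (Bf : ℕ → Finset ℕ) (β : ℕ) (hβ : 0 < β)
    (hsub : ∀ j ∈ J, Bf j ⊆ S) (hcard : ∀ j ∈ J, S.card ≤ β * (Bf j).card) (n : ℕ) :
    2 * β * n ≤ S.card → ∃ Q ⊆ S, Q.card = n ∧ ∃ J' ⊆ J, J'.Nonempty ∧
      J.card ≤ (2 * β) ^ n * J'.card ∧ ∀ j ∈ J', Q ⊆ Bf j := by
  induction n with
  | zero =>
    intro _
    exact ⟨∅, Finset.empty_subset _, rfl, J, Finset.Subset.refl _, hJ, by simp,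
      fun j _ => Finset.empty_subset _⟩
  | succ n ih =>
    intro hS
    obtain ⟨Q, hQS, hQn, J', hJ', hJne, hJc, hJQ⟩ := ih (by
      have : 2 * β * n ≤ 2 * β * (n + 1) := Nat.mul_le_mul_left _ (Nat.le_succ n)
      omega)
    -- double counting
    have hcount : ∑ i ∈ S \ Q, (J'.filter fun j => i ∈ Bf j).card
        = ∑ j ∈ J', (Bf j \ Q).card := by
      have e1 : ∀ i, (J'.filter fun j => i ∈ Bf j).card = ∑ j ∈ J', if i ∈ Bf j then 1 else 0 := by
        intro i; rw [Finset.card_filter]
      simp_rw [e1]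
      rw [Finset.sum_comm]
      apply Finset.sum_congr rfl
      intro j hj
      rw [← Finset.card_filter]
      congr 1
      ext i
      simp only [Finset.mem_filter, Finset.mem_sdiff]
      constructor
      · rintro ⟨⟨h1, h2⟩, h3⟩; exact ⟨h3, h2⟩
      · rintro ⟨h1, h2⟩; exact ⟨⟨hsub j (hJ' hj) h1, h2⟩, h1⟩
    have hlow : ∀ j ∈ J', S.card ≤ 2 * β * (Bf j \ Q).card := by
      intro j hj
      have h1 := hcard j (hJ' hj)
      have h2 : (Bf j).card ≤ (Bf j \ Q).card + Q.card := by
        have := Finset.le_card_sdiff Q (Bf j)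
        omega
      rw [hQn] at h2
      have h3 : β * (Bf j).card ≤ β * (Bf j \ Q).card + β * n := by
        rw [← mul_add]; exact Nat.mul_le_mul_left _ h2
      have h4 : 2 * β * (n + 1) = 2 * (β * n) + 2 * β := by ring
      have h5 : 2 * β * (Bf j \ Q).card = 2 * (β * (Bf j \ Q).card) := by ring
      rw [h4] at hS
      rw [h5]
      omega
    have hSpos : 0 < S.card := by
      have : 0 < 2 * β * (n + 1) := by positivity
      omega
    have hJpos : 0 < J'.card := Finset.card_pos.2 hJne
    have hsum : J'.card * S.card ≤ 2 * β * ∑ i ∈ S \ Q, (J'.filter fun j => i ∈ Bf j).card := by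
      rw [hcount, Finset.mul_sum]
      calc J'.card * S.card = ∑ j ∈ J', S.card := by rw [Finset.sum_const, smul_eq_mul]
        _ ≤ _ := Finset.sum_le_sum hlow
    -- an element contained in many sets
    have hex : ∃ i ∈ S \ Q, J'.card ≤ 2 * β * (J'.filter fun j => i ∈ Bf j).card := by
      by_contra hcon
      push Not at hcon
      rcases (S \ Q).eq_empty_or_nonempty with he | hne
      · rw [he, Finset.sum_empty, mul_zero] at hsum
        have := Nat.mul_pos hJpos hSpos
        omega
      · have h1 : 2 * β * ∑ i ∈ S \ Q, (J'.filter fun j => i ∈ Bf j).card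
            < (S \ Q).card * J'.card := by
          rw [Finset.mul_sum]
          calc _ < ∑ i ∈ S \ Q, J'.card := Finset.sum_lt_sum_of_nonempty hne hcon
            _ = _ := by rw [Finset.sum_const, smul_eq_mul]
        have h2 : (S \ Q).card * J'.card ≤ S.card * J'.card :=
          Nat.mul_le_mul_right _ (Finset.card_le_card Finset.sdiff_subset)
        have h3 : S.card * J'.card = J'.card * S.card := Nat.mul_comm _ _
        omega
    obtain ⟨i, hi, hic⟩ := hex
    rw [Finset.mem_sdiff] at hi
    refine ⟨insert i Q, ?_, ?_, J'.filter fun j => i ∈ Bf j,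
      (Finset.filter_subset _ _).trans hJ', ?_, ?_, ?_⟩
    · intro x hx
      rcases Finset.mem_insert.1 hx with rfl | hx
      · exact hi.1
      · exact hQS hx
    · rw [Finset.card_insert_of_notMem hi.2, hQn]
    · rw [← Finset.card_pos]
      by_contra h0
      have h1 : (J'.filter fun j => i ∈ Bf j).card = 0 := by omega
      rw [h1, mul_zero] at hic
      omega
    · calc J.card ≤ (2 * β) ^ n * J'.card := hJc
        _ ≤ (2 * β) ^ n * (2 * β * (J'.filter fun j => i ∈ Bf j).card) :=
            Nat.mul_le_mul_left _ hic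
        _ = _ := by rw [pow_succ]; ring
    · intro j hj
      rw [Finset.mem_filter] at hj
      intro x hx
      rcases Finset.mem_insert.1 hx with rfl | hx
      · exact hj.2
      · exact hJQ j hj.1 hx

end Pool.Agent.LibSAR
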