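import Mathlib

/-!
# Semi-algebraic hypergraph Ramsey numbers: basic definitions of the proof
-/

namespace Pool.Agent.LibSAR

/-- tower of twos of height `j` with `m` on top -/
def tw : ℕ → ℕ → ℕ
  | 0, m => m
  | j + 1, m => 2 ^ tw j m

/-- the space of functions of the index which are polynomials of degree at most `D` in each of the
coordinates of the points `v i` -/
noncomputable def VD (d D : ℕ) (v : ℕ → Fin d → ℝ) : Submodule ℝ (ℕ → ℝ) :=
  Submodule.span ℝ (Set.range fun (b : Fin d → Fin (D + 1)) => fun i : ℕ => ∏ a, v i a ^ (b a : ℕ))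

/-- `|u|` is equal to `K g` on `B` up to the factor `C` -/
def Tie (C K : ℝ) (g u : ℕ → ℝ) (B : Finset ℕ) : Prop :=
  ∀ i ∈ B, K * g i ≤ C * |u i| ∧ |u i| ≤ C * (K * g i)

/-- the functions `|w| / g μ` take values on `B` which differ pairwise by a factor at least `R` -/
def Sep {ι : Type} (R : ℝ) (g : ι → ℕ → ℝ) (w : ℕ → ℝ) (B : Finset ℕ) : Prop :=
  ∀ μ, ∀ i ∈ B, ∀ j ∈ B, i ≠ j →
    R * (|w i| * g μ j) ≤ |w j| * g μ i ∨ R * (|w j| * g μ i) ≤ |w i| * g μ j

/-- the quotients of the functions `g` decrease rapidly on `A`, in the order of `key` -/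
def Mono {ι : Type} (ε : ℝ) (key : ι → ℝ) (g : ι → ℕ → ℝ) (A : Finset ℕ) : Prop :=
  ∀ a b, key a < key b → ∀ i ∈ A, ∀ j ∈ A, i < j → g b j * g a i ≤ ε * (g b i * g a j)

end Pool.Agent.LibSAR
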