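import Pool.Agent.LibSAR.Ramsey

namespace Pool.Agent.LibSAR

/-! ### towers -/

theorem f_tw_add (a b m : ℕ) : tw (a + b) m = tw a (tw b m) := by
  induction a with
  | zero => simp [tw]
  | succ a ih =>
    rw [Nat.succ_add]
    simp only [tw]
    rw [ih]

theorem f_le_tw (j m : ℕ) : m ≤ tw j m := by
  induction j with
  | zero => exact le_rfl
  | succ j ih => exact ih.trans (Nat.lt_two_pow_self).le

/-! ### a geometric growth argument -/

theorem f_exists_growth (G : ℝ) (hG : 0 < G) : ∃ n : ℕ, 1 + G < (1 + 1 / G) ^ n := by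
  have : (1 : ℝ) < 1 + 1 / G := by
    have : 0 < 1 / G := by positivity
    linarith
  exact pow_unbounded_of_one_lt _ this

/-- a sequence with comparable gaps is short -/
theorem f_short (G : ℝ) (hG : 0 < G) (n : ℕ) (hn : 1 + G < (1 + 1 / G) ^ n) (B : Finset ℕ)
    (g : ℕ → ℝ) (hmono : ∀ i ∈ B, ∀ j ∈ B, i < j → g i < g j)
    (h1 : ∀ i ∈ B, ∀ j ∈ B, ∀ l ∈ B, i < j → j < l → g j - g i ≤ G * (g l - g j))
    (h2 : ∀ i ∈ B, ∀ j ∈ B, ∀ l ∈ B, i < j → j < l → g l - g j ≤ G * (g j - g i)) :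
    B.card < n + 2 := by
  by_contra hcon
  push Not at hcon
  let x := B.orderEmbOfFin rfl
  have hx : ∀ t : Fin B.card, x t ∈ B := fun t => B.orderEmbOfFin_mem rfl t
  have hlt : ∀ (s t : ℕ) (hs : s < B.card) (ht : t < B.card), s < t → x ⟨s, hs⟩ < x ⟨t, ht⟩ := by
    intro s t hs ht hst
    exact x.strictMono (by exact_mod_cast hst)
  have h0 : 0 < B.card := by omega
  have h1' : 1 < B.card := by omega
  have hgrow : ∀ t : ℕ, ∀ ht : t + 1 < B.card,
      (1 + 1 / G) ^ t * (g (x ⟨1, h1'⟩) - g (x ⟨0, h0⟩)) ≤ g (x ⟨t + 1, ht⟩) - g (x ⟨0, h0⟩) := by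
    intro t
    induction t with
    | zero => intro ht; simp
    | succ t ih =>
      intro ht
      have ht' : t + 1 < B.card := by omega
      have e1 := ih ht'
      have e2 := h1 _ (hx ⟨0, h0⟩) _ (hx ⟨t + 1, ht'⟩) _ (hx ⟨t + 1 + 1, ht⟩)
        (hlt _ _ _ _ (by omega)) (hlt _ _ _ _ (by omega))
      have e3 : (g (x ⟨t + 1, ht'⟩) - g (x ⟨0, h0⟩)) / G ≤
          g (x ⟨t + 1 + 1, ht⟩) - g (x ⟨t + 1, ht'⟩) := by
        rw [div_le_iff₀ hG]
        linarith
      have e4 : 0 < 1 + 1 / G := by positivity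
      calc (1 + 1 / G) ^ (t + 1) * (g (x ⟨1, h1'⟩) - g (x ⟨0, h0⟩))
          = (1 + 1 / G) * ((1 + 1 / G) ^ t * (g (x ⟨1, h1'⟩) - g (x ⟨0, h0⟩))) := by ring
        _ ≤ (1 + 1 / G) * (g (x ⟨t + 1, ht'⟩) - g (x ⟨0, h0⟩)) := by gcongr
        _ = (g (x ⟨t + 1, ht'⟩) - g (x ⟨0, h0⟩)) +
            (g (x ⟨t + 1, ht'⟩) - g (x ⟨0, h0⟩)) / G := by ring
        _ ≤ _ := by linarith
  have hn1 : n + 1 < B.card := by omega
  have e1 := hgrow n hn1
  have hn0 : 0 < n := by
    rcases Nat.eq_zero_or_pos n with h | h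
    · rw [h, pow_zero] at hn
      linarith
    · exact h
  have e2 := h2 _ (hx ⟨0, h0⟩) _ (hx ⟨1, h1'⟩) _ (hx ⟨n + 1, hn1⟩)
    (hlt _ _ _ _ (by omega)) (hlt _ _ _ _ (by omega))
  have e3 := hmono _ (hx ⟨0, h0⟩) _ (hx ⟨1, h1'⟩) (hlt _ _ _ _ (by omega))
  have e4 : 0 < g (x ⟨1, h1'⟩) - g (x ⟨0, h0⟩) := by linarith
  have e5 : (1 + G) * (g (x ⟨1, h1'⟩) - g (x ⟨0, h0⟩)) <
      (1 + 1 / G) ^ n * (g (x ⟨1, h1'⟩) - g (x ⟨0, h0⟩)) := by gcongr
  nlinarith

/-- elements of a set with at least four members -/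
theorem f_four (B : Finset ℕ) (h : 4 ≤ B.card) : ∃ i ∈ B, ∃ j ∈ B, ∃ l ∈ B, ∃ p ∈ B,
    i < j ∧ j < l ∧ l < p := by
  let x := B.orderEmbOfFin rfl
  have hx : ∀ t : Fin B.card, x t ∈ B := fun t => B.orderEmbOfFin_mem rfl t
  refine ⟨_, hx ⟨0, by omega⟩, _, hx ⟨1, by omega⟩, _, hx ⟨2, by omega⟩, _, hx ⟨3, by omega⟩,
    ?_, ?_, ?_⟩ <;>
  · apply x.strictMono
    simp

/-- lacunary functions -/
def FLac (G : ℝ) (A : Finset ℕ) (d : ℕ → ℝ) : Prop :=
  (∀ i ∈ A, ∀ j ∈ A, i < j → G * d j < d i) ∨ (∀ i ∈ A, ∀ j ∈ A, i < j → G * d i < d j)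

theorem f_lac_mono {G : ℝ} {A B : Finset ℕ} {d : ℕ → ℝ} (h : FLac G A d) (hB : B ⊆ A) :
    FLac G B d := by
  rcases h with h | h
  · exact Or.inl fun i hi j hj hij => h i (hB hi) j (hB hj) hij
  · exact Or.inr fun i hi j hj hij => h i (hB hi) j (hB hj) hij

/-- a lacunary function does not stay in a window of ratio `G ^ 2` for three indices -/
theorem f_lac_window {G : ℝ} (hG : 1 ≤ G) {A : Finset ℕ} {d : ℕ → ℝ} (h : FLac G A d)
    {i j l : ℕ} (hi : i ∈ A) (hj : j ∈ A) (hl : l ∈ A) (hij : i < j) (hjl : j < l) {y : ℝ}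
    (h1 : d i ≤ G * y) (h2 : y ≤ G * d i) (h3 : d l ≤ G * y) (h4 : y ≤ G * d l) : False := by
  rcases h with h | h
  · have e1 := h i hi j hj hij
    have e2 := h j hj l hl hjl
    have e3 : G * (G * d l) < d i := by nlinarith
    nlinarith
  · have e1 := h i hi j hj hij
    have e2 := h j hj l hl hjl
    have e3 : G * (G * d i) < d l := by nlinarith
    nlinarith

/-- reading off a lacunary pair of functions -/
def FDom (G : ℝ) (B : Finset ℕ) (f g : ℕ → ℝ) : Prop :=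
  (∀ i ∈ B, ∀ j ∈ B, i < j → G * g j < f i) ∨ (∀ i ∈ B, ∀ j ∈ B, i < j → G * f i < g j)

/-- the pair step -/
theorem f_pairs (I : Type) [Fintype I] (G : ℝ) (hG : 1 ≤ G) :
    ∃ M₀ : ℕ, ∀ M ≥ M₀, ∀ (d : I → ℕ → ℝ) (A : Finset ℕ), tw 2 M ≤ A.card →
    (∀ ν, FLac G A (d ν)) → ∃ B ⊆ A, M ≤ B.card ∧ ∀ a b, FDom G B (d a) (d b) := by
  classical
  obtain ⟨m₀, hm₀⟩ := ramsey_two (I × I → Bool × Bool)
  refine ⟨max m₀ 4, fun M hM d A hA hlac => ?_⟩
  have hM1 : m₀ ≤ M := (le_max_left _ _).trans hM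
  have hM2 : 4 ≤ M := (le_max_right _ _).trans hM
  obtain ⟨B, hBA, hBc, x, hx⟩ := hm₀ M hM1 A hA
    (fun i j p => (decide (G * d p.2 j < d p.1 i), decide (G * d p.1 i < d p.2 j)))
  refine ⟨B, hBA, hBc, fun a b => ?_⟩
  have hx1 : ∀ i ∈ B, ∀ j ∈ B, i < j → (decide (G * d b j < d a i) = (x (a, b)).1) ∧
      (decide (G * d a i < d b j) = (x (a, b)).2) := by
    intro i hi j hj hij
    have := congrFun (hx i hi j hj hij) (a, b)
    simp only at this
    rw [← this]
    exact ⟨rfl, rfl⟩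
  rcases h1 : (x (a, b)).1 with _ | _
  · rcases h2 : (x (a, b)).2 with _ | _
    · exfalso
      rw [h1, h2] at hx1
      obtain ⟨i, hi, j, hj, l, hl, p, hp, hij, hjl, hlp⟩ := f_four B (hM2.trans hBc)
      have k1 := hx1 i hi p hp (by omega)
      have k2 := hx1 l hl p hp (by omega)
      simp only [decide_eq_false_iff_not, not_lt] at k1 k2
      exact f_lac_window hG (hlac a) (hBA hi) (hBA hj) (hBA hl) hij hjl k1.1 k1.2 k2.1 k2.2
    · right
      intro i hi j hj hij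
      have := (hx1 i hi j hj hij).2
      rw [h2] at this
      simpa using this
  · left
    intro i hi j hj hij
    have := (hx1 i hi j hj hij).1
    rw [h1] at this
    simpa using this

/-- the unary step -/
theorem f_unary (I : Type) [Fintype I] (k Rc : ℕ) (G : ℝ) (hG : 1 ≤ G) :
    ∃ M₀ : ℕ, ∀ M ≥ M₀, ∀ (d : I → ℕ → ℝ) (base : I → ℝ) (A : Finset ℕ) (K : Finset ℝ),
    K.card ≤ Rc → tw 1 M ≤ A.card →
    (∀ ν, FLac G A (d ν)) → ∃ B ⊆ A, M ≤ B.card ∧ ∀ κ ∈ K, ∀ ν : Fin k → Option I, ∀ a,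
      (∀ i ∈ B, G * |κ + ∑ l, (ν l).elim 0 base| < d a i) ∨
      (∀ i ∈ B, G * d a i < |κ + ∑ l, (ν l).elim 0 base|) := by
  classical
  set Q : ℕ := 4 ^ (Rc * (Fintype.card I + 1) ^ k * Fintype.card I) with hQ
  have hQ0 : 0 < Q := by positivity
  obtain ⟨M₁, hM₁⟩ : ∃ M₁ : ℕ, ∀ M ≥ M₁, Q * M ≤ 2 ^ M := by
    refine ⟨2 * Q + 4, fun M hM => ?_⟩
    have h1 : Q ≤ M / 2 := by omega
    have h3 : ∀ t : ℕ, 2 ≤ t → 2 * (t * t) ≤ 2 ^ (2 * t) := by
      intro t ht
      have h4 : t * t ≤ 2 ^ t * 2 ^ t := by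
        have := (Nat.lt_two_pow_self (n := t)).le
        exact Nat.mul_le_mul this this
      have h5 : 2 * t ≤ 2 ^ t := by
        obtain ⟨u, rfl⟩ := Nat.exists_eq_add_of_le ht
        clear h4 ht
        induction u with
        | zero => norm_num
        | succ u ih =>
          have : 2 ^ (2 + (u + 1)) = 2 * 2 ^ (2 + u) := by ring
          omega
      calc 2 * (t * t) = (2 * t) * t := by ring
        _ ≤ 2 ^ t * 2 ^ t := Nat.mul_le_mul h5 (Nat.lt_two_pow_self).le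
        _ = 2 ^ (2 * t) := by rw [← pow_add]; congr 1; omega
    have h6 := h3 (M / 2) (by omega)
    have h7 : 2 ^ (2 * (M / 2)) ≤ 2 ^ M := Nat.pow_le_pow_right (by norm_num) (by omega)
    rcases Nat.even_or_odd' M with ⟨c, hc | hc⟩
    · have hc2 : M / 2 = c := by omega
      rw [hc2] at h6 h1
      subst hc
      calc Q * (2 * c) ≤ c * (2 * c) := Nat.mul_le_mul_right _ h1
        _ = 2 * (c * c) := by ring
        _ ≤ _ := h6
    · have hc2 : M / 2 = c := by omega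
      rw [hc2] at h6 h1
      subst hc
      have h8 : 1 ≤ c := by omega
      calc Q * (2 * c + 1) ≤ c * (2 * c + 1) := Nat.mul_le_mul_right _ h1
        _ ≤ 2 * (2 * (c * c)) := by nlinarith
        _ ≤ 2 * 2 ^ (2 * c) := by omega
        _ = 2 ^ (2 * c + 1) := by ring
  refine ⟨max M₁ 3, fun M hM d base A K hK hA hlac => ?_⟩
  have hMa : M₁ ≤ M := (le_max_left _ _).trans hM
  have hMb : 3 ≤ M := (le_max_right _ _).trans hM
  let col : ℕ → ((↥K × (Fin k → Option I)) × I → Bool × Bool) := fun i q =>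
    (decide (G * |(q.1.1 : ℝ) + ∑ l, (q.1.2 l).elim 0 base| < d q.2 i),
      decide (G * d q.2 i < |(q.1.1 : ℝ) + ∑ l, (q.1.2 l).elim 0 base|))
  have hcard : Fintype.card ((↥K × (Fin k → Option I)) × I → Bool × Bool) ≤ Q := by
    rw [hQ]
    simp only [Fintype.card_fun, Fintype.card_prod, Fintype.card_bool, Fintype.card_coe,
      Fintype.card_option, Fintype.card_fin]
    apply Nat.pow_le_pow_right (by norm_num)
    gcongr
  obtain ⟨y, -, hy⟩ := Finset.exists_le_card_fiber_of_mul_le_card_of_maps_to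
    (s := A) (t := Finset.univ) (f := col) (n := M) (fun i _ => Finset.mem_univ _)
    ⟨fun _ => (true, true), Finset.mem_univ _⟩ (by
      rw [Finset.card_univ]
      calc _ ≤ Q * M := Nat.mul_le_mul_right _ hcard
        _ ≤ 2 ^ M := hM₁ M hMa
        _ ≤ A.card := hA)
  set B := A.filter (fun i => col i = y) with hB
  have hBA : B ⊆ A := Finset.filter_subset _ _
  refine ⟨B, hBA, hy, fun κ hκ ν a => ?_⟩
  have hx1 : ∀ i ∈ B, (decide (G * |κ + ∑ l, (ν l).elim 0 base| < d a i) =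
      (y ((⟨κ, hκ⟩, ν), a)).1) ∧ (decide (G * d a i < |κ + ∑ l, (ν l).elim 0 base|) =
      (y ((⟨κ, hκ⟩, ν), a)).2) := by
    intro i hi
    have := congrFun (Finset.mem_filter.1 hi).2 ((⟨κ, hκ⟩, ν), a)
    rw [← this]
    exact ⟨rfl, rfl⟩
  rcases h1 : (y ((⟨κ, hκ⟩, ν), a)).1 with _ | _
  · rcases h2 : (y ((⟨κ, hκ⟩, ν), a)).2 with _ | _
    · exfalso
      rw [h1, h2] at hx1
      have h3 : 3 ≤ B.card := hMb.trans hy
      let z := B.orderEmbOfFin rfl
      have hz : ∀ t : Fin B.card, z t ∈ B := fun t => B.orderEmbOfFin_mem rfl t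
      have k1 := hx1 _ (hz ⟨0, by omega⟩)
      have k2 := hx1 _ (hz ⟨2, by omega⟩)
      simp only [decide_eq_false_iff_not, not_lt] at k1 k2
      exact f_lac_window hG (hlac a) (hBA (hz ⟨0, by omega⟩)) (hBA (hz ⟨1, by omega⟩))
        (hBA (hz ⟨2, by omega⟩)) (z.strictMono (by simp)) (z.strictMono (by simp))
        k1.1 k1.2 k2.1 k2.2
    · right
      intro i hi
      have := (hx1 i hi).2
      rw [h2] at this
      simpa using this
  · left
    intro i hi
    have := (hx1 i hi).1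
    rw [h1] at this
    simpa using this

/-- the second half of the argument: from lacunary functions to constant signs -/
theorem f_second (I : Type) [Fintype I] (k Rc : ℕ) (C : ℝ) (hC : 0 < C)
    (G : ℝ) (hG : 4 * ((k : ℝ) + 1) ≤ G) : ∃ M₀ : ℕ, ∀ M ≥ M₀, ∀ (s base : I → ℝ)
    (d L : I → ℕ → ℝ) (A : Finset ℕ) (K : Finset ℝ), K.card ≤ Rc → tw 3 M ≤ A.card →
    (∀ ν, s ν = 1 ∨ s ν = -1) → (∀ ν, ∀ i ∈ A, L ν i = base ν + s ν * d ν i) →
    (∀ ν, ∀ i ∈ A, 2 * C ≤ d ν i) → (∀ ν, FLac G A (d ν)) →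
    ∃ B ⊆ A, M ≤ B.card ∧ ∀ κ ∈ K, ∀ ν : Fin k → Option I, (∃ l, ν l ≠ none) →
      (∀ e : Fin k → ℕ, StrictMono e → (∀ l, e l ∈ B) →
          C ≤ κ + ∑ l, (ν l).elim 0 (fun a => L a (e l))) ∨
        (∀ e : Fin k → ℕ, StrictMono e → (∀ l, e l ∈ B) →
          κ + ∑ l, (ν l).elim 0 (fun a => L a (e l)) ≤ -C) := by
  classical
  have hk0 : (0 : ℝ) ≤ k := Nat.cast_nonneg _
  have hG4 : 4 ≤ G := by linarith
  have hG1 : 1 ≤ G := by linarith
  obtain ⟨M₁, hM₁⟩ := f_pairs I G hG1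
  obtain ⟨M₂, hM₂⟩ := f_unary I k Rc G hG1
  refine ⟨max M₁ M₂, fun M hM s base d L A K hK hA hs hL hd hlac => ?_⟩
  have hMa : M₁ ≤ M := (le_max_left _ _).trans hM
  have hMb : M₂ ≤ M := (le_max_right _ _).trans hM
  obtain ⟨B1, hB1A, hB1c, hdom⟩ := hM₁ (tw 1 M) (hMa.trans (f_le_tw _ _)) d A
    (by rw [← f_tw_add]; exact hA) hlac
  obtain ⟨B, hBB1, hBc, hun⟩ := hM₂ M hMb d base B1 K hK hB1c
    (fun ν => f_lac_mono (hlac ν) hB1A)
  have hBA : B ⊆ A := hBB1.trans hB1A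
  refine ⟨B, hBA, hBc, fun κ hκ ν hν => ?_⟩
  by_cases hex : ∃ e₀ : Fin k → ℕ, StrictMono e₀ ∧ ∀ l, e₀ l ∈ B
  swap
  · left
    intro e he1 he2
    exact absurd ⟨e, he1, he2⟩ hex
  obtain ⟨e₀, he₀, he₀B⟩ := hex
  let D : (Fin k → ℕ) → Fin k → ℝ := fun e l => (ν l).elim 0 (fun a => d a (e l))
  obtain ⟨l₁, hl₁⟩ := hν
  have : Nonempty (Fin k) := ⟨l₁⟩
  obtain ⟨l₀, hl₀⟩ := Finite.exists_max (D e₀)
  have hDsome : ∀ (e : Fin k → ℕ) (l : Fin k) (a : I), ν l = some a → D e l = d a (e l) := by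
    intro e l a h
    simp [D, h]
  have hDnone : ∀ (e : Fin k → ℕ) (l : Fin k), ν l = none → D e l = 0 := by
    intro e l h
    simp [D, h]
  have hpos : 0 < D e₀ l₀ := by
    obtain ⟨a, ha⟩ := Option.ne_none_iff_exists'.1 hl₁
    have := hl₀ l₁
    rw [hDsome e₀ l₁ a ha] at this
    have h2 := hd a (e₀ l₁) (hBA (he₀B l₁))
    linarith
  obtain ⟨b, hb⟩ : ∃ b, ν l₀ = some b := by
    rw [← Option.ne_none_iff_exists']
    intro h
    rw [hDnone e₀ l₀ h] at hpos
    exact lt_irrefl _ hpos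
  have hdomall : ∀ e : Fin k → ℕ, StrictMono e → (∀ l, e l ∈ B) → ∀ l, l ≠ l₀ →
      G * D e l ≤ D e l₀ := by
    intro e he heB l hl
    rw [hDsome e l₀ b hb]
    rcases hνl : ν l with _ | a
    · rw [hDnone e l hνl, mul_zero]
      have := hd b (e l₀) (hBA (heB l₀))
      linarith
    · rw [hDsome e l a hνl]
      have hmax := hl₀ l
      rw [hDsome e₀ l a hνl, hDsome e₀ l₀ b hb] at hmax
      rw [hDsome e₀ l₀ b hb] at hpos
      rcases lt_or_gt_of_ne hl with h | h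
      · rcases hdom a b with h2 | h2
        · exfalso
          have := h2 (e₀ l) (hBB1 (he₀B l)) (e₀ l₀) (hBB1 (he₀B l₀)) (he₀ h)
          nlinarith
        · exact (h2 (e l) (hBB1 (heB l)) (e l₀) (hBB1 (heB l₀)) (he h)).le
      · rcases hdom b a with h2 | h2
        · exact (h2 (e l₀) (hBB1 (heB l₀)) (e l) (hBB1 (heB l)) (he h)).le
        · exfalso
          have := h2 (e₀ l₀) (hBB1 (he₀B l₀)) (e₀ l) (hBB1 (he₀B l)) (he₀ h)
          nlinarith
  -- the decomposition of the sum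
  set κ' : ℝ := κ + ∑ l, (ν l).elim 0 base with hκ'
  have hDnn : ∀ e : Fin k → ℕ, (∀ l, e l ∈ B) → ∀ l, 0 ≤ D e l := by
    intro e heB l
    rcases hνl : ν l with _ | a
    · rw [hDnone e l hνl]
    · rw [hDsome e l a hνl]
      have := hd a (e l) (hBA (heB l))
      linarith
  have hdecomp : ∀ e : Fin k → ℕ, StrictMono e → (∀ l, e l ∈ B) →
      |κ + ∑ l, (ν l).elim 0 (fun a => L a (e l)) - (κ' + s b * D e l₀)| ≤ D e l₀ / 4 := by
    intro e he heB
    have h1 : κ + ∑ l, (ν l).elim 0 (fun a => L a (e l)) =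
        κ' + ∑ l, (ν l).elim 0 (fun a => s a * d a (e l)) := by
      rw [hκ', add_assoc, ← Finset.sum_add_distrib]
      congr 1
      apply Finset.sum_congr rfl
      intro l _
      rcases hνl : ν l with _ | a
      · simp
      · simp only [Option.elim]
        exact hL a (e l) (hBA (heB l))
    rw [h1, ← Finset.add_sum_erase _ _ (Finset.mem_univ l₀), hb]
    have h2 : κ' + ((some b).elim 0 (fun a => s a * d a (e l₀)) +
        ∑ l ∈ Finset.univ.erase l₀, (ν l).elim 0 (fun a => s a * d a (e l))) -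
        (κ' + s b * D e l₀) =
        ∑ l ∈ Finset.univ.erase l₀, (ν l).elim 0 (fun a => s a * d a (e l)) := by
      rw [hDsome e l₀ b hb]
      simp only [Option.elim]
      ring
    rw [h2]
    have h3 : |∑ l ∈ Finset.univ.erase l₀, (ν l).elim 0 (fun a => s a * d a (e l))| ≤
        ∑ l ∈ Finset.univ.erase l₀, D e l := by
      refine (Finset.abs_sum_le_sum_abs _ _).trans (Finset.sum_le_sum fun l _ => ?_)
      rcases hνl : ν l with _ | a
      · rw [hDnone e l hνl]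
        simp
      · rw [hDsome e l a hνl]
        simp only [Option.elim]
        have := hd a (e l) (hBA (heB l))
        rw [abs_mul, abs_of_nonneg (show 0 ≤ d a (e l) by linarith)]
        rcases hs a with h | h <;> rw [h] <;> simp
    refine h3.trans ?_
    have h4 : G * ∑ l ∈ Finset.univ.erase l₀, D e l ≤ k * D e l₀ := by
      rw [Finset.mul_sum]
      calc ∑ l ∈ Finset.univ.erase l₀, G * D e l ≤ ∑ l ∈ Finset.univ.erase l₀, D e l₀ :=
            Finset.sum_le_sum fun l hl => hdomall e he heB l (Finset.ne_of_mem_erase hl)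
        _ ≤ ∑ l : Fin k, D e l₀ := by
            apply Finset.sum_le_sum_of_subset_of_nonneg (Finset.erase_subset _ _)
            intro l _ _
            exact hDnn e heB l₀
        _ = k * D e l₀ := by simp
    have h5 : 0 ≤ ∑ l ∈ Finset.univ.erase l₀, D e l :=
      Finset.sum_nonneg fun l _ => hDnn e heB l
    have h6 := hDnn e heB l₀
    have h7 : 4 * ((k : ℝ) + 1) * ∑ l ∈ Finset.univ.erase l₀, D e l ≤
        ((k : ℝ) + 1) * D e l₀ := by
      calc 4 * ((k : ℝ) + 1) * ∑ l ∈ Finset.univ.erase l₀, D e l ≤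
          G * ∑ l ∈ Finset.univ.erase l₀, D e l := by gcongr
        _ ≤ k * D e l₀ := h4
        _ ≤ _ := by nlinarith
    have h8 : 0 < (k : ℝ) + 1 := by linarith
    have h9 : ((k : ℝ) + 1) * (4 * ∑ l ∈ Finset.univ.erase l₀, D e l) ≤
        ((k : ℝ) + 1) * D e l₀ := by linarith
    have h10 := le_of_mul_le_mul_left h9 h8
    linarith
  rcases hun κ hκ ν b with hlt | hgt
  · rcases hs b with hsb | hsb
    · left
      intro e he heB
      have h1 := hdecomp e he heB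
      have h2 := hlt (e l₀) (heB l₀)
      rw [hDsome e l₀ b hb, hsb] at h1
      have h3 := hd b (e l₀) (hBA (heB l₀))
      have h4 := abs_le.1 h1
      have h5 : 4 * |κ'| ≤ d b (e l₀) := by
        have : 4 * |κ'| ≤ G * |κ'| := by
          have := abs_nonneg κ'
          gcongr
        linarith
      have h6 := neg_abs_le κ'
      linarith
    · right
      intro e he heB
      have h1 := hdecomp e he heB
      have h2 := hlt (e l₀) (heB l₀)
      rw [hDsome e l₀ b hb, hsb] at h1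
      have h3 := hd b (e l₀) (hBA (heB l₀))
      have h4 := abs_le.1 h1
      have h5 : 4 * |κ'| ≤ d b (e l₀) := by
        have : 4 * |κ'| ≤ G * |κ'| := by
          have := abs_nonneg κ'
          gcongr
        linarith
      have h6 := le_abs_self κ'
      linarith
  · have hsd : ∀ x : ℝ, 0 ≤ x → |s b * x| ≤ x := by
      intro x hx
      rw [abs_mul, abs_of_nonneg hx]
      rcases hs b with h | h <;> rw [h] <;> simp
    rcases le_total 0 κ' with hκs | hκs
    · left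
      intro e he heB
      have h1 := hdecomp e he heB
      have h2 := hgt (e l₀) (heB l₀)
      rw [hDsome e l₀ b hb] at h1
      have h3 := hd b (e l₀) (hBA (heB l₀))
      have h4 := abs_le.1 h1
      have h5 : 4 * d b (e l₀) ≤ |κ'| := by
        have : 4 * d b (e l₀) ≤ G * d b (e l₀) := by
          have : 0 ≤ d b (e l₀) := by linarith
          gcongr
        linarith
      rw [abs_of_nonneg hκs] at h5
      have h6 := abs_le.1 (hsd (d b (e l₀)) (by linarith))
      linarith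
    · right
      intro e he heB
      have h1 := hdecomp e he heB
      have h2 := hgt (e l₀) (heB l₀)
      rw [hDsome e l₀ b hb] at h1
      have h3 := hd b (e l₀) (hBA (heB l₀))
      have h4 := abs_le.1 h1
      have h5 : 4 * d b (e l₀) ≤ |κ'| := by
        have : 4 * d b (e l₀) ≤ G * d b (e l₀) := by
          have : 0 ≤ d b (e l₀) := by linarith
          gcongr
        linarith
      rw [abs_of_nonpos hκs] at h5
      have h6 := abs_le.1 (hsd (d b (e l₀)) (by linarith))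
      linarith

/-- the first half of the argument: from one linear function to a lacunary function -/
theorem f_first (I : Type) [Fintype I] (C : ℝ) (hC : 0 < C) (G : ℝ) (hG : 0 < G) :
    ∃ M₀ : ℕ, ∀ M ≥ M₀, ∀ (L : I → ℕ → ℝ) (A : Finset ℕ), tw 5 M ≤ A.card →
    (∀ ν, ∀ i ∈ A, ∀ j ∈ A, i ≠ j → 2 * C ≤ |L ν i - L ν j|) →
    ∃ (s base : I → ℝ) (d : I → ℕ → ℝ), ∃ B ⊆ A, M ≤ B.card + 3 ∧
      (∀ ν, s ν = 1 ∨ s ν = -1) ∧ (∀ ν, ∀ i ∈ B, L ν i = base ν + s ν * d ν i) ∧
      (∀ ν, ∀ i ∈ B, 2 * C ≤ d ν i) ∧ (∀ ν, FLac G B (d ν)) := by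
  classical
  obtain ⟨m₀, hm₀⟩ := ramsey_three (I → Bool × Bool × Bool)
  obtain ⟨n, hn⟩ := f_exists_growth G hG
  refine ⟨max m₀ (n + 5), fun M hM L A hA hL => ?_⟩
  have hMa : m₀ ≤ M := (le_max_left _ _).trans hM
  have hMb : n + 5 ≤ M := (le_max_right _ _).trans hM
  obtain ⟨A1, hA1, hA1c, x, hx⟩ := hm₀ M hMa A hA (fun i j l ν =>
    (decide (0 < L ν j - L ν i), decide (G * |L ν l - L ν j| < |L ν j - L ν i|),
      decide (G * |L ν j - L ν i| < |L ν l - L ν j|)))
  have hx1 : ∀ ν, ∀ i ∈ A1, ∀ j ∈ A1, ∀ l ∈ A1, i < j → j < l →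
      (decide (0 < L ν j - L ν i) = (x ν).1) ∧
      (decide (G * |L ν l - L ν j| < |L ν j - L ν i|) = (x ν).2.1) ∧
      (decide (G * |L ν j - L ν i| < |L ν l - L ν j|) = (x ν).2.2) := by
    intro ν i hi j hj l hl hij hjl
    have := congrFun (hx i hi j hj l hl hij hjl) ν
    rw [← this]
    exact ⟨rfl, rfl, rfl⟩
  have hne1 : A1.Nonempty := Finset.card_pos.1 (by omega)
  set A2 := A1.erase (A1.max' hne1) with hA2
  have hA2c : A2.card = A1.card - 1 := Finset.card_erase_of_mem (A1.max'_mem hne1)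
  have hA21 : A2 ⊆ A1 := Finset.erase_subset _ _
  have hne2 : A2.Nonempty := Finset.card_pos.1 (by omega)
  let σ : I → ℝ := fun ν => if (x ν).1 then 1 else -1
  have hσ : ∀ ν, σ ν = 1 ∨ σ ν = -1 := by
    intro ν
    by_cases h : (x ν).1 = true
    · left
      simp [σ, h]
    · right
      simp [σ, h]
  have hgap : ∀ ν, ∀ i ∈ A2, ∀ j ∈ A2, i < j → 2 * C ≤ σ ν * L ν j - σ ν * L ν i := by
    intro ν i hi j hj hij
    have hi1 := hA21 hi
    have hj1 := hA21 hj
    have hjmax : j < A1.max' hne1 := by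
      apply lt_of_le_of_ne (A1.le_max' j hj1)
      exact Finset.ne_of_mem_erase hj
    have h1 := (hx1 ν i hi1 j hj1 _ (A1.max'_mem hne1) hij hjmax).1
    have h2 := hL ν j (hA1 hj1) i (hA1 hi1) (ne_of_gt hij)
    by_cases h : (x ν).1 = true
    · have h3 : σ ν = 1 := by simp [σ, h]
      rw [h] at h1
      have h4 : 0 < L ν j - L ν i := by simpa using h1
      rw [abs_of_pos h4] at h2
      rw [h3]
      linarith
    · have h3 : σ ν = -1 := by simp [σ, h]
      have h' : (x ν).1 = false := by simpa using h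
      rw [h'] at h1
      have h4 : L ν j - L ν i ≤ 0 := by
        have := (decide_eq_false_iff_not.1 h1)
        exact not_lt.1 this
      rw [abs_of_nonpos h4] at h2
      rw [h3]
      linarith
  have habs : ∀ ν, ∀ i ∈ A2, ∀ j ∈ A2, i < j → |L ν j - L ν i| = σ ν * L ν j - σ ν * L ν i := by
    intro ν i hi j hj hij
    have h1 := hgap ν i hi j hj hij
    rcases hσ ν with h | h
    · rw [h] at h1 ⊢
      rw [abs_of_nonneg (by linarith)]
      ring
    · rw [h] at h1 ⊢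
      rw [abs_of_nonpos (by linarith)]
      ring
  have halt : ∀ ν, (x ν).2.1 = true ∨ (x ν).2.2 = true := by
    intro ν
    by_contra hcon
    push Not at hcon
    have h1 : (x ν).2.1 = false := by simpa using hcon.1
    have h2 : (x ν).2.2 = false := by simpa using hcon.2
    have h3 := f_short G hG n hn A2 (fun i => σ ν * L ν i)
      (fun i hi j hj hij => by
        have := hgap ν i hi j hj hij
        linarith)
      (fun i hi j hj l hl hij hjl => by
        have h4 := (hx1 ν i (hA21 hi) j (hA21 hj) l (hA21 hl) hij hjl).2.1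
        rw [h1, habs ν i hi j hj hij, habs ν j hj l hl hjl] at h4
        exact not_lt.1 (decide_eq_false_iff_not.1 h4))
      (fun i hi j hj l hl hij hjl => by
        have h4 := (hx1 ν i (hA21 hi) j (hA21 hj) l (hA21 hl) hij hjl).2.2
        rw [h2, habs ν i hi j hj hij, habs ν j hj l hl hjl] at h4
        exact not_lt.1 (decide_eq_false_iff_not.1 h4))
    omega
  set z0 := A2.min' hne2 with hz0
  set z1 := A2.max' hne2 with hz1
  have hz0m : z0 ∈ A2 := A2.min'_mem hne2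
  have hz1m : z1 ∈ A2 := A2.max'_mem hne2
  set B := (A2.erase z0).erase z1 with hB
  have hBA2 : B ⊆ A2 := (Finset.erase_subset _ _).trans (Finset.erase_subset _ _)
  have hBc : M ≤ B.card + 3 := by
    have h1 : (A2.erase z0).card = A2.card - 1 := Finset.card_erase_of_mem hz0m
    have h2 : (A2.erase z0).card - 1 ≤ B.card := Finset.pred_card_le_card_erase
    omega
  have hlow : ∀ i ∈ B, z0 < i := by
    intro i hi
    apply lt_of_le_of_ne (A2.min'_le i (hBA2 hi))
    exact (Finset.ne_of_mem_erase (Finset.mem_of_mem_erase hi)).symm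
  have hhigh : ∀ i ∈ B, i < z1 := by
    intro i hi
    exact lt_of_le_of_ne (A2.le_max' i (hBA2 hi)) (Finset.ne_of_mem_erase hi)
  refine ⟨fun ν => if (x ν).2.1 then -σ ν else σ ν, fun ν => if (x ν).2.1 then L ν z1 else L ν z0,
    fun ν i => if (x ν).2.1 then σ ν * L ν z1 - σ ν * L ν i else σ ν * L ν i - σ ν * L ν z0,
    B, hBA2.trans (hA21.trans hA1), hBc, ?_, ?_, ?_, ?_⟩
  · intro ν
    by_cases h : (x ν).2.1 = true
    · simp only [h, if_true]
      rcases hσ ν with h' | h' <;> rw [h'] <;> simp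
    · simp only [h]
      exact hσ ν
  · intro ν i hi
    have hσσ : σ ν * σ ν = 1 := by
      rcases hσ ν with h' | h' <;> rw [h'] <;> norm_num
    by_cases h : (x ν).2.1 = true
    · simp only [h, if_true]
      linear_combination (L ν z1 - L ν i) * hσσ
    · simp only [h]
      simp only [Bool.false_eq_true, if_false]
      linear_combination (L ν z0 - L ν i) * hσσ
  · intro ν i hi
    by_cases h : (x ν).2.1 = true
    · simp only [h, if_true]
      exact hgap ν i (hBA2 hi) z1 hz1m (hhigh i hi)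
    · simp only [h]
      exact hgap ν z0 hz0m i (hBA2 hi) (hlow i hi)
  · intro ν
    by_cases h : (x ν).2.1 = true
    · left
      intro i hi j hj hij
      simp only [h, if_true]
      have h1 := (hx1 ν i (hA21 (hBA2 hi)) j (hA21 (hBA2 hj)) z1 (hA21 hz1m) hij
        (hhigh j hj)).2.1
      rw [h, habs ν i (hBA2 hi) j (hBA2 hj) hij, habs ν j (hBA2 hj) z1 hz1m (hhigh j hj)] at h1
      have h2 := hgap ν j (hBA2 hj) z1 hz1m (hhigh j hj)
      have h3 := decide_eq_true_iff.1 h1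
      linarith
    · right
      intro i hi j hj hij
      have h' : (x ν).2.2 = true := by
        rcases halt ν with h2 | h2
        · exact absurd h2 h
        · exact h2
      simp only [h]
      simp only [Bool.false_eq_true, if_false]
      have h1 := (hx1 ν z0 (hA21 hz0m) i (hA21 (hBA2 hi)) j (hA21 (hBA2 hj)) (hlow i hi)
        hij).2.2
      rw [h', habs ν i (hBA2 hi) j (hBA2 hj) hij, habs ν z0 hz0m i (hBA2 hi) (hlow i hi)] at h1
      have h2 := hgap ν z0 hz0m i (hBA2 hi) (hlow i hi)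
      have h3 := decide_eq_true_iff.1 h1
      linarith

/-- TASK F -/
theorem dominance (m k : ℕ) (N : Finset (Fin m → ℝ)) (_hN : ∀ ν ∈ N, ν ≠ 0) (C : ℝ) (hC : 0 < C)
    (Rc : ℕ) : ∃ M₀ : ℕ, ∀ M ≥ M₀, ∀ (P : ℕ → Fin m → ℝ) (A : Finset ℕ) (K : Finset ℝ),
      K.card ≤ Rc → tw 9 M ≤ A.card →
      (∀ ν ∈ N, ∀ i ∈ A, ∀ j ∈ A, i ≠ j → 2 * C ≤ |∑ b, ν b * (P i b - P j b)|) →
      ∃ B ⊆ A, M ≤ B.card ∧ ∀ κ ∈ K, ∀ ν : Fin k → Fin m → ℝ, (∀ l, ν l ∈ N ∨ ν l = 0) →
        (∃ l, ν l ≠ 0) →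
        (∀ e : Fin k → ℕ, StrictMono e → (∀ l, e l ∈ B) →
          C ≤ κ + ∑ l, ∑ b, ν l b * P (e l) b) ∨
        (∀ e : Fin k → ℕ, StrictMono e → (∀ l, e l ∈ B) →
          κ + ∑ l, ∑ b, ν l b * P (e l) b ≤ -C) := by
  classical
  have hk0 : (0 : ℝ) ≤ k := Nat.cast_nonneg _
  obtain ⟨M₁, hM₁⟩ := f_first ↥N C hC (4 * ((k : ℝ) + 1)) (by positivity)
  obtain ⟨M₂, hM₂⟩ := f_second ↥N k Rc C hC (4 * ((k : ℝ) + 1)) le_rfl
  refine ⟨max (max M₁ M₂) 3, fun M hM P A K hK hA hsep => ?_⟩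
  have hMa : M₁ ≤ M := ((le_max_left _ _).trans (le_max_left _ _)).trans hM
  have hMb : M₂ ≤ M := ((le_max_right _ _).trans (le_max_left _ _)).trans hM
  have hMc : 3 ≤ M := (le_max_right _ _).trans hM
  let L : ↥N → ℕ → ℝ := fun ν i => ∑ b, ν.1 b * P i b
  obtain ⟨s, base, d, A3, hA3, hA3c, hs, hL, hd, hlac⟩ := hM₁ (tw 4 M) (hMa.trans (f_le_tw _ _)) L A
    (by rw [← f_tw_add]; exact hA)
    (fun ν i hi j hj hij => by
      have := hsep ν.1 ν.2 i hi j hj hij
      have h2 : ∑ b, ν.1 b * (P i b - P j b) = L ν i - L ν j := by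
        simp only [L, mul_sub, Finset.sum_sub_distrib]
      rw [h2] at this
      exact this)
  have hcard : tw 3 M ≤ A3.card := by
    have h1 : tw 4 M = 2 ^ tw 3 M := rfl
    have h2 : 3 ≤ tw 3 M := hMc.trans (f_le_tw _ _)
    have h3 : ∀ t : ℕ, 3 ≤ t → t + 3 ≤ 2 ^ t := by
      intro t ht
      obtain ⟨u, rfl⟩ := Nat.exists_eq_add_of_le ht
      clear ht
      induction u with
      | zero => norm_num
      | succ u ih =>
        have : 2 ^ (3 + (u + 1)) = 2 * 2 ^ (3 + u) := by ring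
        omega
    have h4 := h3 _ h2
    omega
  obtain ⟨B, hBA3, hBc, hB⟩ := hM₂ M hMb s base d L A3 K hK hcard hs hL hd hlac
  refine ⟨B, hBA3.trans hA3, hBc, fun κ hκ ν hν hne => ?_⟩
  let ν' : Fin k → Option ↥N := fun l => if h : ν l ∈ N then some ⟨ν l, h⟩ else none
  have hval : ∀ (l : Fin k) (i : ℕ), (ν' l).elim 0 (fun a => L a i) = ∑ b, ν l b * P i b := by
    intro l i
    by_cases h : ν l ∈ N
    · simp only [ν', h, dif_pos, Option.elim, L]
    · have h0 : ν l = 0 := (hν l).resolve_left h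
      simp only [ν', h, dif_neg, not_false_eq_true, Option.elim]
      rw [h0]
      simp
  have hne' : ∃ l, ν' l ≠ none := by
    obtain ⟨l, hl⟩ := hne
    refine ⟨l, ?_⟩
    have h : ν l ∈ N := (hν l).resolve_right hl
    simp [ν', h]
  have := hB κ hκ ν' hne'
  simp only [hval] at this
  exact this

end Pool.Agent.LibSAR
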