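import Pool.Agent.LibSAR.Defs

/-!
# Domination: a combination which is tied to the slowest function stays tied to it
-/

namespace Pool.Agent.LibSAR

theorem Mono.mono {ι : Type} {ε ε' : ℝ} {key : ι → ℝ} {g : ι → ℕ → ℝ} {A : Finset ℕ}
    (h : Mono ε key g A) (hg : ∀ a, ∀ i ∈ A, 0 < g a i) (he : ε ≤ ε') : Mono ε' key g A := by
  intro a b hab i hi j hj hij
  refine (h a b hab i hi j hj hij).trans ?_
  have := mul_pos (hg b i hi) (hg a j hj)
  exact mul_le_mul_of_nonneg_right he this.le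

theorem Mono.subset {ι : Type} {ε : ℝ} {key : ι → ℝ} {g : ι → ℕ → ℝ} {A B : Finset ℕ}
    (h : Mono ε key g A) (hB : B ⊆ A) : Mono ε key g B :=
  fun a b hab i hi j hj hij => h a b hab i (hB hi) j (hB hj) hij

theorem Tie.subset {C K : ℝ} {g u : ℕ → ℝ} {A B : Finset ℕ} (h : Tie C K g u A) (hB : B ⊆ A) :
    Tie C K g u B := fun i hi => h i (hB hi)

theorem Tie.mono {C C' K : ℝ} {g u : ℕ → ℝ} {A : Finset ℕ} (h : Tie C K g u A) (hC : C ≤ C')
    (hg : ∀ i ∈ A, 0 < g i) (hK : 0 < K) : Tie C' K g u A := by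
  intro i hi
  obtain ⟨h1, h2⟩ := h i hi
  refine ⟨h1.trans (mul_le_mul_of_nonneg_right hC (abs_nonneg _)), h2.trans ?_⟩
  exact mul_le_mul_of_nonneg_right hC (mul_pos hK (hg i hi)).le

/-- one dominant term -/
theorem dom_sum {ι : Type} [DecidableEq ι] (T : Finset ι) (f : ι → ℝ) (a : ι) (ha : a ∈ T) (θ : ℝ)
    (q : ℕ) (hq : T.card ≤ q) (hθ : q * θ ≤ 1 / 2) (hθ0 : 0 ≤ θ)
    (h : ∀ b ∈ T, b ≠ a → |f b| ≤ θ * |f a|) :
    |f a| ≤ 2 * |∑ b ∈ T, f b| ∧ |∑ b ∈ T, f b| ≤ 2 * |f a| := by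
  have hs : ∑ b ∈ T, f b = f a + ∑ b ∈ T.erase a, f b := (Finset.add_sum_erase T f ha).symm
  have hb : |∑ b ∈ T.erase a, f b| ≤ 1 / 2 * |f a| := by
    calc |∑ b ∈ T.erase a, f b| ≤ ∑ b ∈ T.erase a, |f b| := Finset.abs_sum_le_sum_abs _ _
      _ ≤ ∑ b ∈ T.erase a, θ * |f a| := Finset.sum_le_sum fun b hb =>
          h b (Finset.mem_of_mem_erase hb) (Finset.ne_of_mem_erase hb)
      _ = (T.erase a).card * (θ * |f a|) := by rw [Finset.sum_const, nsmul_eq_mul]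
      _ ≤ q * (θ * |f a|) := by
          have : ((T.erase a).card : ℝ) ≤ q := by
            exact_mod_cast (Finset.card_le_card (Finset.erase_subset a T)).trans hq
          have h2 : 0 ≤ θ * |f a| := mul_nonneg hθ0 (abs_nonneg _)
          exact mul_le_mul_of_nonneg_right this h2
      _ = (q * θ) * |f a| := by ring
      _ ≤ 1 / 2 * |f a| := mul_le_mul_of_nonneg_right hθ (abs_nonneg _)
  rw [hs]
  constructor
  · have h1 : |f a| ≤ |f a + ∑ b ∈ T.erase a, f b| + |∑ b ∈ T.erase a, f b| := by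
      have := abs_sub (f a + ∑ b ∈ T.erase a, f b) (∑ b ∈ T.erase a, f b)
      simpa using this
    linarith
  · have h1 := abs_add_le (f a) (∑ b ∈ T.erase a, f b)
    have := abs_nonneg (f a)
    linarith

/-- the drop of the quotients of the functions `u` -/
theorem ratio_drop {ι : Type} {C₀ ε : ℝ} (hC : 1 ≤ C₀) {A : Finset ℕ} {key : ι → ℝ}
    {g : ι → ℕ → ℝ} (hg : ∀ a, ∀ i ∈ A, 0 < g a i) (hM : Mono ε key g A) {u : ι → ℕ → ℝ}
    {κ : ι → ℝ} {a b : ι} (ha : 0 < κ a ∧ Tie C₀ (κ a) (g a) (u a) A)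
    (hb : 0 < κ b ∧ Tie C₀ (κ b) (g b) (u b) A) (hε : 0 ≤ ε) (hab : key a < key b) {i j : ℕ}
    (hi : i ∈ A) (hj : j ∈ A) (hij : i < j) :
    |u b j| * |u a i| ≤ (C₀ ^ 4 * ε) * (|u b i| * |u a j|) := by
  obtain ⟨hka, hta⟩ := ha
  obtain ⟨hkb, htb⟩ := hb
  have h1 := (htb j hj).2
  have h2 := (hta i hi).2
  have h3 := (htb i hi).1
  have h4 := (hta j hj).1
  have h5 := hM a b hab i hi j hj hij
  have p1 := hg b j hj
  have p2 := hg a i hi
  have p3 := hg b i hi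
  have p4 := hg a j hj
  have hC0 : 0 < C₀ := by linarith
  calc |u b j| * |u a i| ≤ (C₀ * (κ b * g b j)) * (C₀ * (κ a * g a i)) :=
        mul_le_mul h1 h2 (abs_nonneg _) (by positivity)
    _ = C₀ ^ 2 * (κ a * κ b) * (g b j * g a i) := by ring
    _ ≤ C₀ ^ 2 * (κ a * κ b) * (ε * (g b i * g a j)) := by
        apply mul_le_mul_of_nonneg_left h5; positivity
    _ = C₀ ^ 2 * ε * ((κ b * g b i) * (κ a * g a j)) := by ring
    _ ≤ C₀ ^ 2 * ε * ((C₀ * |u b i|) * (C₀ * |u a j|)) := by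
        apply mul_le_mul_of_nonneg_left _ (by positivity)
        exact mul_le_mul h3 h4 (by positivity) (by positivity)
    _ = _ := by ring

/-- four elements of a set of at least four natural numbers -/
theorem four_of_card {F : Finset ℕ} (h : 4 ≤ F.card) :
    ∃ i₁ ∈ F, ∃ i₂ ∈ F, ∃ i₃ ∈ F, ∃ i₄ ∈ F, i₁ < i₂ ∧ i₂ < i₃ ∧ i₃ < i₄ := by
  refine ⟨_, F.orderEmbOfCardLe_mem h 0, _, F.orderEmbOfCardLe_mem h 1, _,
    F.orderEmbOfCardLe_mem h 2, _, F.orderEmbOfCardLe_mem h 3, ?_, ?_, ?_⟩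
  all_goals
    apply (F.orderEmbOfCardLe h).strictMono
    decide

theorem domination (ι : Type) [DecidableEq ι] (C₀ C₁ : ℝ) (h0 : 1 ≤ C₀) (h1 : 1 ≤ C₁) (q : ℕ) :
    ∃ ε : ℝ, 0 < ε ∧ ∃ C₂ : ℝ, 1 ≤ C₂ ∧ ∀ (A : Finset ℕ) (key : ι → ℝ) (g : ι → ℕ → ℝ),
      Function.Injective key → (∀ a, ∀ i ∈ A, 0 < g a i) → Mono ε key g A →
      ∀ T : Finset ι, T.card ≤ q → ∀ (u : ι → ℕ → ℝ) (κ : ι → ℝ),
        (∀ a ∈ T, 0 < κ a ∧ Tie C₀ (κ a) (g a) (u a) A) →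
      ∀ a₁ ∈ T, (∀ a ∈ T, key a₁ ≤ key a) → ∀ (x : ι → ℝ) (Q : Finset ℕ), Q ⊆ A →
        3 * q + 1 ≤ Q.card → ∀ K : ℝ, 0 < K →
        Tie C₁ K (g a₁) (fun i => ∑ a ∈ T, x a * u a i) Q →
      ∀ j ∈ A, (∀ i ∈ Q, i < j) →
        K * g a₁ j ≤ C₂ * |∑ a ∈ T, x a * u a j| ∧
          |∑ a ∈ T, x a * u a j| ≤ C₂ * (K * g a₁ j) := by
  have hC0 : 0 < C₀ := by linarith
  have hC1 : 0 < C₁ := by linarith
  set ε : ℝ := 1 / (8 * (q + 1) * C₀ ^ 4 * C₁ ^ 2) with hε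
  have hεpos : 0 < ε := by positivity
  refine ⟨ε, hεpos, 4 * C₀ ^ 2 * C₁, ?_, ?_⟩
  · have : 1 ≤ C₀ ^ 2 := one_le_pow₀ h0
    nlinarith
  intro A key g hinj hg hM T hT u κ hu a₁ ha₁ hmin x Q hQ hQc K hK htie j hj hjQ
  -- small quantities
  set θ : ℝ := C₀ ^ 4 * ε with hθ
  have hθpos : 0 < θ := by positivity
  have hθq : q * θ ≤ 1 / 2 := by
    have e : q * θ = (q / (q + 1)) * (1 / (8 * C₁ ^ 2)) := by
      rw [hθ, hε]; field_simp
    rw [e]
    have e1 : (q : ℝ) / (q + 1) ≤ 1 := by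
      rw [div_le_one (by positivity)]; linarith
    have e2 : 1 / (8 * C₁ ^ 2) ≤ 1 / 8 := by
      apply one_div_le_one_div_of_le (by norm_num)
      nlinarith [one_le_pow₀ h1 (n := 2)]
    have e3 : (0 : ℝ) ≤ q / (q + 1) := by positivity
    calc (q : ℝ) / (q + 1) * (1 / (8 * C₁ ^ 2)) ≤ 1 * (1 / 8) :=
          mul_le_mul e1 e2 (by positivity) (by norm_num)
      _ ≤ 1 / 2 := by norm_num
  have hsmall : 4 * C₁ ^ 2 * C₀ ^ 2 * ε < 1 := by
    have e : 4 * C₁ ^ 2 * C₀ ^ 2 * ε = 1 / (2 * (q + 1) * C₀ ^ 2) := by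
      rw [hε]; field_simp; norm_num
    rw [e, div_lt_one (by positivity)]
    have : 1 ≤ C₀ ^ 2 := one_le_pow₀ h0
    have hq : (0 : ℝ) ≤ q := by positivity
    nlinarith
  have hTne : T.Nonempty := ⟨a₁, ha₁⟩
  set τ : ι → ℕ → ℝ := fun a i => |x a * u a i| with hτ
  have hdrop : ∀ a ∈ T, ∀ b ∈ T, key a < key b → ∀ i ∈ A, ∀ j ∈ A, i < j →
      τ b j * τ a i ≤ θ * (τ b i * τ a j) := by
    intro a ha b hb hab i hi j hj hij
    have h := ratio_drop h0 hg hM (hu a ha) (hu b hb) hεpos.le hab hi hj hij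
    simp only [hτ, abs_mul]
    have hx : 0 ≤ |x a| * |x b| := by positivity
    calc |x b| * |u b j| * (|x a| * |u a i|) = (|x a| * |x b|) * (|u b j| * |u a i|) := by ring
      _ ≤ (|x a| * |x b|) * (C₀ ^ 4 * ε * (|u b i| * |u a j|)) :=
          mul_le_mul_of_nonneg_left h hx
      _ = _ := by rw [hθ]; ring
  have hdom : ∀ i, ∃ a ∈ T, ∀ b ∈ T, τ b i ≤ τ a i := fun i =>
    Finset.exists_max_image T (fun a => τ a i) hTne
  choose dm hdm1 hdm2 using hdom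
  obtain ⟨a, haT, hfib⟩ := Finset.exists_lt_card_fiber_of_mul_lt_card_of_maps_to
    (s := Q) (t := T) (f := dm) (n := 3) (fun i _ => hdm1 i) (by
      have := hT
      omega)
  obtain ⟨i₁, hi₁, i₂, hi₂, i₃, hi₃, i₄, hi₄, h12, h23, h34⟩ := four_of_card (show 4 ≤ _ from hfib)
  simp only [Finset.mem_filter] at hi₁ hi₂ hi₃ hi₄
  have hdma : ∀ i, dm i = a → ∀ b ∈ T, τ b i ≤ τ a i := fun i hi b hb => by
    have := hdm2 i b hb; rwa [hi] at this
  -- positivity of the dominant term on `Q`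
  have hpos : ∀ i ∈ Q, dm i = a → 0 < τ a i := by
    intro i hi hia
    have hy := (htie i hi).1
    have hy2 : |∑ b ∈ T, x b * u b i| ≤ T.card * τ a i := by
      calc |∑ b ∈ T, x b * u b i| ≤ ∑ b ∈ T, |x b * u b i| := Finset.abs_sum_le_sum_abs _ _
        _ ≤ ∑ b ∈ T, τ a i := Finset.sum_le_sum fun b hb => hdma i hia b hb
        _ = _ := by rw [Finset.sum_const, nsmul_eq_mul]
    by_contra hneg
    push Not at hneg
    have h3 : (T.card : ℝ) * τ a i ≤ 0 := mul_nonpos_of_nonneg_of_nonpos (by positivity) hneg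
    have h4 := mul_pos hK (hg a₁ i (hQ hi))
    have h5 : C₁ * |∑ b ∈ T, x b * u b i| ≤ 0 :=
      mul_nonpos_of_nonneg_of_nonpos hC1.le (hy2.trans h3)
    simp only at hy
    linarith
  -- unique domination in the middle
  have hmid : ∀ i ∈ Q, dm i = a → ∀ i' ∈ Q, dm i' = a → ∀ i'' ∈ Q, dm i'' = a → i' < i →
      i < i'' → ∀ b ∈ T, b ≠ a → τ b i ≤ θ * τ a i := by
    intro i hi hia i' hi' hia' i'' hi'' hia'' hlt hlt' b hb hba
    have hne : key b ≠ key a := fun h => hba (hinj h)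
    rcases lt_or_gt_of_ne hne with hk | hk
    · have h := hdrop b hb a haT hk i (hQ hi) i'' (hQ hi'') hlt'
      have h2 := hdma i'' hia'' b hb
      have p := hpos i'' hi'' hia''
      have p2 := hpos i hi hia
      have h3 : τ a i'' * τ b i ≤ τ a i'' * (θ * τ a i) := by
        calc τ a i'' * τ b i ≤ θ * (τ a i * τ b i'') := h
          _ ≤ θ * (τ a i * τ a i'') := by gcongr
          _ = _ := by ring
      exact le_of_mul_le_mul_left h3 p
    · have h := hdrop a haT b hb hk i' (hQ hi') i (hQ hi) hlt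
      have h2 := hdma i' hia' b hb
      have p := hpos i' hi' hia'
      have p2 := hpos i hi hia
      have h3 : τ a i' * τ b i ≤ τ a i' * (θ * τ a i) := by
        calc τ a i' * τ b i = τ b i * τ a i' := by ring
          _ ≤ θ * (τ b i' * τ a i) := h
          _ ≤ θ * (τ a i' * τ a i) := by gcongr
          _ = _ := by ring
      exact le_of_mul_le_mul_left h3 p
  have hi2 := dom_sum T (fun b => x b * u b i₂) a haT θ q hT hθq hθpos.le
    (fun b hb hba => hmid i₂ hi₂.1 hi₂.2 i₁ hi₁.1 hi₁.2 i₃ hi₃.1 hi₃.2 h12 h23 b hb hba)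
  have hi3 := dom_sum T (fun b => x b * u b i₃) a haT θ q hT hθq hθpos.le
    (fun b hb hba => hmid i₃ hi₃.1 hi₃.2 i₂ hi₂.1 hi₂.2 i₄ hi₄.1 hi₄.2 h23 h34 b hb hba)
  have ht2 := htie i₂ hi₂.1
  have ht3 := htie i₃ hi₃.1
  simp only at ht2 ht3
  have g2 := hg a₁ i₂ (hQ hi₂.1)
  have g3 := hg a₁ i₃ (hQ hi₃.1)
  -- the dominant index is `a₁`
  have haa : a = a₁ := by
    by_contra hne
    have hk : key a₁ < key a :=
      lt_of_le_of_ne (hmin a haT) (fun h => hne (hinj h).symm)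
    obtain ⟨hka, hta⟩ := hu a haT
    have hm := hM a₁ a hk i₂ (hQ hi₂.1) i₃ (hQ hi₃.1) h23
    have ga2 := hg a i₂ (hQ hi₂.1)
    have ga3 := hg a i₃ (hQ hi₃.1)
    have e1 : |x a * u a i₃| ≤ |x a| * (C₀ * (κ a * g a i₃)) := by
      rw [abs_mul]; exact mul_le_mul_of_nonneg_left (hta i₃ (hQ hi₃.1)).2 (abs_nonneg _)
    have e2 : |x a| * (κ a * g a i₂) ≤ C₀ * |x a * u a i₂| := by
      rw [abs_mul]
      calc |x a| * (κ a * g a i₂) ≤ |x a| * (C₀ * |u a i₂|) :=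
            mul_le_mul_of_nonneg_left (hta i₂ (hQ hi₂.1)).1 (abs_nonneg _)
        _ = _ := by ring
    -- combine
    have e3 : (K * g a₁ i₃) * g a₁ i₂ ≤ 4 * C₁ ^ 2 * C₀ ^ 2 * ε * ((K * g a₁ i₃) * g a₁ i₂) := by
      calc (K * g a₁ i₃) * g a₁ i₂ ≤ (C₁ * |∑ b ∈ T, x b * u b i₃|) * g a₁ i₂ :=
            mul_le_mul_of_nonneg_right ht3.1 g2.le
        _ ≤ (C₁ * (2 * |x a * u a i₃|)) * g a₁ i₂ := by gcongr; exact hi3.2
        _ ≤ (C₁ * (2 * (|x a| * (C₀ * (κ a * g a i₃))))) * g a₁ i₂ := by gcongr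
        _ = (2 * C₁ * C₀ * |x a| * κ a) * (g a i₃ * g a₁ i₂) := by ring
        _ ≤ (2 * C₁ * C₀ * |x a| * κ a) * (ε * (g a i₂ * g a₁ i₃)) := by gcongr
        _ = 2 * C₁ * C₀ * ε * g a₁ i₃ * (|x a| * (κ a * g a i₂)) := by ring
        _ ≤ 2 * C₁ * C₀ * ε * g a₁ i₃ * (C₀ * |x a * u a i₂|) := by gcongr
        _ ≤ 2 * C₁ * C₀ * ε * g a₁ i₃ * (C₀ * (2 * |∑ b ∈ T, x b * u b i₂|)) := by
            gcongr; exact hi2.1
        _ ≤ 2 * C₁ * C₀ * ε * g a₁ i₃ * (C₀ * (2 * (C₁ * (K * g a₁ i₂)))) := by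
            gcongr; exact ht2.2
        _ = _ := by ring
    have e4 : 0 < (K * g a₁ i₃) * g a₁ i₂ := by positivity
    nlinarith
  subst haa
  obtain ⟨hka, hta⟩ := hu a haT
  have hij : i₃ < j := hjQ i₃ hi₃.1
  have gj := hg a j hj
  have hj3 := dom_sum T (fun b => x b * u b j) a haT θ q hT hθq hθpos.le
    (fun b hb hba => by
      have hk : key a < key b := lt_of_le_of_ne (hmin b hb) (fun h => hba (hinj h).symm)
      have h := hdrop a haT b hb hk i₃ (hQ hi₃.1) j hj hij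
      have h2 := hdma i₃ hi₃.2 b hb
      have p := hpos i₃ hi₃.1 hi₃.2
      have hτn : 0 ≤ τ a j := abs_nonneg _
      have h3 : τ a i₃ * τ b j ≤ τ a i₃ * (θ * τ a j) := by
        calc τ a i₃ * τ b j = τ b j * τ a i₃ := by ring
          _ ≤ θ * (τ b i₃ * τ a j) := h
          _ ≤ θ * (τ a i₃ * τ a j) := by gcongr
          _ = _ := by ring
      exact le_of_mul_le_mul_left h3 p)
  constructor
  · -- lower bound
    have e1 : K * g a i₃ ≤ (2 * C₁ * C₀ * (|x a| * κ a)) * g a i₃ := by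
      calc K * g a i₃ ≤ C₁ * |∑ b ∈ T, x b * u b i₃| := ht3.1
        _ ≤ C₁ * (2 * |x a * u a i₃|) := by gcongr; exact hi3.2
        _ ≤ C₁ * (2 * (|x a| * (C₀ * (κ a * g a i₃)))) := by
            rw [abs_mul]; gcongr; exact (hta i₃ (hQ hi₃.1)).2
        _ = _ := by ring
    have e2 : K ≤ 2 * C₁ * C₀ * (|x a| * κ a) := le_of_mul_le_mul_right e1 g3
    calc K * g a j ≤ (2 * C₁ * C₀ * (|x a| * κ a)) * g a j := by gcongr
      _ = 2 * C₁ * C₀ * (|x a| * (κ a * g a j)) := by ring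
      _ ≤ 2 * C₁ * C₀ * (|x a| * (C₀ * |u a j|)) :=
          mul_le_mul_of_nonneg_left (mul_le_mul_of_nonneg_left (hta j hj).1 (abs_nonneg _))
            (by positivity)
      _ = 2 * C₁ * C₀ ^ 2 * |x a * u a j| := by rw [abs_mul]; ring
      _ ≤ 2 * C₁ * C₀ ^ 2 * (2 * |∑ b ∈ T, x b * u b j|) := by gcongr; exact hj3.1
      _ = _ := by ring
  · have e1 : (|x a| * κ a) * g a i₃ ≤ (2 * C₀ * C₁ * K) * g a i₃ := by
      calc (|x a| * κ a) * g a i₃ = |x a| * (κ a * g a i₃) := by ring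
        _ ≤ |x a| * (C₀ * |u a i₃|) :=
            mul_le_mul_of_nonneg_left (hta i₃ (hQ hi₃.1)).1 (abs_nonneg _)
        _ = C₀ * |x a * u a i₃| := by rw [abs_mul]; ring
        _ ≤ C₀ * (2 * |∑ b ∈ T, x b * u b i₃|) := by gcongr; exact hi3.1
        _ ≤ C₀ * (2 * (C₁ * (K * g a i₃))) := by gcongr; exact ht3.2
        _ = _ := by ring
    have e2 : |x a| * κ a ≤ 2 * C₀ * C₁ * K := le_of_mul_le_mul_right e1 g3
    calc |∑ b ∈ T, x b * u b j| ≤ 2 * |x a * u a j| := hj3.2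
      _ = 2 * (|x a| * |u a j|) := by rw [abs_mul]
      _ ≤ 2 * (|x a| * (C₀ * (κ a * g a j))) := by gcongr; exact (hta j hj).2
      _ = 2 * C₀ * (|x a| * κ a) * g a j := by ring
      _ ≤ 2 * C₀ * (2 * C₀ * C₁ * K) * g a j := by gcongr
      _ = _ := by ring

end Pool.Agent.LibSAR
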