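import Pool.Agent.LibSAR.Defs

/-!
# Quantitative Ramsey theorems for pairs and triples
-/

namespace Pool.Agent.LibSAR

lemma r_sq_le (m : ℕ) (h : 4 ≤ m) : m * m ≤ 2 ^ m := by
  induction m, h using Nat.le_induction with
  | base => norm_num
  | succ m hm ih =>
    rw [pow_succ]
    nlinarith

lemma r_pigeon {κ : Type} [Fintype κ] [DecidableEq κ] (S : Finset ℕ) (f : ℕ → κ) (n : ℕ)
    (hn : 1 ≤ n) (h : Fintype.card κ * n ≤ S.card) :
    ∃ x, n ≤ (S.filter fun i => f i = x).card := by
  classical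
  by_contra hcon
  push Not at hcon
  have h1 : S.card = ∑ x : κ, (S.filter fun i => f i = x).card :=
    Finset.card_eq_sum_card_fiberwise (f := f) (t := Finset.univ) fun _ _ => Finset.mem_univ _
  have h2 : ∑ x : κ, (S.filter fun i => f i = x).card ≤ ∑ _x : κ, (n - 1) :=
    Finset.sum_le_sum fun x _ => Nat.le_sub_one_of_lt (hcon x)
  rw [Finset.sum_const, Finset.card_univ, smul_eq_mul] at h2
  rcases Nat.eq_zero_or_pos (Fintype.card κ) with h0 | h0
  · rw [h0, zero_mul] at h2
    have h3 : S.card = 0 := by omega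
    rw [Fintype.card_eq_zero_iff] at h0
    exact h0.elim (f 0)
  · have h3 : Fintype.card κ * (n - 1) < Fintype.card κ * n :=
      Nat.mul_lt_mul_of_pos_left (by omega) h0
    omega

/-- End-homogeneous sequences for pairs. -/
lemma r_end (κ : Type) [Fintype κ] [DecidableEq κ] (col : ℕ → ℕ → κ) (t : ℕ) : ∀ A : Finset ℕ,
    (Fintype.card κ + 1) ^ t ≤ A.card → ∃ B ⊆ A, B.card = t ∧ ∃ f : ℕ → κ,
      ∀ i ∈ B, ∀ j ∈ B, i < j → col i j = f i := by
  classical
  induction t with
  | zero =>
    intro A _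
    exact ⟨∅, Finset.empty_subset _, rfl, fun i => col i i, by simp⟩
  | succ t ih =>
    intro A hA
    have hpos : 0 < A.card := lt_of_lt_of_le (by positivity) hA
    have hne : A.Nonempty := Finset.card_pos.1 hpos
    set a := A.min' hne with ha
    have haA : a ∈ A := A.min'_mem hne
    have hcard : (A.erase a).card = A.card - 1 := Finset.card_erase_of_mem haA
    have h1 : 1 ≤ (Fintype.card κ + 1) ^ t := Nat.one_le_pow _ _ (by omega)
    have h2 : Fintype.card κ * (Fintype.card κ + 1) ^ t ≤ (A.erase a).card := by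
      rw [hcard]
      rw [pow_succ] at hA
      have : (Fintype.card κ + 1) ^ t * (Fintype.card κ + 1) =
          Fintype.card κ * (Fintype.card κ + 1) ^ t + (Fintype.card κ + 1) ^ t := by ring
      omega
    obtain ⟨x, hx⟩ := r_pigeon (A.erase a) (col a) _ h1 h2
    obtain ⟨B, hB, hBt, f, hf⟩ := ih _ hx
    have hBA : ∀ i ∈ B, i ∈ A ∧ a < i ∧ col a i = x := by
      intro i hi
      have h3 := Finset.mem_filter.1 (hB hi)
      have h4 := Finset.mem_erase.1 h3.1
      exact ⟨h4.2, lt_of_le_of_ne (A.min'_le i h4.2) (Ne.symm h4.1), h3.2⟩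
    have haB : a ∉ B := fun h => lt_irrefl a (hBA a h).2.1
    refine ⟨insert a B, ?_, ?_, Function.update f a x, ?_⟩
    · intro i hi
      rcases Finset.mem_insert.1 hi with rfl | hi
      · exact haA
      · exact (hBA i hi).1
    · rw [Finset.card_insert_of_notMem haB, hBt]
    · intro i hi j hj hij
      rcases Finset.mem_insert.1 hi with rfl | hi
      · rcases Finset.mem_insert.1 hj with rfl | hj
        · exact absurd hij (lt_irrefl _)
        · rw [Function.update_self]
          exact (hBA j hj).2.2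
      · rcases Finset.mem_insert.1 hj with rfl | hj
        · exact absurd hij (not_lt.2 (hBA i hi).2.1.le)
        · rw [Function.update_of_ne (ne_of_mem_of_not_mem hi haB)]
          exact hf i hi j hj hij

/-- TASK R2 -/
theorem ramsey_two (κ : Type) [Fintype κ] : ∃ m₀ : ℕ, ∀ m ≥ m₀, ∀ A : Finset ℕ, tw 2 m ≤ A.card →
    ∀ col : ℕ → ℕ → κ, ∃ B ⊆ A, m ≤ B.card ∧ ∃ x, ∀ i ∈ B, ∀ j ∈ B, i < j → col i j = x := by
  classical
  obtain ⟨c, hc⟩ : ∃ c, c = Fintype.card κ := ⟨_, rfl⟩
  refine ⟨max 4 ((c + 1) * c), fun m hm A hA col => ?_⟩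
  have hm4 : 4 ≤ m := le_trans (le_max_left _ _) hm
  have hmc : (c + 1) * c ≤ m := le_trans (le_max_right _ _) hm
  have h1 : (c + 1) ^ (c * m) ≤ A.card := by
    refine le_trans ?_ hA
    change (c + 1) ^ (c * m) ≤ 2 ^ (2 ^ m)
    calc (c + 1) ^ (c * m) ≤ (2 ^ (c + 1)) ^ (c * m) :=
          Nat.pow_le_pow_left (Nat.lt_two_pow_self).le _
      _ = 2 ^ ((c + 1) * (c * m)) := (pow_mul 2 (c + 1) (c * m)).symm
      _ ≤ 2 ^ (2 ^ m) := by
          apply Nat.pow_le_pow_right (by norm_num)
          calc (c + 1) * (c * m) = (c + 1) * c * m := by ring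
            _ ≤ m * m := Nat.mul_le_mul_right m hmc
            _ ≤ 2 ^ m := r_sq_le m hm4
  rw [hc] at h1
  obtain ⟨B, hBA, hBt, f, hf⟩ := r_end κ col _ A h1
  obtain ⟨x, hx⟩ := r_pigeon B f m (by omega) (by omega)
  refine ⟨B.filter fun i => f i = x, (Finset.filter_subset _ _).trans hBA, hx, x, ?_⟩
  intro i hi j hj hij
  have hi' := Finset.mem_filter.1 hi
  have hj' := Finset.mem_filter.1 hj
  rw [hf i hi'.1 j hj'.1 hij, hi'.2]

/-- End-homogeneous sequences for triples. -/
lemma r_end3 (κ : Type) [Fintype κ] [DecidableEq κ] (hκ : 1 ≤ Fintype.card κ)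
    (col : ℕ → ℕ → ℕ → κ) (T : ℕ) (r : ℕ) : ∀ (B S : Finset ℕ) (g : ℕ → ℕ → κ),
    B.card + r ≤ T → (∀ i ∈ B, ∀ j ∈ S, i < j) →
    (∀ i ∈ B, ∀ j ∈ B, ∀ l ∈ B ∪ S, i < j → j < l → col i j l = g i j) →
    ((Fintype.card κ + 1) ^ T) ^ r ≤ S.card →
    ∃ B' ⊆ B ∪ S, B'.card = B.card + r ∧ ∃ g' : ℕ → ℕ → κ,
      ∀ i ∈ B', ∀ j ∈ B', ∀ l ∈ B', i < j → j < l → col i j l = g' i j := by
  classical
  induction r with
  | zero =>
    intro B S g _ _ hg _
    exact ⟨B, Finset.subset_union_left, rfl, g, fun i hi j hj l hl =>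
      hg i hi j hj l (Finset.mem_union_left _ hl)⟩
  | succ r ih =>
    intro B S g hBT hBS hg hS
    have hpos : 0 < S.card := lt_of_lt_of_le (by positivity) hS
    have hne : S.Nonempty := Finset.card_pos.1 hpos
    set a := S.min' hne with ha
    have haS : a ∈ S := S.min'_mem hne
    have haB : a ∉ B := fun h => lt_irrefl a (hBS a h a haS)
    have hcard : (S.erase a).card = S.card - 1 := Finset.card_erase_of_mem haS
    have h1 : 1 ≤ ((Fintype.card κ + 1) ^ T) ^ r := Nat.one_le_pow _ _ (by positivity)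
    have h2 : Fintype.card (B → κ) * ((Fintype.card κ + 1) ^ T) ^ r ≤ (S.erase a).card := by
      rw [hcard, Fintype.card_fun, Fintype.card_coe]
      rw [pow_succ] at hS
      have h3 : Fintype.card κ ^ B.card + 1 ≤ (Fintype.card κ + 1) ^ T := by
        have h4 : Fintype.card κ ^ B.card ≤ Fintype.card κ ^ T :=
          Nat.pow_le_pow_right hκ (by omega)
        have h5 : Fintype.card κ ^ T < (Fintype.card κ + 1) ^ T :=
          Nat.pow_lt_pow_left (Nat.lt_succ_self _) (by omega)
        omega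
      have h6 : (Fintype.card κ ^ B.card + 1) * ((Fintype.card κ + 1) ^ T) ^ r ≤
          ((Fintype.card κ + 1) ^ T) ^ r * (Fintype.card κ + 1) ^ T := by
        rw [mul_comm]
        exact Nat.mul_le_mul_left _ h3
      rw [add_mul, one_mul] at h6
      omega
    obtain ⟨x, hx⟩ := r_pigeon (S.erase a) (fun l => fun i : B => col i a l) _ h1 h2
    set S' := (S.erase a).filter fun l => (fun i : B => col i a l) = x with hS'
    have hS'mem : ∀ l ∈ S', l ∈ S ∧ a < l ∧ ∀ i (hi : i ∈ B), col i a l = x ⟨i, hi⟩ := by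
      intro l hl
      have h3 := Finset.mem_filter.1 hl
      have h4 := Finset.mem_erase.1 h3.1
      exact ⟨h4.2, lt_of_le_of_ne (S.min'_le l h4.2) (Ne.symm h4.1),
        fun i hi => congrFun h3.2 ⟨i, hi⟩⟩
    obtain ⟨B', hB', hB'c, g', hg'⟩ := ih (insert a B) S'
      (fun i j => if h : j = a ∧ i ∈ B then x ⟨i, h.2⟩ else g i j)
      (by rw [Finset.card_insert_of_notMem haB]; omega)
      (by
        intro i hi j hj
        rcases Finset.mem_insert.1 hi with rfl | hi
        · exact (hS'mem j hj).2.1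
        · exact hBS i hi j (hS'mem j hj).1)
      (by
        intro i hi j hj l hl hij hjl
        have hlS : l = a ∨ l ∈ B ∨ l ∈ S' := by
          rcases Finset.mem_union.1 hl with hl | hl
          · rcases Finset.mem_insert.1 hl with rfl | hl
            · exact Or.inl rfl
            · exact Or.inr (Or.inl hl)
          · exact Or.inr (Or.inr hl)
        have hlU : l ∈ B ∪ S := by
          rcases hlS with rfl | hl | hl
          · exact Finset.mem_union_right _ haS
          · exact Finset.mem_union_left _ hl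
          · exact Finset.mem_union_right _ (hS'mem l hl).1
        rcases Finset.mem_insert.1 hj with rfl | hj
        · -- `j = a`
          have hiB : i ∈ B := by
            rcases Finset.mem_insert.1 hi with rfl | hi
            · exact absurd hij (lt_irrefl _)
            · exact hi
          have hl' : l ∈ S' := by
            rcases hlS with rfl | hl | hl
            · exact absurd hjl (lt_irrefl _)
            · exact absurd hjl (not_lt.2 (hBS l hl a haS).le)
            · exact hl
          rw [dif_pos ⟨rfl, hiB⟩]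
          exact (hS'mem l hl').2.2 i hiB
        · have hja : j ≠ a := fun h => haB (h ▸ hj)
          have hiB : i ∈ B := by
            rcases Finset.mem_insert.1 hi with rfl | hi
            · exact absurd hij (not_lt.2 (hBS j hj a haS).le)
            · exact hi
          rw [dif_neg fun h => hja h.1]
          exact hg i hiB j hj l hlU hij hjl)
      hx
    refine ⟨B', ?_, ?_, g', hg'⟩
    · intro i hi
      rcases Finset.mem_union.1 (hB' hi) with h | h
      · rcases Finset.mem_insert.1 h with rfl | h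
        · exact Finset.mem_union_right _ haS
        · exact Finset.mem_union_left _ h
      · exact Finset.mem_union_right _ (hS'mem i h).1
    · rw [hB'c, Finset.card_insert_of_notMem haB]
      omega

lemma r_le_tw (j m : ℕ) : m ≤ tw j m := by
  induction j with
  | zero => exact le_refl m
  | succ j ih => exact ih.trans (Nat.lt_two_pow_self).le

/-- TASK R3 -/
theorem ramsey_three (κ : Type) [Fintype κ] : ∃ m₀ : ℕ, ∀ m ≥ m₀, ∀ A : Finset ℕ,
    tw 5 m ≤ A.card → ∀ col : ℕ → ℕ → ℕ → κ, ∃ B ⊆ A, m ≤ B.card ∧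
      ∃ x, ∀ i ∈ B, ∀ j ∈ B, ∀ l ∈ B, i < j → j < l → col i j l = x := by
  classical
  obtain ⟨m₁, hm₁⟩ := ramsey_two κ
  obtain ⟨C, hC⟩ : ∃ C, C = Fintype.card κ + 1 := ⟨_, rfl⟩
  refine ⟨max (max 4 C) m₁, fun m hm A hA col => ?_⟩
  have hm4 : 4 ≤ m := le_trans (le_trans (le_max_left _ _) (le_max_left _ _)) hm
  have hmC : C ≤ m := le_trans (le_trans (le_max_right _ _) (le_max_left _ _)) hm
  have hm1 : m₁ ≤ m := le_trans (le_max_right _ _) hm
  have hκ : 1 ≤ Fintype.card κ := Fintype.card_pos_iff.2 ⟨col 0 0 0⟩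
  obtain ⟨T, hT⟩ : ∃ T, T = tw 2 m := ⟨_, rfl⟩
  have hmT : m ≤ T := by rw [hT]; exact r_le_tw 2 m
  have hTT : T * T ≤ 2 ^ T := r_sq_le T (by omega)
  have h1 : ((Fintype.card κ + 1) ^ T) ^ T ≤ A.card := by
    refine le_trans ?_ hA
    have h2 : tw 5 m = 2 ^ (2 ^ (2 ^ T)) := by rw [hT]; rfl
    rw [h2, ← hC, ← pow_mul]
    calc C ^ (T * T) ≤ (2 ^ C) ^ (T * T) := Nat.pow_le_pow_left (Nat.lt_two_pow_self).le _
      _ = 2 ^ (C * (T * T)) := (pow_mul 2 C (T * T)).symm
      _ ≤ 2 ^ (2 ^ (2 ^ T)) := by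
          apply Nat.pow_le_pow_right (by norm_num)
          have h3 : T ≤ 2 ^ T := (Nat.lt_two_pow_self).le
          calc C * (T * T) ≤ 2 ^ T * 2 ^ T := Nat.mul_le_mul (by omega) hTT
            _ = 2 ^ (T + T) := by rw [pow_add]
            _ ≤ 2 ^ (2 ^ T) := by
                apply Nat.pow_le_pow_right (by norm_num)
                have : 2 * T ≤ T * T := Nat.mul_le_mul_right T (by omega)
                omega
  obtain ⟨B, hBA, hBc, g, hg⟩ := r_end3 κ hκ col T T ∅ A (fun _ _ => col 0 0 0) (by simp)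
    (by simp) (by simp) h1
  rw [Finset.empty_union] at hBA
  rw [Finset.card_empty, zero_add] at hBc
  obtain ⟨B', hB'B, hB'c, x, hx⟩ := hm₁ m hm1 B (by rw [hBc, hT]) g
  refine ⟨B', hB'B.trans hBA, hB'c, x, ?_⟩
  intro i hi j hj l hl hij hjl
  rw [hg i (hB'B hi) j (hB'B hj) l (hB'B hl) hij hjl]
  exact hx i hi j hj hij

end Pool.Agent.LibSAR
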