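import Pool.Agent.LibSAR.Dominance
import Pool.Agent.LibSAR.Ramsey

/-!
# The settled case: comparison of all terms
-/

namespace Pool.Agent.LibSAR

lemma m_finish (m k : ℕ) (ι : Type) [Fintype ι] [DecidableEq ι] (vec : ι → Fin m → ℝ)
    (hvec : Function.Injective vec) (C : ℝ) (hC : 1 ≤ C) :
    ∃ β : ℝ, 0 < β ∧ ∃ M₀ : ℕ, ∀ M ≥ M₀, ∀ (P : ℕ → Fin m → ℝ) (B : Finset ℕ),
      2 ^ Fintype.card ι * tw 9 M ≤ B.card →
      (∀ a b, a ≠ b → ∀ i ∈ B, ∀ j ∈ B, i ≠ j →
        β ≤ |∑ s, (vec a s - vec b s) * (P i s - P j s)|) →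
      ∀ (T : Finset ι) (u : ι → ℕ → ℝ) (κ : ι → ℝ),
        (∀ a ∈ T, 0 < κ a ∧ Tie C (κ a) (fun i => Real.exp (∑ s, vec a s * P i s)) (u a) B) →
      ∀ c' : (Fin k → ι) → ℝ, ∃ B' ⊆ B, M ≤ B'.card ∧
        ((∀ e : Fin k → ℕ, StrictMono e → (∀ l, e l ∈ B') →
          0 ≤ ∑ σ ∈ Fintype.piFinset (fun _ => T), c' σ * ∏ l, u (σ l) (e l)) ∨
        (∀ e : Fin k → ℕ, StrictMono e → (∀ l, e l ∈ B') →
          ∑ σ ∈ Fintype.piFinset (fun _ => T), c' σ * ∏ l, u (σ l) (e l) < 0)) := by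
  classical
  obtain ⟨E, hE⟩ : ∃ E : ℝ, E = C ^ k * C ^ k * (Fintype.card (Fin k → ι) : ℝ) := ⟨_, rfl⟩
  have hC0 : 0 < C := by linarith
  have hE0 : 0 ≤ E := by rw [hE]; positivity
  obtain ⟨Cd, hCd⟩ : ∃ Cd : ℝ, Cd = Real.log (2 * E + 2) := ⟨_, rfl⟩
  have hCd0 : 0 < Cd := by rw [hCd]; exact Real.log_pos (by linarith)
  have hCdexp : Real.exp Cd = 2 * E + 2 := by rw [hCd, Real.exp_log (by linarith)]
  let N : Finset (Fin m → ℝ) := ((Finset.univ : Finset (ι × ι)).filter fun p => p.1 ≠ p.2).image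
    fun p => vec p.1 - vec p.2
  have hN : ∀ ν ∈ N, ν ≠ 0 := by
    intro ν hν
    obtain ⟨p, hp, rfl⟩ := Finset.mem_image.1 hν
    intro h
    exact (Finset.mem_filter.1 hp).2 (hvec (sub_eq_zero.1 h))
  obtain ⟨M₀, hM₀⟩ := dominance m k N hN Cd hCd0 (Fintype.card ((Fin k → ι) × (Fin k → ι)))
  refine ⟨2 * Cd, by linarith, max M₀ 1, ?_⟩
  intro M hM P B hBcard hβ T u κ hT c'
  have hMM : M ≥ M₀ := le_trans (le_max_left _ _) hM
  have hM1 : 1 ≤ M := le_trans (le_max_right _ _) hM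
  -- signs
  obtain ⟨s, hs⟩ := r_pigeon (κ := ι → Bool) B (fun i => fun a => decide (0 < u a i)) (tw 9 M)
    (hM1.trans (r_le_tw 9 M)) (by
      rw [Fintype.card_fun, Fintype.card_bool]
      exact hBcard)
  set B₁ := B.filter fun i => (fun a => decide (0 < u a i)) = s with hB₁
  have hB₁B : B₁ ⊆ B := Finset.filter_subset _ _
  let sgn : ι → ℝ := fun a => if s a then 1 else -1
  have hgpos : ∀ a i, 0 < Real.exp (∑ s, vec a s * P i s) := fun a i => Real.exp_pos _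
  have hu0 : ∀ a ∈ T, ∀ i ∈ B, u a i ≠ 0 := by
    intro a ha i hi h0
    have h1 := ((hT a ha).2 i hi).1
    rw [h0, abs_zero, mul_zero] at h1
    exact absurd h1 (not_le.2 (mul_pos (hT a ha).1 (hgpos a i)))
  have hsgn : ∀ a ∈ T, ∀ i ∈ B₁, u a i = sgn a * |u a i| := by
    intro a ha i hi
    have h1 := (Finset.mem_filter.1 hi).2
    have h2 : decide (0 < u a i) = s a := congrFun h1 a
    have h3 := hu0 a ha i (hB₁B hi)
    simp only [sgn]
    by_cases h4 : 0 < u a i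
    · rw [← h2]
      simp only [h4, decide_true, if_true, one_mul]
      exact (abs_of_pos h4).symm
    · rw [← h2]
      simp only [h4, decide_false]
      have h5 : u a i < 0 := lt_of_le_of_ne (not_lt.1 h4) h3
      rw [abs_of_neg h5]
      simp
  have hsgn0 : ∀ a, sgn a ≠ 0 := by
    intro a
    simp only [sgn]
    split_ifs <;> norm_num
  -- the logarithms of the terms
  let Lc : (Fin k → ι) → ℝ := fun σ => Real.log |c' σ| + ∑ l, Real.log (κ (σ l))
  let L : (Fin k → ι) → (Fin k → ℕ) → ℝ := fun σ e => Lc σ + ∑ l, ∑ s, vec (σ l) s * P (e l) s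
  let K : Finset ℝ := (Finset.univ : Finset ((Fin k → ι) × (Fin k → ι))).image
    fun p => Lc p.1 - Lc p.2
  obtain ⟨B₂, hB₂, hB₂c, hdom⟩ := hM₀ M hMM P B₁ K Finset.card_image_le hs (by
    intro ν hν i hi j hj hij
    obtain ⟨p, hp, rfl⟩ := Finset.mem_image.1 hν
    exact hβ p.1 p.2 (Finset.mem_filter.1 hp).2 i (hB₁B hi) j (hB₁B hj) hij)
  refine ⟨B₂, hB₂.trans hB₁B, hB₂c, ?_⟩
  -- bounds for one term
  have hterm : ∀ σ ∈ Fintype.piFinset (fun _ : Fin k => T), c' σ ≠ 0 → ∀ e : Fin k → ℕ,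
      (∀ l, e l ∈ B₂) → |c' σ * ∏ l, u (σ l) (e l)| ≤ C ^ k * Real.exp (L σ e) ∧
        Real.exp (L σ e) ≤ C ^ k * |c' σ * ∏ l, u (σ l) (e l)| := by
    intro σ hσ hc e he
    have hσT : ∀ l, σ l ∈ T := fun l => Fintype.mem_piFinset.1 hσ l
    have hLexp : Real.exp (L σ e) =
        |c' σ| * ∏ l, (κ (σ l) * Real.exp (∑ s, vec (σ l) s * P (e l) s)) := by
      simp only [L, Lc]
      rw [Real.exp_add, Real.exp_add, Real.exp_log (abs_pos.2 hc), Real.exp_sum, Real.exp_sum,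
        Finset.prod_mul_distrib, mul_assoc]
      congr 2
      exact Finset.prod_congr rfl fun l _ => Real.exp_log (hT _ (hσT l)).1
    rw [hLexp, abs_mul, Finset.abs_prod]
    have h1 : ∏ l, |u (σ l) (e l)| ≤
        C ^ k * ∏ l, (κ (σ l) * Real.exp (∑ s, vec (σ l) s * P (e l) s)) := by
      calc ∏ l, |u (σ l) (e l)| ≤
          ∏ l, (C * (κ (σ l) * Real.exp (∑ s, vec (σ l) s * P (e l) s))) :=
            Finset.prod_le_prod (fun _ _ => abs_nonneg _) fun l _ =>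
              ((hT _ (hσT l)).2 _ (hB₁B (hB₂ (he l)))).2
        _ = _ := by rw [Finset.prod_mul_distrib]; simp
    have h2 : ∏ l, (κ (σ l) * Real.exp (∑ s, vec (σ l) s * P (e l) s)) ≤
        C ^ k * ∏ l, |u (σ l) (e l)| := by
      calc ∏ l, (κ (σ l) * Real.exp (∑ s, vec (σ l) s * P (e l) s)) ≤
          ∏ l, (C * |u (σ l) (e l)|) :=
            Finset.prod_le_prod (fun l _ => (mul_pos (hT _ (hσT l)).1 (hgpos _ _)).le) fun l _ =>
              ((hT _ (hσT l)).2 _ (hB₁B (hB₂ (he l)))).1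
        _ = _ := by rw [Finset.prod_mul_distrib]; simp
    constructor
    · calc |c' σ| * ∏ l, |u (σ l) (e l)| ≤
          |c' σ| * (C ^ k * ∏ l, (κ (σ l) * Real.exp (∑ s, vec (σ l) s * P (e l) s))) :=
            mul_le_mul_of_nonneg_left h1 (abs_nonneg _)
        _ = _ := by ring
    · calc |c' σ| * ∏ l, (κ (σ l) * Real.exp (∑ s, vec (σ l) s * P (e l) s)) ≤
          |c' σ| * (C ^ k * ∏ l, |u (σ l) (e l)|) :=
            mul_le_mul_of_nonneg_left h2 (abs_nonneg _)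
        _ = _ := by ring
  let S : Finset (Fin k → ι) := (Fintype.piFinset (fun _ : Fin k => T)).filter fun σ => c' σ ≠ 0
  have hsum : ∀ e : Fin k → ℕ, ∑ σ ∈ Fintype.piFinset (fun _ => T), c' σ * ∏ l, u (σ l) (e l) =
      ∑ σ ∈ S, c' σ * ∏ l, u (σ l) (e l) := by
    intro e
    symm
    apply Finset.sum_subset (Finset.filter_subset _ _)
    intro σ hσ hσS
    have h1 : c' σ = 0 := by
      by_contra h
      exact hσS (Finset.mem_filter.2 ⟨hσ, h⟩)
    rw [h1, zero_mul]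
  rcases S.eq_empty_or_nonempty with hS | hS
  · left
    intro e _ _
    rw [hsum e, hS, Finset.sum_empty]
  by_cases hex : ∃ e₀ : Fin k → ℕ, StrictMono e₀ ∧ ∀ l, e₀ l ∈ B₂
  swap
  · left
    intro e he heB
    exact absurd ⟨e, he, heB⟩ hex
  obtain ⟨e₀, he₀, he₀B⟩ := hex
  obtain ⟨σs, hσsS, hσs⟩ := Finset.exists_max_image S (fun σ => L σ e₀) hS
  have hσsT : σs ∈ Fintype.piFinset (fun _ : Fin k => T) := (Finset.mem_filter.1 hσsS).1
  have hcs : c' σs ≠ 0 := (Finset.mem_filter.1 hσsS).2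
  have hgap : ∀ σ ∈ S, σ ≠ σs → ∀ e : Fin k → ℕ, StrictMono e → (∀ l, e l ∈ B₂) →
      Cd ≤ L σs e - L σ e := by
    intro σ hσ hne
    let ν : Fin k → Fin m → ℝ := fun l => vec (σs l) - vec (σ l)
    have hνeq : ∀ e : Fin k → ℕ, (Lc σs - Lc σ) + ∑ l, ∑ b, ν l b * P (e l) b =
        L σs e - L σ e := by
      intro e
      simp only [L, ν, Pi.sub_apply, sub_mul, Finset.sum_sub_distrib]
      ring
    have h1 := hdom (Lc σs - Lc σ) (Finset.mem_image.2 ⟨(σs, σ), Finset.mem_univ _, rfl⟩) ν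
      (by
        intro l
        by_cases h : σs l = σ l
        · right
          simp only [ν, h, sub_self]
        · left
          exact Finset.mem_image.2 ⟨(σs l, σ l), Finset.mem_filter.2 ⟨Finset.mem_univ _, h⟩, rfl⟩)
      (by
        by_contra hcon
        push Not at hcon
        apply hne
        funext l
        exact (hvec (sub_eq_zero.1 (hcon l))).symm)
    rcases h1 with h1 | h1
    · intro e he heB
      rw [← hνeq e]
      exact h1 e he heB
    · exfalso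
      have h2 := h1 e₀ he₀ he₀B
      rw [hνeq e₀] at h2
      have h3 := hσs σ hσ
      linarith
  have hmain : ∀ e : Fin k → ℕ, StrictMono e → (∀ l, e l ∈ B₂) →
      |∑ σ ∈ S, c' σ * ∏ l, u (σ l) (e l) - c' σs * ∏ l, u (σs l) (e l)| ≤
        |c' σs * ∏ l, u (σs l) (e l)| / 2 := by
    intro e he heB
    set t := |c' σs * ∏ l, u (σs l) (e l)| with ht
    have h1 : ∑ σ ∈ S, c' σ * ∏ l, u (σ l) (e l) - c' σs * ∏ l, u (σs l) (e l) =
        ∑ σ ∈ S.erase σs, c' σ * ∏ l, u (σ l) (e l) := by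
      rw [← Finset.add_sum_erase S _ hσsS]
      ring
    rw [h1]
    have h2 : ∀ σ ∈ S.erase σs, |c' σ * ∏ l, u (σ l) (e l)| ≤
        C ^ k * C ^ k * t / Real.exp Cd := by
      intro σ hσ
      have hσ' := Finset.mem_erase.1 hσ
      have hσS := Finset.mem_filter.1 hσ'.2
      have h3 := (hterm σ hσS.1 hσS.2 e heB).1
      have h4 := (hterm σs hσsT hcs e heB).2
      have h5 := hgap σ hσ'.2 hσ'.1 e he heB
      have h6 : Real.exp (L σ e) ≤ Real.exp (L σs e) / Real.exp Cd := by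
        rw [← Real.exp_sub]
        exact Real.exp_le_exp.2 (by linarith)
      calc |c' σ * ∏ l, u (σ l) (e l)| ≤ C ^ k * Real.exp (L σ e) := h3
        _ ≤ C ^ k * (Real.exp (L σs e) / Real.exp Cd) :=
            mul_le_mul_of_nonneg_left h6 (by positivity)
        _ ≤ C ^ k * ((C ^ k * t) / Real.exp Cd) := by
            apply mul_le_mul_of_nonneg_left _ (by positivity)
            exact div_le_div_of_nonneg_right h4 (Real.exp_pos _).le
        _ = _ := by ring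
    have ht0 : 0 ≤ t := abs_nonneg _
    calc |∑ σ ∈ S.erase σs, c' σ * ∏ l, u (σ l) (e l)| ≤
        ∑ σ ∈ S.erase σs, |c' σ * ∏ l, u (σ l) (e l)| := Finset.abs_sum_le_sum_abs _ _
      _ ≤ ∑ _σ ∈ S.erase σs, C ^ k * C ^ k * t / Real.exp Cd := Finset.sum_le_sum h2
      _ = ((S.erase σs).card : ℝ) * (C ^ k * C ^ k * t / Real.exp Cd) := by
          rw [Finset.sum_const, nsmul_eq_mul]
      _ ≤ (Fintype.card (Fin k → ι) : ℝ) * (C ^ k * C ^ k * t / Real.exp Cd) := by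
          apply mul_le_mul_of_nonneg_right
          · exact_mod_cast Finset.card_le_univ _
          · exact div_nonneg (by positivity) (Real.exp_pos _).le
      _ = E * t / Real.exp Cd := by rw [hE]; ring
      _ ≤ t / 2 := by
          rw [hCdexp, div_le_div_iff₀ (by linarith) (by norm_num)]
          nlinarith
  -- the sign of the leading term
  obtain ⟨c₀, hc₀⟩ : ∃ c₀ : ℝ, c₀ = c' σs * ∏ l, sgn (σs l) := ⟨_, rfl⟩
  have hc₀0 : c₀ ≠ 0 := by
    rw [hc₀]
    exact mul_ne_zero hcs (Finset.prod_ne_zero_iff.2 fun l _ => hsgn0 _)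
  have hlead : ∀ e : Fin k → ℕ, (∀ l, e l ∈ B₂) → ∃ p : ℝ, 0 < p ∧
      c' σs * ∏ l, u (σs l) (e l) = c₀ * p := by
    intro e he
    have hσT : ∀ l, σs l ∈ T := fun l => Fintype.mem_piFinset.1 hσsT l
    refine ⟨∏ l, |u (σs l) (e l)|, Finset.prod_pos fun l _ =>
      abs_pos.2 (hu0 _ (hσT l) _ (hB₁B (hB₂ (he l)))), ?_⟩
    rw [hc₀, mul_assoc, ← Finset.prod_mul_distrib]
    congr 1
    exact Finset.prod_congr rfl fun l _ => hsgn _ (hσT l) _ (hB₂ (he l))
  rcases lt_or_gt_of_ne hc₀0 with hneg | hpos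
  · right
    intro e he heB
    rw [hsum e]
    obtain ⟨p, hp, hpe⟩ := hlead e heB
    have h1 := hmain e he heB
    rw [hpe] at h1
    have h2 : c₀ * p < 0 := mul_neg_of_neg_of_pos hneg hp
    rw [abs_of_neg h2, abs_le] at h1
    linarith [h1.2]
  · left
    intro e he heB
    rw [hsum e]
    obtain ⟨p, hp, hpe⟩ := hlead e heB
    have h1 := hmain e he heB
    rw [hpe] at h1
    have h2 : 0 < c₀ * p := mul_pos hpos hp
    rw [abs_of_pos h2, abs_le] at h1
    linarith [h1.1]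

end Pool.Agent.LibSAR
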