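import Pool.Agent.LibSAR.Defs

/-!
# Growth bookkeeping
-/

namespace Pool.Agent.LibSAR

lemma g_pow_le (c : ℕ) : ∃ m₀ : ℕ, ∀ m ≥ m₀, m ^ (c + 1) ≤ 2 ^ m := by
  have h1 := tendsto_pow_const_div_const_pow_of_one_lt (c + 1) (r := (2 : ℝ)) (by norm_num)
  have h2 := h1.eventually (gt_mem_nhds (show (0 : ℝ) < 1 by norm_num))
  obtain ⟨m₀, hm₀⟩ := Filter.eventually_atTop.1 h2
  refine ⟨m₀, fun m hm => ?_⟩
  have h3 := hm₀ m hm
  rw [div_lt_one (by positivity)] at h3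
  have h4 : m ^ (c + 1) < 2 ^ m := by exact_mod_cast h3
  exact h4.le

/-- growth bookkeeping -/
theorem growth (c : ℕ) : ∃ m₀ : ℕ, ∀ m ≥ m₀, 2 ^ (c * m ^ c) * m ≤ tw 2 m := by
  obtain ⟨m₀, hm₀⟩ := g_pow_le c
  refine ⟨max m₀ (c + 1), fun m hm => ?_⟩
  have h1 : m ^ (c + 1) ≤ 2 ^ m := hm₀ m (le_trans (le_max_left _ _) hm)
  have h2 : c + 1 ≤ m := le_trans (le_max_right _ _) hm
  change 2 ^ (c * m ^ c) * m ≤ 2 ^ (2 ^ m)
  have h3 : c * m ^ c + m ≤ m ^ (c + 1) := by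
    rcases Nat.eq_zero_or_pos c with rfl | hc
    · simp
    · have h4 : m ≤ m ^ c := Nat.le_self_pow (by omega) m
      calc c * m ^ c + m ≤ c * m ^ c + m ^ c := by omega
        _ = m ^ c * (c + 1) := by ring
        _ ≤ m ^ c * m := Nat.mul_le_mul_left _ h2
        _ = m ^ (c + 1) := by rw [pow_succ]
  calc 2 ^ (c * m ^ c) * m ≤ 2 ^ (c * m ^ c) * 2 ^ m :=
        Nat.mul_le_mul_left _ (Nat.lt_two_pow_self).le
    _ = 2 ^ (c * m ^ c + m) := by rw [pow_add]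
    _ ≤ 2 ^ (2 ^ m) := Nat.pow_le_pow_right (by norm_num) (h3.trans h1)

end Pool.Agent.LibSAR
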