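import Pool.Agent.LibSAR.KeyBad

/-!
# The key lemma: assembly
-/

namespace Pool.Agent.LibSAR

theorem Out.mono_L {ι : Type} {R CT : ℝ} {L L' m : ℕ} {A : Finset ℕ} {g : ι → ℕ → ℝ}
    {T : Finset ι} {w : ℕ → ℝ} {B : Finset ℕ} (h : Out R CT L m A g T w B) (hL : L ≤ L') :
    Out R CT L' m A g T w B := by
  rcases h with ⟨h1, h2⟩ | h
  · exact Or.inl ⟨h1.trans (Nat.mul_le_mul_right _ hL), h2⟩
  · exact Or.inr h

theorem KL_zero (ι : Type) [Fintype ι] [DecidableEq ι] (R : ℝ) (hR : 1 < R) : KL ι R 0 := by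
  intro C₀ _
  refine ⟨1, one_pos, R, hR.le, Fintype.card ι + 2, fun m hm A key g _ hg _ hA T hT u κ _ u₀ => ?_⟩
  have hT0 : T = ∅ := Finset.card_eq_zero.1 hT
  subst hT0
  have h2 : ∀ x : ℕ, x ≤ 2 ^ x := fun x => Nat.lt_two_pow_self.le
  have hL : 2 * (Fintype.card ι + 1) * m ≤ 2 ^ ((Fintype.card ι + 2) * m ^ (Fintype.card ι + 2)) := by
    calc 2 * (Fintype.card ι + 1) * m ≤ 2 ^ 1 * 2 ^ (Fintype.card ι) * 2 ^ m := by
          gcongr
          · norm_num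
          · exact Nat.lt_two_pow_self
          · exact h2 m
      _ = 2 ^ (1 + Fintype.card ι + m) := by rw [pow_add, pow_add]
      _ ≤ _ := by
          apply Nat.pow_le_pow_right (by norm_num)
          have h3 : m ≤ m ^ (Fintype.card ι + 2) := by
            calc m = m ^ 1 := (pow_one m).symm
              _ ≤ _ := Nat.pow_le_pow_right hm (by omega)
          calc 1 + Fintype.card ι + m = (1 + Fintype.card ι) * 1 + m := by ring
            _ ≤ (1 + Fintype.card ι) * m + m := by gcongr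
            _ = (Fintype.card ι + 2) * m := by ring
            _ ≤ _ := Nat.mul_le_mul_left _ h3
  have hA2 : 2 * m ≤ A.card := by
    calc 2 * m = 2 * 1 * m := by ring
      _ ≤ 2 * (Fintype.card ι + 1) * m := by gcongr; omega
      _ ≤ _ := hL.trans hA
  obtain ⟨B, hB, hout⟩ := kl_zero_aux ι R hR m hm A hA2 g hg (comb u₀ u ∅ 0)
  exact ⟨0, B, hB, hout.mono_L hL⟩

theorem KL_succ (ι : Type) [Fintype ι] [DecidableEq ι] (R : ℝ) (hR : 1 < R) (q : ℕ)
    (IH : KL ι R q) : KL ι R (q + 1) := by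
  classical
  intro C₀ hC₀
  obtain ⟨ε', hε', C₁, hC₁, c', hc'⟩ := IH (2 * C₀) (by linarith)
  obtain ⟨εD, hεD, C₂, hC₂, hdom⟩ := domination ι C₀ (2 * C₁) hC₀ (by linarith) (q + 1)
  have hC₀p : 0 < C₀ := by linarith
  have hC₁p : 0 < C₁ := by linarith
  have hC₂p : 0 < C₂ := by linarith
  set R' : ℝ := R * C₂ ^ 2 with hR'
  have hR'1 : 1 ≤ R' := by
    have : 1 ≤ C₂ ^ 2 := one_le_pow₀ hC₂
    nlinarith
  have hR'p : 0 < R' := by linarith
  set δ : ℝ := 1 / (2 * C₁ * (1 + C₀ ^ 2) * R') with hδ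
  have hδp : 0 < δ := by positivity
  have hδR : 2 * C₁ * (1 + C₀ ^ 2) * δ * R' ≤ 1 := by
    rw [hδ]
    apply le_of_eq
    field_simp
  have hδC : 2 * C₁ * δ ≤ 1 := by
    have h1 : 1 ≤ (1 + C₀ ^ 2) * R' := by
      have : 1 ≤ C₀ ^ 2 := one_le_pow₀ hC₀
      nlinarith
    calc 2 * C₁ * δ = (2 * C₁ * δ) * 1 := by ring
      _ ≤ (2 * C₁ * δ) * ((1 + C₀ ^ 2) * R') := by gcongr
      _ = 2 * C₁ * (1 + C₀ ^ 2) * δ * R' := by ring
      _ ≤ 1 := hδR
  obtain ⟨Nc, hNc⟩ : ∃ Nc : ℕ, 2 * C₁ * C₀ ^ 2 < δ * Nc := by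
    obtain ⟨N, hN⟩ := exists_nat_gt (2 * C₁ * C₀ ^ 2 / δ)
    refine ⟨N, ?_⟩
    rw [div_lt_iff₀ hδp] at hN
    linarith
  have hNc1 : 1 ≤ Nc := by
    by_contra h0
    have h1 : Nc = 0 := by omega
    rw [h1, Nat.cast_zero, mul_zero] at hNc
    have : 0 < 2 * C₁ * C₀ ^ 2 := by positivity
    linarith
  obtain ⟨c, hc⟩ := size_bound c' Nc (Fintype.card ι) (3 * (q + 1) + 1)
  set ε : ℝ := min (min (min ε' εD) 1) (min (1 / (2 * C₀ ^ 4)) (1 / (2 * C₁ ^ 2 * R' ^ 2)))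
    with hε
  have hεp : 0 < ε := by
    rw [hε]
    refine lt_min (lt_min (lt_min hε' hεD) one_pos) (lt_min ?_ ?_) <;> positivity
  have hε1 : ε ≤ ε' := (min_le_left _ _).trans ((min_le_left _ _).trans (min_le_left _ _))
  have hε2 : ε ≤ εD := (min_le_left _ _).trans ((min_le_left _ _).trans (min_le_right _ _))
  have hε3 : ε ≤ 1 := (min_le_left _ _).trans (min_le_right _ _)
  have hε4 : C₀ ^ 4 * ε ≤ 1 / 2 := by
    have h1 : ε ≤ 1 / (2 * C₀ ^ 4) := (min_le_right _ _).trans (min_le_left _ _)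
    calc C₀ ^ 4 * ε ≤ C₀ ^ 4 * (1 / (2 * C₀ ^ 4)) := by gcongr
      _ = 1 / 2 := by field_simp
  have hε5 : ε * (2 * C₁ ^ 2 * R' ^ 2) ≤ 1 := by
    have h1 : ε ≤ 1 / (2 * C₁ ^ 2 * R' ^ 2) := (min_le_right _ _).trans (min_le_right _ _)
    calc ε * (2 * C₁ ^ 2 * R' ^ 2) ≤ (1 / (2 * C₁ ^ 2 * R' ^ 2)) * (2 * C₁ ^ 2 * R' ^ 2) := by
          gcongr
      _ = 1 := by field_simp
  refine ⟨ε, hεp, max C₁ (C₂ * R'), hC₁.trans (le_max_left _ _), c,
    fun m hm A key g hinj hg hM hA T hT u κ hu u₀ => ?_⟩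
  have hTne : T.Nonempty := by rw [← Finset.card_pos, hT]; omega
  obtain ⟨a₁, ha₁, hmin⟩ := Finset.exists_min_image T key hTne
  have E : Env C₀ C₁ C₂ ε (3 * (q + 1) + 1) A key g T u κ a₁ :=
    { hC₀ := hC₀
      hC₁ := hC₁
      hC₂ := hC₂
      hε := hεp
      hinj := hinj
      hg := hg
      hM := hM
      hu := hu
      ha₁ := ha₁
      hmin := hmin
      dom := fun x Q hQ hQc K hK ht j hj hjQ =>
        hdom A key g hinj hg (hM.mono hg hε2) T hT.le u κ hu a₁ ha₁ hmin x Q hQ hQc K hK ht j hj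
          hjQ }
  by_contra hcon
  have hcm := hc m hm
  set L' : ℕ := 2 ^ (c' * m ^ c') with hL'
  set L : ℕ := 2 ^ (c * m ^ c) with hL
  have hL'p : 0 < L' := by positivity
  set F : ℕ := 3 * L' * Nc with hF
  have hFp : 0 < F := by positivity
  set W : ℕ := Fintype.card ι * m * (2 * (3 * L')) ^ (3 * (q + 1) + 1) with hW
  set Y : ℕ := 4 * W + 2 * (3 * L') * (3 * (q + 1) + 1) + 1 with hY
  have hSY : ∀ t ≤ m, ∀ S : Finset ℕ, A.card ≤ F ^ t * S.card → Y ≤ S.card := by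
    intro t ht S hS
    have h1 : F ^ m * Y ≤ F ^ m * S.card := by
      calc F ^ m * Y ≤ L := hcm
        _ ≤ A.card := hA
        _ ≤ F ^ t * S.card := hS
        _ ≤ F ^ m * S.card := Nat.mul_le_mul_right _ (Nat.pow_le_pow_right hFp ht)
    exact Nat.le_of_mul_le_mul_left h1 (by positivity)
  have hY1 : 6 * L' < Y := by
    have : 6 * L' * 1 ≤ 6 * L' * (3 * (q + 1) + 1) := Nat.mul_le_mul_left _ (by omega)
    have e : 2 * (3 * L') * (3 * (q + 1) + 1) = 6 * L' * (3 * (q + 1) + 1) := by ring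
    rw [hY, e]
    omega
  have hFt : ∀ t ≤ m, ∀ z ≤ Y, F ^ t * z ≤ L := by
    intro t ht z hz
    calc F ^ t * z ≤ F ^ m * Y := Nat.mul_le_mul (Nat.pow_le_pow_right hFp ht) hz
      _ ≤ L := hcm
  -- all states exist
  have hall : ∀ t ≤ m, ∃ S x P X K, St R' C₁ δ F t A g T u₀ u a₁ S x P X K := by
    intro t
    induction t with
    | zero =>
      intro _
      refine ⟨A, 0, ∅, fun _ => 0, fun _ => 0, ?_⟩
      constructor <;> simp
    | succ t ih =>
      intro ht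
      obtain ⟨S, x, P, X, K, hst⟩ := ih (by omega)
      have hSc := hSY t (by omega) S hst.cardS
      set Jt : Finset ℕ := S.filter fun j => S.card / 2 ≤ (below S j).card with hJt
      have hJtS : Jt ⊆ S := Finset.filter_subset _ _
      have htop := top_card S (S.card / 2)
      rw [← hJt] at htop
      have hJtc : S.card ≤ 2 * Jt.card := by omega
      have hJne : Jt.Nonempty := by rw [← Finset.card_pos]; omega
      have hbel : ∀ j ∈ Jt, L' ≤ (below S j).card ∧ S.card ≤ 3 * (below S j).card := by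
        intro j hj
        have h1 := (Finset.mem_filter.1 hj).2
        constructor <;> omega
      -- the data
      have hdat : ∀ j, ∃ p : (ι → ℝ) × Finset ℕ × ℝ, j ∈ Jt → (comb u₀ u T p.1 j = 0 ∧
          p.2.1 ⊆ below S j ∧ S.card ≤ 3 * L' * p.2.1.card ∧ 0 < p.2.2 ∧
          Tie C₁ p.2.2 (g a₁) (comb u₀ u T p.1) p.2.1) := by
        intro j
        by_cases hj : j ∈ Jt
        · obtain ⟨hb1, hb2⟩ := hbel j hj
          obtain ⟨y, hy, B, hB, hout⟩ := E.stepA hT hε4 hε1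
            (fun A key g h1 h2 h3 h4 T h5 u κ h6 u₀ =>
              hc' m hm A key g h1 h2 h3 h4 T h5 u κ h6 u₀) u₀ x hst.hS (hJtS hj) hb1
          have hD : A.card ≤ (F ^ t * 3) * (below S j).card := by
            calc A.card ≤ F ^ t * S.card := hst.cardS
              _ ≤ F ^ t * (3 * (below S j).card) := Nat.mul_le_mul_left _ hb2
              _ = _ := by ring
          have hDL : (F ^ t * 3) * L' ≤ L := by
            calc (F ^ t * 3) * L' = F ^ t * (3 * L') := by ring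
              _ ≤ L := hFt t (by omega) _ (by omega)
          rcases out_cases (C₁ := C₁) (CT := max C₁ (C₂ * R')) hg (le_max_left _ _)
            ((below_subset S j).trans hst.hS) hD hDL hB hout with h | ⟨h1, Kj, hKj, h2⟩
          · exact absurd ⟨y, B, hB.trans ((below_subset S j).trans hst.hS), h⟩ hcon
          · refine ⟨(y, B, Kj), fun _ => ⟨hy, hB, ?_, hKj, h2⟩⟩
            calc S.card ≤ 3 * (below S j).card := hb2
              _ ≤ 3 * (L' * B.card) := Nat.mul_le_mul_left _ h1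
              _ = _ := by ring
        · exact ⟨(0, ∅, 0), fun h => absurd h hj⟩
      choose f hf using hdat
      by_cases hbad : ∀ j ∈ Jt, ∃ p : ι × ℕ, key p.1 < key a₁ ∧ p.2 ∈ P ∧
          K p.2 * g a₁ p.2 * g p.1 j < R' * ((f j).2.2 * g a₁ j * g p.1 p.2) ∧
          (f j).2.2 * g a₁ j * g p.1 p.2 < R' * (K p.2 * g a₁ p.2 * g p.1 j)
      · exfalso
        obtain ⟨y, B, hB, hBc, μ, hμ, Θ, hΘ, hTie⟩ := E.allbad hR'1 hε5 hst
          (show t ≤ m by omega) hL'p hJtS hJtc hJne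
          (yf := fun j => (f j).1) (Bf := fun j => (f j).2.1) (Kf := fun j => (f j).2.2)
          (fun j hj => hf j hj) hbad (L := L) (by
            rw [hY] at hSc; omega) (by rw [hY] at hSc; omega)
          (hFt t (by omega) _ (by rw [hY]; omega))
        refine hcon ⟨y, B, hB, Or.inl ⟨hBc, Or.inr ⟨μ, hμ, Θ, hΘ, ?_⟩⟩⟩
        exact hTie.mono (le_max_right _ _) (fun i hi => hg μ i (hB hi)) hΘ
      · push Not at hbad
        obtain ⟨j, hj, hgood⟩ := hbad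
        obtain ⟨hy, hB, hBc, hKj, hTie⟩ := hf j hj
        have hBn : 3 * (q + 1) + 1 ≤ (f j).2.1.card := by
          by_contra hlt
          push Not at hlt
          have h1 : 3 * L' * (f j).2.1.card ≤ 3 * L' * (3 * (q + 1) + 1) :=
            Nat.mul_le_mul_left _ hlt.le
          have e : 2 * (3 * L') * (3 * (q + 1) + 1) = 2 * (3 * L' * (3 * (q + 1) + 1)) := by ring
          rw [hY, e] at hSc
          omega
        refine E.next hδp hR'1 hδR hε3 hst (hJtS hj) hB hBn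
          (Finset.card_pos.1 (by omega)) hy hKj hTie hBc hF hNc ?_
        intro μ hk j' hj'
        by_cases h : K j' * g a₁ j' * g μ j < R' * ((f j).2.2 * g a₁ j * g μ j')
        · right
          exact hgood (μ, j') hk hj' h
        · left
          exact not_lt.1 h
  obtain ⟨S, x, P, X, K, hst⟩ := hall m le_rfl
  have hSc := hSY m le_rfl S hst.cardS
  have hSn : 3 * (q + 1) + 1 ≤ S.card := by
    have h1 : 1 * (3 * (q + 1) + 1) ≤ 2 * (3 * L') * (3 * (q + 1) + 1) :=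
      Nat.mul_le_mul_right _ (by omega)
    rw [hY] at hSc
    omega
  obtain ⟨hf1, hf2⟩ := E.finish (by linarith : 0 < R) hst hδC hSn
  exact hcon ⟨x, P, hst.hP, Or.inr ⟨hst.cardP.ge, hf1, hf2⟩⟩

theorem KL_all (ι : Type) [Fintype ι] [DecidableEq ι] (R : ℝ) (hR : 1 < R) (q : ℕ) :
    KL ι R q := by
  induction q with
  | zero => exact KL_zero ι R hR
  | succ q ih => exact KL_succ ι R hR q ih

/-- KEY LEMMA -/
theorem key_lemma (ι : Type) [Fintype ι] [DecidableEq ι] (R : ℝ) (hR : 1 < R) (q : ℕ) :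
    ∀ C₀ : ℝ, 1 ≤ C₀ → ∃ ε : ℝ, 0 < ε ∧ ∃ CT : ℝ, 1 ≤ CT ∧ ∃ c : ℕ, ∀ m : ℕ, 1 ≤ m →
    ∀ (A : Finset ℕ) (key : ι → ℝ) (g : ι → ℕ → ℝ), Function.Injective key →
      (∀ a, ∀ i ∈ A, 0 < g a i) → Mono ε key g A → 2 ^ (c * m ^ c) ≤ A.card →
    ∀ (T : Finset ι), T.card = q → ∀ (u : ι → ℕ → ℝ) (κ : ι → ℝ),
      (∀ a ∈ T, 0 < κ a ∧ Tie C₀ (κ a) (g a) (u a) A) → ∀ u₀ : ℕ → ℝ,
      ∃ w : ℕ → ℝ, w - u₀ ∈ Submodule.span ℝ (u '' T) ∧ ∃ B ⊆ A,
        ((A.card ≤ 2 ^ (c * m ^ c) * B.card ∧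
          ((∀ i ∈ B, w i = 0) ∨ ∃ μ, μ ∉ T ∧ ∃ K : ℝ, 0 < K ∧ Tie CT K (g μ) w B)) ∨
        (m ≤ B.card ∧ (∀ i ∈ B, w i ≠ 0) ∧ Sep R g w B)) := by
  intro C₀ hC₀
  obtain ⟨ε, hε, CT, hCT, c, hc⟩ := KL_all ι R hR q C₀ hC₀
  refine ⟨ε, hε, CT, hCT, c, fun m hm A key g h1 h2 h3 h4 T h5 u κ h6 u₀ => ?_⟩
  obtain ⟨x, B, hB, hout⟩ := hc m hm A key g h1 h2 h3 h4 T h5 u κ h6 u₀
  refine ⟨comb u₀ u T x, ?_, B, hB, hout⟩
  have e : comb u₀ u T x - u₀ = ∑ a ∈ T, x a • u a := by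
    funext i
    simp only [comb, Pi.sub_apply, Finset.sum_apply, Pi.smul_apply, smul_eq_mul]
    ring
  rw [e]
  exact Submodule.sum_mem _ fun a ha => Submodule.smul_mem _ _
    (Submodule.subset_span ⟨a, Finset.mem_coe.2 ha, rfl⟩)

end Pool.Agent.LibSAR
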