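import Pool.Agent.LibSAR.KeyStep

/-!
# The key lemma: the case where all new points collide
-/

namespace Pool.Agent.LibSAR

variable {ι : Type} {C₀ C₁ C₂ ε : ℝ} {n : ℕ} {A : Finset ℕ} {key : ι → ℝ}
    {g : ι → ℕ → ℝ} {T : Finset ι} {u : ι → ℕ → ℝ} {κ : ι → ℝ} {a₁ : ι}

/-- all points are bad: a function of a new type -/
theorem Env.allbad [Fintype ι] [DecidableEq ι] (E : Env C₀ C₁ C₂ ε n A key g T u κ a₁)
    {R' δ : ℝ} (hR' : 1 ≤ R') (hεR : ε * (2 * C₁ ^ 2 * R' ^ 2) ≤ 1)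
    {F t m L L' : ℕ} {u₀ : ℕ → ℝ} {S : Finset ℕ} {x : ι → ℝ} {P : Finset ℕ} {X : ℕ → ι → ℝ}
    {K : ℕ → ℝ} (hst : St R' C₁ δ F t A g T u₀ u a₁ S x P X K) (htm : t ≤ m) (hL' : 0 < L')
    {Jt : Finset ℕ} (hJt : Jt ⊆ S) (hJtc : S.card ≤ 2 * Jt.card) (hJne : Jt.Nonempty)
    {yf : ℕ → ι → ℝ} {Bf : ℕ → Finset ℕ} {Kf : ℕ → ℝ}
    (hdat : ∀ j ∈ Jt, comb u₀ u T (yf j) j = 0 ∧ Bf j ⊆ below S j ∧
      S.card ≤ 3 * L' * (Bf j).card ∧ 0 < Kf j ∧ Tie C₁ (Kf j) (g a₁) (comb u₀ u T (yf j)) (Bf j))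
    (hbad : ∀ j ∈ Jt, ∃ p : ι × ℕ, key p.1 < key a₁ ∧ p.2 ∈ P ∧
      K p.2 * g a₁ p.2 * g p.1 j < R' * (Kf j * g a₁ j * g p.1 p.2) ∧
      Kf j * g a₁ j * g p.1 p.2 < R' * (K p.2 * g a₁ p.2 * g p.1 j))
    (hs1 : 2 * (3 * L') * n ≤ S.card)
    (hs2 : 2 * (Fintype.card ι * m * (2 * (3 * L')) ^ n) < S.card)
    (hs3 : F ^ t * (4 * (Fintype.card ι * m * (2 * (3 * L')) ^ n)) ≤ L) :
    ∃ y : ι → ℝ, ∃ B ⊆ A, A.card ≤ L * B.card ∧ ∃ μ, μ ∉ T ∧ ∃ Θ : ℝ, 0 < Θ ∧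
      Tie (C₂ * R') Θ (g μ) (comb u₀ u T y) B := by
  classical
  have hC0 : 0 < C₀ := by linarith [E.hC₀]
  have hC1 : 0 < C₁ := by linarith [E.hC₁]
  have hC2 : 0 < C₂ := by linarith [E.hC₂]
  have hR'0 : 0 < R' := by linarith
  -- pigeonhole on the collisions
  have hch : ∀ j, ∃ p : ι × ℕ, j ∈ Jt → (key p.1 < key a₁ ∧ p.2 ∈ P ∧
      K p.2 * g a₁ p.2 * g p.1 j < R' * (Kf j * g a₁ j * g p.1 p.2) ∧
      Kf j * g a₁ j * g p.1 p.2 < R' * (K p.2 * g a₁ p.2 * g p.1 j)) := by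
    intro j
    by_cases hj : j ∈ Jt
    · obtain ⟨p, hp⟩ := hbad j hj
      exact ⟨p, fun _ => hp⟩
    · exact ⟨(a₁, 0), fun h => absurd h hj⟩
  choose f hf using hch
  obtain ⟨⟨μ, j'⟩, hp, hJ1ne, hJ1c⟩ := pigeon Jt hJne (Finset.univ ×ˢ P) f
    (fun i hi => Finset.mem_product.2 ⟨Finset.mem_univ _, (hf i hi).2.1⟩)
    (Fintype.card ι * m) (by
      rw [Finset.card_product, Finset.card_univ, hst.cardP]
      exact Nat.mul_le_mul_left _ htm)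
  set J : Finset ℕ := Jt.filter fun i => f i = (μ, j') with hJ
  have hJJt : J ⊆ Jt := Finset.filter_subset _ _
  have hj'P : j' ∈ P := (Finset.mem_product.1 hp).2
  have hfJ : ∀ j ∈ J, key μ < key a₁ ∧
      K j' * g a₁ j' * g μ j < R' * (Kf j * g a₁ j * g μ j') ∧
      Kf j * g a₁ j * g μ j' < R' * (K j' * g a₁ j' * g μ j) := by
    intro j hj
    have h1 := hf j (hJJt hj)
    rw [(Finset.mem_filter.1 hj).2] at h1
    exact ⟨h1.1, h1.2.2⟩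
  -- overlap
  obtain ⟨Q, hQS, hQn, J', hJ'J, hJ'ne, hJ'c, hQB⟩ := overlap S J hJ1ne Bf (3 * L')
    (by positivity) (fun j hj => (hdat j (hJJt hj)).2.1.trans (below_subset S j))
    (fun j hj => (hdat j (hJJt hj)).2.2.1) n hs1
  set j₀ : ℕ := J'.min' hJ'ne with hj₀
  have hj₀J' : j₀ ∈ J' := Finset.min'_mem _ _
  have hcardJ' : S.card ≤ 2 * (Fintype.card ι * m * (2 * (3 * L')) ^ n) * J'.card := by
    calc S.card ≤ 2 * Jt.card := hJtc
      _ ≤ 2 * (Fintype.card ι * m * J.card) := Nat.mul_le_mul_left _ hJ1c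
      _ ≤ 2 * (Fintype.card ι * m * ((2 * (3 * L')) ^ n * J'.card)) := by gcongr
      _ = _ := by ring
  have hJ'2 : 2 ≤ J'.card := by
    by_contra hlt
    have h1 : J'.card ≤ 1 := by omega
    have h2 : 2 * (Fintype.card ι * m * (2 * (3 * L')) ^ n) * J'.card
        ≤ 2 * (Fintype.card ι * m * (2 * (3 * L')) ^ n) * 1 := Nat.mul_le_mul_left _ h1
    omega
  have hBc : J'.card ≤ 2 * (J'.erase j₀).card := by
    rw [Finset.card_erase_of_mem hj₀J']; omega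
  have hJ'S : J' ⊆ S := hJ'J.trans (hJJt.trans hJt)
  have hj'A := hst.hP hj'P
  have gμj' := E.hg μ j' hj'A
  have g1j' := E.hg a₁ j' hj'A
  have hKj' := hst.Kpos j' hj'P
  set Θ : ℝ := K j' * g a₁ j' / g μ j' with hΘ
  have hΘpos : 0 < Θ := by positivity
  have hΘ' : K j' * g a₁ j' = Θ * g μ j' := by
    rw [hΘ, div_mul_cancel₀ _ gμj'.ne']
  refine ⟨yf j₀, J'.erase j₀, (Finset.erase_subset _ _).trans (hJ'S.trans hst.hS), ?_, μ, ?_, Θ,
    hΘpos, ?_⟩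
  · calc A.card ≤ F ^ t * S.card := hst.cardS
      _ ≤ F ^ t * (2 * (Fintype.card ι * m * (2 * (3 * L')) ^ n) * J'.card) := by gcongr
      _ ≤ F ^ t * (2 * (Fintype.card ι * m * (2 * (3 * L')) ^ n) * (2 * (J'.erase j₀).card)) := by
          gcongr
      _ = F ^ t * (4 * (Fintype.card ι * m * (2 * (3 * L')) ^ n)) * (J'.erase j₀).card := by ring
      _ ≤ L * (J'.erase j₀).card := Nat.mul_le_mul_right _ hs3
  · intro hμT
    have h1 := E.hmin μ hμT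
    have h2 := (hfJ j₀ (hJ'J hj₀J')).1
    linarith
  · intro j hj
    have hjJ' := Finset.mem_of_mem_erase hj
    have hjne := Finset.ne_of_mem_erase hj
    have hlt : j₀ < j := lt_of_le_of_ne (Finset.min'_le _ _ hjJ') (Ne.symm hjne)
    have hjA := hst.hS (hJ'S hjJ')
    have hj₀A := hst.hS (hJ'S hj₀J')
    obtain ⟨hk, hb1, hb2⟩ := hfJ j (hJ'J hjJ')
    obtain ⟨-, hc1, hc2⟩ := hfJ j₀ (hJ'J hj₀J')
    obtain ⟨hv, hBj, -, hKj, htj⟩ := hdat j (hJJt (hJ'J hjJ'))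
    obtain ⟨hv0, hBj0, -, hKj0, htj0⟩ := hdat j₀ (hJJt (hJ'J hj₀J'))
    have gμj := E.hg μ j hjA
    have g1j := E.hg a₁ j hjA
    have gμj0 := E.hg μ j₀ hj₀A
    have g1j0 := E.hg a₁ j₀ hj₀A
    -- rewrite the collisions with `Θ`
    have d1 : Θ * g μ j ≤ R' * (Kf j * g a₁ j) := by
      have h1 : (Θ * g μ j) * g μ j' ≤ (R' * (Kf j * g a₁ j)) * g μ j' := by
        calc (Θ * g μ j) * g μ j' = K j' * g a₁ j' * g μ j := by rw [hΘ']; ring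
          _ ≤ R' * (Kf j * g a₁ j * g μ j') := hb1.le
          _ = _ := by ring
      exact le_of_mul_le_mul_right h1 gμj'
    have d2 : Kf j * g a₁ j ≤ R' * (Θ * g μ j) := by
      have h1 : (Kf j * g a₁ j) * g μ j' ≤ (R' * (Θ * g μ j)) * g μ j' := by
        calc (Kf j * g a₁ j) * g μ j' ≤ R' * (K j' * g a₁ j' * g μ j) := hb2.le
          _ = _ := by rw [hΘ']; ring
      exact le_of_mul_le_mul_right h1 gμj'
    have d3 : Kf j₀ * g a₁ j₀ ≤ R' * (Θ * g μ j₀) := by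
      have h1 : (Kf j₀ * g a₁ j₀) * g μ j' ≤ (R' * (Θ * g μ j₀)) * g μ j' := by
        calc (Kf j₀ * g a₁ j₀) * g μ j' ≤ R' * (K j' * g a₁ j' * g μ j₀) := hc2.le
          _ = _ := by rw [hΘ']; ring
      exact le_of_mul_le_mul_right h1 gμj'
    -- the constants grow
    have hgrow : 2 * C₁ ^ 2 * Kf j₀ ≤ Kf j := by
      have hm := E.hM μ a₁ hk j₀ hj₀A j hjA hlt
      -- g a₁ j * g μ j₀ ≤ ε * (g a₁ j₀ * g μ j)
      have h1 : Kf j₀ * (g a₁ j₀ * (g a₁ j * g μ j)) * (2 * C₁ ^ 2)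
          ≤ Kf j * (g a₁ j₀ * (g a₁ j * g μ j)) := by
        calc Kf j₀ * (g a₁ j₀ * (g a₁ j * g μ j)) * (2 * C₁ ^ 2)
            = (Kf j₀ * g a₁ j₀) * (g a₁ j * g μ j) * (2 * C₁ ^ 2) := by ring
          _ ≤ (R' * (Θ * g μ j₀)) * (g a₁ j * g μ j) * (2 * C₁ ^ 2) := by gcongr
          _ = R' * (Θ * g μ j) * (g a₁ j * g μ j₀) * (2 * C₁ ^ 2) := by ring
          _ ≤ R' * (Θ * g μ j) * (ε * (g a₁ j₀ * g μ j)) * (2 * C₁ ^ 2) := by gcongr
          _ ≤ R' * (R' * (Kf j * g a₁ j)) * (ε * (g a₁ j₀ * g μ j)) * (2 * C₁ ^ 2) := by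
              have := E.hε
              gcongr
          _ = (ε * (2 * C₁ ^ 2 * R' ^ 2)) * (Kf j * (g a₁ j₀ * (g a₁ j * g μ j))) := by ring
          _ ≤ 1 * (Kf j * (g a₁ j₀ * (g a₁ j * g μ j))) := by gcongr
          _ = _ := one_mul _
      have h2 : 0 < g a₁ j₀ * (g a₁ j * g μ j) := by positivity
      have h3 : (2 * C₁ ^ 2 * Kf j₀) * (g a₁ j₀ * (g a₁ j * g μ j))
          ≤ Kf j * (g a₁ j₀ * (g a₁ j * g μ j)) := by
        calc _ = Kf j₀ * (g a₁ j₀ * (g a₁ j * g μ j)) * (2 * C₁ ^ 2) := by ring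
          _ ≤ _ := h1
      exact le_of_mul_le_mul_right h3 h2
    have hQA : Q ⊆ A := hQS.trans hst.hS
    have h := E.dom_diff u₀ (yf j) (yf j₀) hQA hQn.ge hKj (htj.subset (hQB j hjJ')) (by
      intro i hi
      have gi := E.hg a₁ i (hQA hi)
      have h1 := (htj0 i (hQB j₀ hj₀J' hi)).2
      calc 2 * C₁ * |comb u₀ u T (yf j₀) i| ≤ 2 * C₁ * (C₁ * (Kf j₀ * g a₁ i)) := by gcongr
        _ = (2 * C₁ ^ 2 * Kf j₀) * g a₁ i := by ring
        _ ≤ Kf j * g a₁ i := mul_le_mul_of_nonneg_right hgrow gi.le) hjA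
      (fun i hi => (mem_below.1 (hBj (hQB j hjJ' hi))).2)
    rw [hv, zero_sub, abs_neg] at h
    constructor
    · calc Θ * g μ j ≤ R' * (Kf j * g a₁ j) := d1
        _ ≤ R' * (C₂ * |comb u₀ u T (yf j₀) j|) := mul_le_mul_of_nonneg_left h.1 hR'0.le
        _ = _ := by ring
    · calc |comb u₀ u T (yf j₀) j| ≤ C₂ * (Kf j * g a₁ j) := h.2
        _ ≤ C₂ * (R' * (Θ * g μ j)) := mul_le_mul_of_nonneg_left d2 hC2.le
        _ = _ := by ring

/-- bookkeeping of the sizes -/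
theorem size_bound (c' N I Q : ℕ) : ∃ c : ℕ, ∀ m : ℕ, 1 ≤ m →
    (3 * 2 ^ (c' * m ^ c') * N) ^ m * (4 * (I * m * (2 * (3 * 2 ^ (c' * m ^ c'))) ^ Q) +
      2 * (3 * 2 ^ (c' * m ^ c')) * Q + 1) ≤ 2 ^ (c * m ^ c) := by
  refine ⟨(2 + N + c') + (3 + I + 3 * Q + c' * Q) + (5 + c' + Q), fun m hm => ?_⟩
  set c := (2 + N + c') + (3 + I + 3 * Q + c' * Q) + (5 + c' + Q) with hc
  set e := c' * m ^ c' with he
  have h2 : ∀ x : ℕ, x ≤ 2 ^ x := fun x => Nat.lt_two_pow_self.le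
  have a1 : (3 * 2 ^ e * N) ^ m ≤ 2 ^ ((2 + e + N) * m) := by
    have a0 : 3 * 2 ^ e * N ≤ 2 ^ (2 + e + N) := by
      calc 3 * 2 ^ e * N ≤ 2 ^ 2 * 2 ^ e * 2 ^ N := by
            gcongr
            · norm_num
            · exact h2 N
        _ = _ := by rw [pow_add, pow_add]
    calc (3 * 2 ^ e * N) ^ m ≤ (2 ^ (2 + e + N)) ^ m := Nat.pow_le_pow_left a0 m
      _ = _ := (pow_mul _ _ _).symm
  have a2 : 4 * (I * m * (2 * (3 * 2 ^ e)) ^ Q) ≤ 2 ^ (2 + I + m + (3 + e) * Q) := by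
    calc 4 * (I * m * (2 * (3 * 2 ^ e)) ^ Q) ≤ 2 ^ 2 * (2 ^ I * 2 ^ m * (2 ^ (3 + e)) ^ Q) := by
          gcongr
          · norm_num
          · exact h2 I
          · exact h2 m
          · rw [pow_add]
            have : 0 < 2 ^ e := by positivity
            omega
      _ = _ := by rw [← pow_mul]; ring
  have a3 : 2 * (3 * 2 ^ e) * Q ≤ 2 ^ (3 + e + Q) := by
    calc 2 * (3 * 2 ^ e) * Q ≤ (2 ^ (3 + e)) * 2 ^ Q := by
          gcongr
          · rw [pow_add]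
            have : 0 < 2 ^ e := by positivity
            omega
          · exact h2 Q
      _ = _ := by rw [← pow_add]
  have a4 : 4 * (I * m * (2 * (3 * 2 ^ e)) ^ Q) + 2 * (3 * 2 ^ e) * Q + 1
      ≤ 2 ^ ((2 + I + m + (3 + e) * Q) + (3 + e + Q) + 2) := by
    have b1 : 2 ^ (2 + I + m + (3 + e) * Q) ≤ 2 ^ ((2 + I + m + (3 + e) * Q) + (3 + e + Q)) :=
      Nat.pow_le_pow_right (by norm_num) (by omega)
    have b2 : 2 ^ (3 + e + Q) ≤ 2 ^ ((2 + I + m + (3 + e) * Q) + (3 + e + Q)) :=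
      Nat.pow_le_pow_right (by norm_num) (by omega)
    have b3 : 1 ≤ 2 ^ ((2 + I + m + (3 + e) * Q) + (3 + e + Q)) := Nat.one_le_two_pow
    rw [pow_add _ _ 2]
    omega
  have hM : ∀ k ≤ c' + 1, m ^ k ≤ m ^ (c' + 1) := fun k hk => Nat.pow_le_pow_right hm hk
  have hm1 : m ≤ m ^ (c' + 1) := by simpa using hM 1 (by omega)
  have h1m : 1 ≤ m ^ (c' + 1) := by simpa using hM 0 (by omega)
  have hem : e * m = c' * m ^ (c' + 1) := by rw [he, pow_succ]; ring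
  have he1 : e ≤ c' * m ^ (c' + 1) := by rw [he]; exact Nat.mul_le_mul_left _ (hM c' (by omega))
  have heQ : e * Q ≤ c' * Q * m ^ (c' + 1) := by
    calc e * Q ≤ c' * m ^ (c' + 1) * Q := Nat.mul_le_mul_right _ he1
      _ = _ := by ring
  have hfin : (2 + e + N) * m + ((2 + I + m + (3 + e) * Q) + (3 + e + Q) + 2)
      ≤ c * m ^ (c' + 1) := by
    set Z := m ^ (c' + 1) with hZ
    have t1 : (2 + e + N) * m ≤ (2 + N + c') * Z := by
      calc (2 + e + N) * m = (2 + N) * m + e * m := by ring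
        _ ≤ (2 + N) * Z + c' * Z := by rw [hem]; gcongr
        _ = _ := by ring
    have t2 : 2 + I + m + (3 + e) * Q ≤ (3 + I + 3 * Q + c' * Q) * Z := by
      calc 2 + I + m + (3 + e) * Q = (2 + I + 3 * Q) * 1 + m + e * Q := by ring
        _ ≤ (2 + I + 3 * Q) * Z + Z + c' * Q * Z := by gcongr
        _ = _ := by ring
    have t3 : (3 + e + Q) + 2 ≤ (5 + c' + Q) * Z := by
      calc (3 + e + Q) + 2 = (5 + Q) * 1 + e := by ring
        _ ≤ (5 + Q) * Z + c' * Z := by gcongr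
        _ = _ := by ring
    calc (2 + e + N) * m + ((2 + I + m + (3 + e) * Q) + (3 + e + Q) + 2)
        = (2 + e + N) * m + (2 + I + m + (3 + e) * Q) + ((3 + e + Q) + 2) := by ring
      _ ≤ (2 + N + c') * Z + (3 + I + 3 * Q + c' * Q) * Z + (5 + c' + Q) * Z := by
          gcongr
      _ = c * Z := by rw [hc]; ring
  calc _ ≤ 2 ^ ((2 + e + N) * m) * 2 ^ ((2 + I + m + (3 + e) * Q) + (3 + e + Q) + 2) :=
        Nat.mul_le_mul a1 a4
    _ = 2 ^ ((2 + e + N) * m + ((2 + I + m + (3 + e) * Q) + (3 + e + Q) + 2)) := by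
        rw [← pow_add]
    _ ≤ 2 ^ (c * m ^ (c' + 1)) := Nat.pow_le_pow_right (by norm_num) hfin
    _ ≤ 2 ^ (c * m ^ c) := by
        apply Nat.pow_le_pow_right (by norm_num)
        apply Nat.mul_le_mul_left
        apply Nat.pow_le_pow_right hm
        omega

end Pool.Agent.LibSAR
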