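import Pool.Agent.LibSAR.Comb

/-!
# The key lemma
-/

namespace Pool.Agent.LibSAR

/-- `u₀` plus the combination of the functions `u a`, `a ∈ T`, with coefficients `x` -/
def comb {ι : Type} (u₀ : ℕ → ℝ) (u : ι → ℕ → ℝ) (T : Finset ι) (x : ι → ℝ) (i : ℕ) : ℝ :=
  u₀ i + ∑ a ∈ T, x a * u a i

/-- outcome of the key lemma: a function `w` which is either zero or tied to a new exponent on a
large part of `A`, or separated from all the exponents on a set of size `m` -/
def Out {ι : Type} (R CT : ℝ) (L m : ℕ) (A : Finset ℕ) (g : ι → ℕ → ℝ) (T : Finset ι)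
    (w : ℕ → ℝ) (B : Finset ℕ) : Prop :=
  (A.card ≤ L * B.card ∧ ((∀ i ∈ B, w i = 0) ∨ ∃ μ, μ ∉ T ∧ ∃ K : ℝ, 0 < K ∧ Tie CT K (g μ) w B)) ∨
  (m ≤ B.card ∧ (∀ i ∈ B, w i ≠ 0) ∧ Sep R g w B)

/-- the statement of the key lemma for `q` settled functions -/
def KL (ι : Type) [Fintype ι] [DecidableEq ι] (R : ℝ) (q : ℕ) : Prop :=
  ∀ C₀ : ℝ, 1 ≤ C₀ → ∃ ε : ℝ, 0 < ε ∧ ∃ CT : ℝ, 1 ≤ CT ∧ ∃ c : ℕ, ∀ m : ℕ, 1 ≤ m →
    ∀ (A : Finset ℕ) (key : ι → ℝ) (g : ι → ℕ → ℝ), Function.Injective key →
      (∀ a, ∀ i ∈ A, 0 < g a i) → Mono ε key g A → 2 ^ (c * m ^ c) ≤ A.card →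
    ∀ (T : Finset ι), T.card = q → ∀ (u : ι → ℕ → ℝ) (κ : ι → ℝ),
      (∀ a ∈ T, 0 < κ a ∧ Tie C₀ (κ a) (g a) (u a) A) → ∀ u₀ : ℕ → ℝ,
      ∃ x : ι → ℝ, ∃ B ⊆ A, Out R CT (2 ^ (c * m ^ c)) m A g T (comb u₀ u T x) B

/-- the case of no settled functions -/
theorem kl_zero_aux (ι : Type) [Fintype ι] [DecidableEq ι] (R : ℝ) (hR : 1 < R) (m : ℕ)
    (hm : 1 ≤ m) (A : Finset ℕ) (hA : 2 * m ≤ A.card) (g : ι → ℕ → ℝ)
    (hg : ∀ a, ∀ i ∈ A, 0 < g a i) (w : ℕ → ℝ) :
    ∃ B ⊆ A, Out R R (2 * (Fintype.card ι + 1) * m) m A g ∅ w B := by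
  classical
  set A' := A.filter fun i : ℕ => w i ≠ 0 with hA'
  have hsplit : A'.card + (A.filter fun i : ℕ => ¬ w i ≠ 0).card = A.card :=
    Finset.card_filter_add_card_filter_not (s := A) (fun i : ℕ => w i ≠ 0)
  by_cases h2 : A.card ≤ 2 * (A.filter fun i : ℕ => ¬ w i ≠ 0).card
  · refine ⟨A.filter fun i : ℕ => ¬ w i ≠ 0, Finset.filter_subset _ _, Or.inl ⟨?_, Or.inl ?_⟩⟩
    · refine h2.trans (Nat.mul_le_mul_right _ ?_)
      have : 1 ≤ (Fintype.card ι + 1) * m := Nat.mul_pos (Nat.succ_pos _) hm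
      calc 2 = 2 * 1 := rfl
        _ ≤ 2 * ((Fintype.card ι + 1) * m) := Nat.mul_le_mul_left _ this
        _ = _ := by ring
    · intro i hi
      rw [Finset.mem_filter] at hi
      simpa using hi.2
  · have hA'card : A.card < 2 * A'.card := by omega
    have hA'm : m ≤ A'.card := by omega
    -- a separated set of maximal size
    obtain ⟨B, hB, hmax⟩ := Finset.exists_max_image (A'.powerset.filter fun B => Sep R g w B)
      (fun B => B.card) ⟨∅, by
        rw [Finset.mem_filter, Finset.mem_powerset]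
        exact ⟨Finset.empty_subset _, fun μ i hi => absurd hi (Finset.notMem_empty i)⟩⟩
    rw [Finset.mem_filter, Finset.mem_powerset] at hB
    by_cases hBm : m ≤ B.card
    · refine ⟨B, hB.1.trans (Finset.filter_subset _ _), Or.inr ⟨hBm, ?_, hB.2⟩⟩
      intro i hi
      exact (Finset.mem_filter.1 (hB.1 hi)).2
    · -- every element of `A'` is close to an element of `B`
      have hclose : ∀ i ∈ A', ∃ p : ι × ℕ, p.2 ∈ B ∧
          |w p.2| * g p.1 i ≤ R * (|w i| * g p.1 p.2) ∧
          |w i| * g p.1 p.2 ≤ R * (|w p.2| * g p.1 i) := by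
        intro i hi
        by_contra hcon
        push Not at hcon
        have hiA := (Finset.mem_filter.1 hi).1
        have hsepi : ∀ μ : ι, ∀ j ∈ B, j ≠ i →
            R * (|w i| * g μ j) ≤ |w j| * g μ i ∨ R * (|w j| * g μ i) ≤ |w i| * g μ j := by
          intro μ j hj hji
          by_cases h1 : |w j| * g μ i ≤ R * (|w i| * g μ j)
          · right; exact (hcon (μ, j) hj h1).le
          · left; exact (not_le.1 h1).le
        have hins : Sep R g w (insert i B) := by
          intro μ a ha b hb hab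
          rcases Finset.mem_insert.1 ha with rfl | ha'
          · rcases Finset.mem_insert.1 hb with rfl | hb'
            · exact absurd rfl hab
            · exact hsepi μ b hb' (Ne.symm hab)
          · rcases Finset.mem_insert.1 hb with rfl | hb'
            · exact (hsepi μ a ha' hab).symm
            · exact hB.2 μ a ha' b hb' hab
        have hiB : i ∉ B := by
          intro hiB
          have hcard : 0 < Fintype.card ι ∨ Fintype.card ι = 0 := by omega
          rcases hcard with h | h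
          · obtain ⟨μ⟩ := Fintype.card_pos_iff.1 h
            have hgi := hg μ i hiA
            have hwi : 0 < |w i| := abs_pos.2 (Finset.mem_filter.1 hi).2
            have h1 : |w i| * g μ i ≤ R * (|w i| * g μ i) := by
              have := mul_pos hwi hgi
              nlinarith
            have := hcon (μ, i) hiB h1
            simp only at this
            linarith
          · -- no exponents: the maximal set is everything
            have hall : Sep R g w A' := fun μ => (Fintype.card_eq_zero_iff.1 h).elim μ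
            have h3 := hmax A' (by
              rw [Finset.mem_filter, Finset.mem_powerset]
              exact ⟨Finset.Subset.refl _, hall⟩)
            omega
        have h3 := hmax (insert i B) (by
          rw [Finset.mem_filter, Finset.mem_powerset]
          exact ⟨Finset.insert_subset hi hB.1, hins⟩)
        rw [Finset.card_insert_of_notMem hiB] at h3
        omega
      have hchoice : ∀ i, ∃ p : ι × ℕ, i ∈ A' → (p.2 ∈ B ∧
          |w p.2| * g p.1 i ≤ R * (|w i| * g p.1 p.2) ∧
          |w i| * g p.1 p.2 ≤ R * (|w p.2| * g p.1 i)) := by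
        intro i
        by_cases hi : i ∈ A'
        · obtain ⟨p, hp⟩ := hclose i hi
          exact ⟨p, fun _ => hp⟩
        · have hne : A'.Nonempty := Finset.card_pos.1 (by omega)
          obtain ⟨i', hi'⟩ := hne
          obtain ⟨p, hp⟩ := hclose i' hi'
          exact ⟨p, fun h => absurd h hi⟩
      choose f hf using hchoice
      obtain ⟨y, hy, hne, hc⟩ := pigeon A' (Finset.card_pos.1 (by omega))
        (Finset.univ ×ˢ B) f (fun i hi => Finset.mem_product.2 ⟨Finset.mem_univ _, (hf i hi).1⟩)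
        (Fintype.card ι * m) (by
          rw [Finset.card_product, Finset.card_univ]
          exact Nat.mul_le_mul_left _ (by omega))
      have hyB : y.2 ∈ B := (Finset.mem_product.1 hy).2
      have hyA' := hB.1 hyB
      have hyA := (Finset.mem_filter.1 hyA').1
      have hgy := hg y.1 y.2 hyA
      have hwy : 0 < |w y.2| := abs_pos.2 (Finset.mem_filter.1 hyA').2
      refine ⟨A'.filter fun i => f i = y, (Finset.filter_subset _ _).trans
        (Finset.filter_subset _ _), Or.inl ⟨?_, Or.inr ⟨y.1, Finset.notMem_empty _,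
          |w y.2| / g y.1 y.2, div_pos hwy hgy, ?_⟩⟩⟩
      · calc A.card ≤ 2 * A'.card := hA'card.le
          _ ≤ 2 * (Fintype.card ι * m * (A'.filter fun i => f i = y).card) :=
              Nat.mul_le_mul_left _ hc
          _ ≤ 2 * ((Fintype.card ι + 1) * m * (A'.filter fun i => f i = y).card) := by
              apply Nat.mul_le_mul_left
              apply Nat.mul_le_mul_right
              apply Nat.mul_le_mul_right
              omega
          _ = _ := by ring
      · intro i hi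
        rw [Finset.mem_filter] at hi
        have hfi := hf i hi.1
        rw [hi.2] at hfi
        obtain ⟨-, h1, h2⟩ := hfi
        constructor
        · rw [div_mul_eq_mul_div, div_le_iff₀ hgy]
          linarith
        · have e : R * (|w y.2| / g y.1 y.2 * g y.1 i) = R * (|w y.2| * g y.1 i) / g y.1 y.2 := by
            ring
          rw [e, le_div_iff₀ hgy]
          exact h2

/-- removing the slowest function makes the others vanish at `j` -/
theorem pert_tie {ι : Type} {C₀ ε : ℝ} (hC : 1 ≤ C₀) {A : Finset ℕ} {key : ι → ℝ}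
    {g : ι → ℕ → ℝ} (hg : ∀ a, ∀ i ∈ A, 0 < g a i) (hM : Mono ε key g A) {u : ι → ℕ → ℝ}
    {κ : ι → ℝ} {a₁ a : ι} (ha₁ : 0 < κ a₁ ∧ Tie C₀ (κ a₁) (g a₁) (u a₁) A)
    (ha : 0 < κ a ∧ Tie C₀ (κ a) (g a) (u a) A) (hε : 0 ≤ ε) (hε2 : C₀ ^ 4 * ε ≤ 1 / 2)
    (hk : key a₁ < key a) {S : Finset ℕ} (hS : S ⊆ A) {j : ℕ} (hj : j ∈ S) :
    Tie (2 * C₀) (κ a) (g a) (fun i => u a i - u a j / u a₁ j * u a₁ i) (below S j) := by
  intro i hi
  rw [mem_below] at hi
  have hd := ratio_drop hC hg hM ha₁ ha hε hk (hS hi.1) (hS hj) hi.2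
  have hta := ha.2 i (hS hi.1)
  have hu1 : 0 < |u a₁ j| := by
    have h1 := (ha₁.2 j (hS hj)).1
    have h2 := mul_pos ha₁.1 (hg a₁ j (hS hj))
    by_contra h0
    push Not at h0
    have h3 : C₀ * |u a₁ j| ≤ 0 := mul_nonpos_of_nonneg_of_nonpos (by linarith) h0
    linarith
  have e1 : |u a j / u a₁ j * u a₁ i| ≤ 1 / 2 * |u a i| := by
    rw [abs_mul, abs_div, div_mul_eq_mul_div, div_le_iff₀ hu1]
    calc |u a j| * |u a₁ i| ≤ C₀ ^ 4 * ε * (|u a i| * |u a₁ j|) := hd
      _ ≤ 1 / 2 * (|u a i| * |u a₁ j|) := by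
          apply mul_le_mul_of_nonneg_right hε2; positivity
      _ = _ := by ring
  have e2 : |u a i| ≤ |u a i - u a j / u a₁ j * u a₁ i| + |u a j / u a₁ j * u a₁ i| := by
    have := abs_add_le (u a i - u a j / u a₁ j * u a₁ i) (u a j / u a₁ j * u a₁ i)
    simpa using this
  have e3 : |u a i - u a j / u a₁ j * u a₁ i| ≤ |u a i| + |u a j / u a₁ j * u a₁ i| :=
    abs_sub _ _
  have hC0 : 0 < C₀ := by linarith
  have hκg := mul_pos ha.1 (hg a i (hS hi.1))
  constructor
  · calc κ a * g a i ≤ C₀ * |u a i| := hta.1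
      _ ≤ C₀ * (2 * |u a i - u a j / u a₁ j * u a₁ i|) := by
          apply mul_le_mul_of_nonneg_left _ hC0.le; linarith
      _ = _ := by ring
  · have h4 := hta.2
    simp only
    nlinarith [mul_pos hC0 hκg]

theorem comb_sub {ι : Type} (u₀ : ℕ → ℝ) (u : ι → ℕ → ℝ) (T : Finset ι) (x y : ι → ℝ) (i : ℕ) :
    comb u₀ u T x i - comb u₀ u T y i = ∑ a ∈ T, (x a - y a) * u a i := by
  unfold comb
  simp only [sub_mul, Finset.sum_sub_distrib]
  ring

theorem comb_add_one {ι : Type} [DecidableEq ι] (u₀ : ℕ → ℝ) (u : ι → ℕ → ℝ) (T : Finset ι)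
    (x : ι → ℝ) (a₁ : ι) (ha₁ : a₁ ∈ T) (t : ℝ) (i : ℕ) :
    comb u₀ u T (fun a => if a = a₁ then x a + t else x a) i = comb u₀ u T x i + t * u a₁ i := by
  unfold comb
  rw [← Finset.add_sum_erase T _ ha₁, ← Finset.add_sum_erase T (fun a => x a * u a i) ha₁]
  have e : ∑ a ∈ T.erase a₁, (if a = a₁ then x a + t else x a) * u a i
      = ∑ a ∈ T.erase a₁, x a * u a i := by
    apply Finset.sum_congr rfl
    intro a ha
    rw [if_neg (Finset.ne_of_mem_erase ha)]
  rw [e]
  simp only [if_true]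
  ring

end Pool.Agent.LibSAR
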