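import Pool.Agent.LibSAR.KeyLemma

/-!
# The key lemma: the induction step
-/

namespace Pool.Agent.LibSAR

/-- the setting of the induction step -/
structure Env {ι : Type} (C₀ C₁ C₂ ε : ℝ) (n : ℕ) (A : Finset ℕ) (key : ι → ℝ)
    (g : ι → ℕ → ℝ) (T : Finset ι) (u : ι → ℕ → ℝ) (κ : ι → ℝ) (a₁ : ι) : Prop where
  hC₀ : 1 ≤ C₀
  hC₁ : 1 ≤ C₁
  hC₂ : 1 ≤ C₂
  hε : 0 < ε
  hinj : Function.Injective key
  hg : ∀ a, ∀ i ∈ A, 0 < g a i
  hM : Mono ε key g A
  hu : ∀ a ∈ T, 0 < κ a ∧ Tie C₀ (κ a) (g a) (u a) A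
  ha₁ : a₁ ∈ T
  hmin : ∀ a ∈ T, key a₁ ≤ key a
  dom : ∀ (x : ι → ℝ) (Q : Finset ℕ), Q ⊆ A → n ≤ Q.card → ∀ K : ℝ, 0 < K →
    Tie (2 * C₁) K (g a₁) (fun i => ∑ a ∈ T, x a * u a i) Q →
    ∀ j ∈ A, (∀ i ∈ Q, i < j) →
      K * g a₁ j ≤ C₂ * |∑ a ∈ T, x a * u a j| ∧ |∑ a ∈ T, x a * u a j| ≤ C₂ * (K * g a₁ j)

variable {ι : Type} {C₀ C₁ C₂ ε : ℝ} {n : ℕ} {A : Finset ℕ} {key : ι → ℝ}
    {g : ι → ℕ → ℝ} {T : Finset ι} {u : ι → ℕ → ℝ} {κ : ι → ℝ} {a₁ : ι}

/-- domination for the difference of a function tied to the slowest exponent and a smaller one -/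
theorem Env.dom_diff (E : Env C₀ C₁ C₂ ε n A key g T u κ a₁) (u₀ : ℕ → ℝ) (x y : ι → ℝ)
    {Q : Finset ℕ} (hQ : Q ⊆ A) (hn : n ≤ Q.card) {K : ℝ} (hK : 0 < K)
    (ht : Tie C₁ K (g a₁) (comb u₀ u T x) Q)
    (hs : ∀ i ∈ Q, 2 * C₁ * |comb u₀ u T y i| ≤ K * g a₁ i) {j : ℕ} (hj : j ∈ A)
    (hjQ : ∀ i ∈ Q, i < j) :
    K * g a₁ j ≤ C₂ * |comb u₀ u T x j - comb u₀ u T y j| ∧
      |comb u₀ u T x j - comb u₀ u T y j| ≤ C₂ * (K * g a₁ j) := by
  have hC := E.hC₁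
  have h1 : Tie (2 * C₁) K (g a₁) (fun i => ∑ a ∈ T, (x a - y a) * u a i) Q := by
    intro i hi
    have hp := mul_pos hK (E.hg a₁ i (hQ hi))
    obtain ⟨t1, t2⟩ := ht i hi
    have t3 := hs i hi
    have e : ∑ a ∈ T, (x a - y a) * u a i = comb u₀ u T x i - comb u₀ u T y i :=
      (comb_sub u₀ u T x y i).symm
    simp only
    rw [e]
    have a1 : |comb u₀ u T x i| ≤ |comb u₀ u T x i - comb u₀ u T y i| + |comb u₀ u T y i| := by
      have := abs_add_le (comb u₀ u T x i - comb u₀ u T y i) (comb u₀ u T y i)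
      simpa using this
    have a2 : |comb u₀ u T x i - comb u₀ u T y i| ≤ |comb u₀ u T x i| + |comb u₀ u T y i| :=
      abs_sub _ _
    have hC0 : 0 < C₁ := by linarith
    have a3 : 0 ≤ |comb u₀ u T y i| := abs_nonneg _
    constructor
    · have : C₁ * |comb u₀ u T x i| ≤
          C₁ * (|comb u₀ u T x i - comb u₀ u T y i| + |comb u₀ u T y i|) :=
        mul_le_mul_of_nonneg_left a1 hC0.le
      nlinarith
    · have a4 : |comb u₀ u T y i| ≤ K * g a₁ i := by nlinarith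
      nlinarith
  have h2 := E.dom _ Q hQ hn K hK h1 j hj hjQ
  have e : ∑ a ∈ T, (x a - y a) * u a j = comb u₀ u T x j - comb u₀ u T y j :=
    (comb_sub u₀ u T x y j).symm
  rw [e] at h2
  exact h2

/-- the states of the construction -/
structure St (R' C₁ δ : ℝ) (F t : ℕ) (A : Finset ℕ) (g : ι → ℕ → ℝ) (T : Finset ι)
    (u₀ : ℕ → ℝ) (u : ι → ℕ → ℝ) (a₁ : ι) (S : Finset ℕ) (x : ι → ℝ) (P : Finset ℕ)
    (X : ℕ → ι → ℝ) (K : ℕ → ℝ) : Prop where
  hS : S ⊆ A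
  hP : P ⊆ A
  cardP : P.card = t
  cardS : A.card ≤ F ^ t * S.card
  Kpos : ∀ j ∈ P, 0 < K j
  above : ∀ j ∈ P, ∀ i ∈ S, i < j
  van : ∀ j ∈ P, comb u₀ u T (X j) j = 0
  tie : ∀ j ∈ P, Tie C₁ (K j) (g a₁) (comb u₀ u T (X j)) S
  small : ∀ j ∈ P, ∀ i ∈ S, |comb u₀ u T x i| ≤ δ * (K j * g a₁ i)
  sep : ∀ μ, ∀ j ∈ P, ∀ j' ∈ P, j ≠ j' →
    R' * (K j * g a₁ j * g μ j') ≤ K j' * g a₁ j' * g μ j ∨
    R' * (K j' * g a₁ j' * g μ j) ≤ K j * g a₁ j * g μ j'

/-- a state of level `m` yields a separated function -/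
theorem Env.finish (E : Env C₀ C₁ C₂ ε n A key g T u κ a₁) {R δ : ℝ} (hR : 0 < R) {F m : ℕ}
    {u₀ : ℕ → ℝ} {S : Finset ℕ} {x : ι → ℝ} {P : Finset ℕ} {X : ℕ → ι → ℝ} {K : ℕ → ℝ}
    (hst : St (R * C₂ ^ 2) C₁ δ F m A g T u₀ u a₁ S x P X K) (hδ : 2 * C₁ * δ ≤ 1)
    (hn : n ≤ S.card) :
    (∀ j ∈ P, comb u₀ u T x j ≠ 0) ∧ Sep R g (comb u₀ u T x) P := by
  have hC2 : 0 < C₂ := by linarith [E.hC₂]
  have hC1 : 0 < C₁ := by linarith [E.hC₁]
  have key1 : ∀ j ∈ P, K j * g a₁ j ≤ C₂ * |comb u₀ u T x j| ∧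
      |comb u₀ u T x j| ≤ C₂ * (K j * g a₁ j) := by
    intro j hj
    have h := E.dom_diff u₀ (X j) x hst.hS hn (hst.Kpos j hj) (hst.tie j hj) (by
      intro i hi
      have h1 := hst.small j hj i hi
      have h2 := mul_pos (hst.Kpos j hj) (E.hg a₁ i (hst.hS hi))
      calc 2 * C₁ * |comb u₀ u T x i| ≤ 2 * C₁ * (δ * (K j * g a₁ i)) := by gcongr
        _ = (2 * C₁ * δ) * (K j * g a₁ i) := by ring
        _ ≤ 1 * (K j * g a₁ i) := mul_le_mul_of_nonneg_right hδ h2.le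
        _ = _ := one_mul _) (hst.hP hj) (hst.above j hj)
    rw [hst.van j hj, zero_sub, abs_neg] at h
    exact h
  refine ⟨fun j hj h0 => ?_, ?_⟩
  · have h1 := (key1 j hj).1
    have h2 := mul_pos (hst.Kpos j hj) (E.hg a₁ j (hst.hP hj))
    rw [h0, abs_zero, mul_zero] at h1
    linarith
  · have aux : ∀ μ, ∀ i ∈ P, ∀ j ∈ P,
        R * C₂ ^ 2 * (K i * g a₁ i * g μ j) ≤ K j * g a₁ j * g μ i →
        R * (|comb u₀ u T x i| * g μ j) ≤ |comb u₀ u T x j| * g μ i := by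
      intro μ i hi j hj h
      have gi := E.hg μ i (hst.hP hi)
      have gj := E.hg μ j (hst.hP hj)
      have h1 : C₂ * (R * (|comb u₀ u T x i| * g μ j)) ≤ C₂ * (|comb u₀ u T x j| * g μ i) := by
        calc C₂ * (R * (|comb u₀ u T x i| * g μ j))
            ≤ C₂ * (R * ((C₂ * (K i * g a₁ i)) * g μ j)) := by
              gcongr; exact (key1 i hi).2
          _ = R * C₂ ^ 2 * (K i * g a₁ i * g μ j) := by ring
          _ ≤ K j * g a₁ j * g μ i := h
          _ ≤ C₂ * |comb u₀ u T x j| * g μ i :=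
              mul_le_mul_of_nonneg_right (key1 j hj).1 gi.le
          _ = _ := by ring
      exact le_of_mul_le_mul_left h1 hC2
    intro μ i hi j hj hij
    rcases hst.sep μ i hi j hj hij with h | h
    · exact Or.inl (aux μ i hi j hj h)
    · exact Or.inr (aux μ j hj i hi h)

/-- claim (i): the constants decrease -/
theorem Env.claim_one [DecidableEq ι] (E : Env C₀ C₁ C₂ ε n A key g T u κ a₁) {R' δ : ℝ}
    (hδ : 0 < δ) {F t : ℕ}
    {u₀ : ℕ → ℝ} {S : Finset ℕ} {x : ι → ℝ} {P : Finset ℕ} {X : ℕ → ι → ℝ} {K : ℕ → ℝ}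
    (hst : St R' C₁ δ F t A g T u₀ u a₁ S x P X K) {j : ℕ} (hj : j ∈ S) {B : Finset ℕ}
    (hB : B ⊆ below S j) (hn : n ≤ B.card) {y : ι → ℝ} (hy : comb u₀ u T y j = 0) {Kj : ℝ}
    (hKj : 0 < Kj) (ht : Tie C₁ Kj (g a₁) (comb u₀ u T y) B) {j' : ℕ} (hj' : j' ∈ P) :
    Kj ≤ 2 * C₁ * (1 + C₀ ^ 2) * δ * K j' := by
  by_contra hcon
  push Not at hcon
  have hC0 : 0 < C₀ := by linarith [E.hC₀]
  have hC1 : 0 < C₁ := by linarith [E.hC₁]
  obtain ⟨hκ, htu⟩ := E.hu a₁ E.ha₁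
  have hjA := hst.hS hj
  have gj := E.hg a₁ j hjA
  have hu1 : 0 < |u a₁ j| := by
    have h1 := (htu j hjA).1
    have h2 := mul_pos hκ gj
    by_contra h0
    push Not at h0
    have h3 : C₀ * |u a₁ j| ≤ 0 := mul_nonpos_of_nonneg_of_nonpos hC0.le h0
    linarith
  have hu1' : u a₁ j ≠ 0 := abs_pos.1 hu1
  have hKj' := hst.Kpos j' hj'
  set s : ℝ := - (comb u₀ u T x j / u a₁ j) with hs
  have hval : ∀ i, comb u₀ u T (fun a => if a = a₁ then x a + s else x a) i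
      = comb u₀ u T x i + s * u a₁ i := fun i => comb_add_one u₀ u T x a₁ E.ha₁ s i
  have hBS : B ⊆ S := hB.trans (below_subset S j)
  have h := E.dom_diff u₀ y (fun a => if a = a₁ then x a + s else x a) (hBS.trans hst.hS) hn
    hKj ht (by
      intro i hi
      rw [hval i]
      have hiS := hBS hi
      have gi := E.hg a₁ i (hst.hS hiS)
      have h1 := hst.small j' hj' i hiS
      have h2 := hst.small j' hj' j hj
      have h3 : |s * u a₁ i| ≤ C₀ ^ 2 * (δ * (K j' * g a₁ i)) := by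
        rw [hs, neg_mul, abs_neg, abs_mul, abs_div, div_mul_eq_mul_div, div_le_iff₀ hu1]
        have h4 := (htu i (hst.hS hiS)).2
        have h5 := (htu j hjA).1
        calc |comb u₀ u T x j| * |u a₁ i| ≤ (δ * (K j' * g a₁ j)) * (C₀ * (κ a₁ * g a₁ i)) := by
              gcongr
          _ = δ * K j' * C₀ * g a₁ i * (κ a₁ * g a₁ j) := by ring
          _ ≤ δ * K j' * C₀ * g a₁ i * (C₀ * |u a₁ j|) := by gcongr
          _ = _ := by ring
      calc 2 * C₁ * |comb u₀ u T x i + s * u a₁ i|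
          ≤ 2 * C₁ * (|comb u₀ u T x i| + |s * u a₁ i|) := by
            gcongr; exact abs_add_le _ _
        _ ≤ 2 * C₁ * (δ * (K j' * g a₁ i) + C₀ ^ 2 * (δ * (K j' * g a₁ i))) := by gcongr
        _ = (2 * C₁ * (1 + C₀ ^ 2) * δ * K j') * g a₁ i := by ring
        _ ≤ Kj * g a₁ i := mul_le_mul_of_nonneg_right hcon.le gi.le) hjA
    (fun i hi => (mem_below.1 (hB hi)).2)
  have h0 : comb u₀ u T (fun a => if a = a₁ then x a + s else x a) j = 0 := by
    rw [hval j, hs, neg_mul, div_mul_cancel₀ _ hu1']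
    ring
  rw [hy, h0, sub_zero, abs_zero, mul_zero] at h
  have := mul_pos hKj gj
  linarith [h.1]

/-- application of the previous case of the key lemma below `j` -/
theorem Env.stepA [DecidableEq ι] (E : Env C₀ C₁ C₂ ε n A key g T u κ a₁)
    {R ε' : ℝ} {L' m q : ℕ} (hT : T.card = q + 1) (hε : C₀ ^ 4 * ε ≤ 1 / 2) (hεε : ε ≤ ε')
    (IH : ∀ (A : Finset ℕ) (key : ι → ℝ) (g : ι → ℕ → ℝ), Function.Injective key →
      (∀ a, ∀ i ∈ A, 0 < g a i) → Mono ε' key g A → L' ≤ A.card →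
      ∀ (T : Finset ι), T.card = q → ∀ (u : ι → ℕ → ℝ) (κ : ι → ℝ),
      (∀ a ∈ T, 0 < κ a ∧ Tie (2 * C₀) (κ a) (g a) (u a) A) → ∀ u₀ : ℕ → ℝ,
      ∃ x : ι → ℝ, ∃ B ⊆ A, Out R C₁ L' m A g T (comb u₀ u T x) B)
    (u₀ : ℕ → ℝ) (x : ι → ℝ) {S : Finset ℕ} (hS : S ⊆ A) {j : ℕ} (hj : j ∈ S)
    (hL : L' ≤ (below S j).card) :
    ∃ y : ι → ℝ, comb u₀ u T y j = 0 ∧ ∃ B ⊆ below S j,
      Out R C₁ L' m (below S j) g (T.erase a₁) (comb u₀ u T y) B := by
  have hC0 : 0 < C₀ := by linarith [E.hC₀]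
  have hbS : below S j ⊆ A := (below_subset S j).trans hS
  obtain ⟨hκ, htu⟩ := E.hu a₁ E.ha₁
  have hjA := hS hj
  have gj := E.hg a₁ j hjA
  have hu1 : u a₁ j ≠ 0 := by
    intro h0
    have h1 := (htu j hjA).1
    have h2 := mul_pos hκ gj
    rw [h0, abs_zero, mul_zero] at h1
    linarith
  obtain ⟨z, B, hB, hout⟩ := IH (below S j) key g E.hinj (fun a i hi => E.hg a i (hbS hi))
    ((E.hM.subset hbS).mono (fun a i hi => E.hg a i (hbS hi)) hεε) hL (T.erase a₁)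
    (by rw [Finset.card_erase_of_mem E.ha₁, hT]; rfl)
    (fun a i => u a i - u a j / u a₁ j * u a₁ i) κ (fun a ha => by
      have haT := Finset.mem_of_mem_erase ha
      have hne := Finset.ne_of_mem_erase ha
      refine ⟨(E.hu a haT).1, pert_tie E.hC₀ E.hg E.hM (E.hu a₁ E.ha₁) (E.hu a haT) E.hε.le hε
        (lt_of_le_of_ne (E.hmin a haT) fun h => hne (E.hinj h).symm) hS hj⟩)
    (fun i => comb u₀ u T x i - comb u₀ u T x j / u a₁ j * u a₁ i)
  have heq : comb (fun i => comb u₀ u T x i - comb u₀ u T x j / u a₁ j * u a₁ i)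
      (fun a i => u a i - u a j / u a₁ j * u a₁ i) (T.erase a₁) z
      = comb u₀ u T (fun a => if a = a₁ then x a₁ - comb u₀ u T x j / u a₁ j -
        ∑ b ∈ T.erase a₁, z b * (u b j / u a₁ j) else x a + z a) := by
    funext i
    have e1 : comb u₀ u T x i = u₀ i + (x a₁ * u a₁ i + ∑ a ∈ T.erase a₁, x a * u a i) := by
      unfold comb; rw [← Finset.add_sum_erase T _ E.ha₁]
    have e2 : ∑ a ∈ T.erase a₁, z a * (u a i - u a j / u a₁ j * u a₁ i)
        = ∑ a ∈ T.erase a₁, z a * u a i -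
          (∑ a ∈ T.erase a₁, z a * (u a j / u a₁ j)) * u a₁ i := by
      rw [Finset.sum_mul, ← Finset.sum_sub_distrib]
      apply Finset.sum_congr rfl
      intro a _
      ring
    have e3 : ∑ a ∈ T.erase a₁, (if a = a₁ then x a₁ - comb u₀ u T x j / u a₁ j -
        ∑ b ∈ T.erase a₁, z b * (u b j / u a₁ j) else x a + z a) * u a i
        = ∑ a ∈ T.erase a₁, x a * u a i + ∑ a ∈ T.erase a₁, z a * u a i := by
      rw [← Finset.sum_add_distrib]
      apply Finset.sum_congr rfl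
      intro a ha
      rw [if_neg (Finset.ne_of_mem_erase ha)]
      ring
    have e4 : comb u₀ u T (fun a => if a = a₁ then x a₁ - comb u₀ u T x j / u a₁ j -
        ∑ b ∈ T.erase a₁, z b * (u b j / u a₁ j) else x a + z a) i
        = u₀ i + ((x a₁ - comb u₀ u T x j / u a₁ j -
        ∑ b ∈ T.erase a₁, z b * (u b j / u a₁ j)) * u a₁ i +
          (∑ a ∈ T.erase a₁, x a * u a i + ∑ a ∈ T.erase a₁, z a * u a i)) := by
      rw [← e3]
      conv_lhs => unfold comb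
      rw [← Finset.add_sum_erase T _ E.ha₁]
      simp only [if_true]
      rfl
    rw [e4]
    change (comb u₀ u T x i - comb u₀ u T x j / u a₁ j * u a₁ i) +
      ∑ a ∈ T.erase a₁, z a * (u a i - u a j / u a₁ j * u a₁ i) = _
    rw [e2, e1]
    ring
  refine ⟨_, ?_, B, hB, heq ▸ hout⟩
  rw [← heq]
  change (comb u₀ u T x j - comb u₀ u T x j / u a₁ j * u a₁ j) +
      ∑ a ∈ T.erase a₁, z a * (u a j - u a j / u a₁ j * u a₁ j) = 0
  rw [div_mul_cancel₀ _ hu1, sub_self, zero_add]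
  apply Finset.sum_eq_zero
  intro a _
  rw [div_mul_cancel₀ _ hu1, sub_self, mul_zero]

/-- the outcome below `j` is an outcome or of the type of the slowest exponent -/
theorem out_cases [DecidableEq ι] {R CT : ℝ} {w : ℕ → ℝ} {D L L' m : ℕ} {S' B : Finset ℕ}
    (hg : ∀ a, ∀ i ∈ A, 0 < g a i) (hCT : C₁ ≤ CT) (hS' : S' ⊆ A) (hD : A.card ≤ D * S'.card)
    (hL : D * L' ≤ L) (hB : B ⊆ S')
    (h : Out R C₁ L' m S' g (T.erase a₁) w B) :
    Out R CT L m A g T w B ∨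
      (S'.card ≤ L' * B.card ∧ ∃ K : ℝ, 0 < K ∧ Tie C₁ K (g a₁) w B) := by
  have hcard : S'.card ≤ L' * B.card → A.card ≤ L * B.card := by
    intro h1
    calc A.card ≤ D * S'.card := hD
      _ ≤ D * (L' * B.card) := Nat.mul_le_mul_left _ h1
      _ = (D * L') * B.card := by ring
      _ ≤ L * B.card := Nat.mul_le_mul_right _ hL
  rcases h with ⟨h1, h2⟩ | h
  · rcases h2 with h2 | ⟨μ, hμ, K, hK, ht⟩
    · exact Or.inl (Or.inl ⟨hcard h1, Or.inl h2⟩)
    · by_cases hμa : μ = a₁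
      · subst hμa
        exact Or.inr ⟨h1, K, hK, ht⟩
      · refine Or.inl (Or.inl ⟨hcard h1, Or.inr ⟨μ, fun hm => hμ ?_, K, hK, ?_⟩⟩)
        · exact Finset.mem_erase.2 ⟨hμa, hm⟩
        · exact ht.mono hCT (fun i hi => hg μ i (hS' (hB hi))) hK
  · exact Or.inl (Or.inr h)

/-- the next state -/
theorem Env.next [DecidableEq ι] (E : Env C₀ C₁ C₂ ε n A key g T u κ a₁) {R' δ : ℝ}
    (hδ : 0 < δ) (hR' : 1 ≤ R') (hδR : 2 * C₁ * (1 + C₀ ^ 2) * δ * R' ≤ 1) (hε1 : ε ≤ 1)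
    {F t : ℕ} {u₀ : ℕ → ℝ} {S : Finset ℕ} {x : ι → ℝ} {P : Finset ℕ} {X : ℕ → ι → ℝ}
    {K : ℕ → ℝ} (hst : St R' C₁ δ F t A g T u₀ u a₁ S x P X K) {j : ℕ} (hj : j ∈ S)
    {B : Finset ℕ} (hB : B ⊆ below S j) (hBn : n ≤ B.card) (hBne : B.Nonempty) {y : ι → ℝ}
    (hy : comb u₀ u T y j = 0) {Kj : ℝ}
    (hKj : 0 < Kj) (ht : Tie C₁ Kj (g a₁) (comb u₀ u T y) B) {L' Nc : ℕ}
    (hcard : S.card ≤ 3 * L' * B.card) (hF : F = 3 * L' * Nc)
    (hNc : 2 * C₁ * C₀ ^ 2 < δ * Nc)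
    (hgood : ∀ μ, key μ < key a₁ → ∀ j' ∈ P,
      R' * (Kj * g a₁ j * g μ j') ≤ K j' * g a₁ j' * g μ j ∨
      R' * (K j' * g a₁ j' * g μ j) ≤ Kj * g a₁ j * g μ j') :
    ∃ S' x' P' X' K', St R' C₁ δ F (t + 1) A g T u₀ u a₁ S' x' P' X' K' := by
  classical
  have hC0 : 0 < C₀ := by linarith [E.hC₀]
  have hC1 : 0 < C₁ := by linarith [E.hC₁]
  have hR'0 : 0 < R' := by linarith
  obtain ⟨hκ, htu⟩ := E.hu a₁ E.ha₁
  have hjA := hst.hS hj
  have gj := E.hg a₁ j hjA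
  have hBS : B ⊆ S := hB.trans (below_subset S j)
  have hBA : B ⊆ A := hBS.trans hst.hS
  have hupos : ∀ i ∈ A, 0 < |u a₁ i| := by
    intro i hi
    have h1 := (htu i hi).1
    have h2 := mul_pos hκ (E.hg a₁ i hi)
    by_contra h0
    push Not at h0
    have h3 : C₀ * |u a₁ i| ≤ 0 := mul_nonpos_of_nonneg_of_nonpos hC0.le h0
    linarith
  -- comparison of the constants
  have hK : ∀ j' ∈ P, Kj * R' ≤ K j' := by
    intro j' hj'
    have h := E.claim_one hδ hst hj hB hBn hy hKj ht hj'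
    have h2 := hst.Kpos j' hj'
    calc Kj * R' ≤ (2 * C₁ * (1 + C₀ ^ 2) * δ * K j') * R' :=
          mul_le_mul_of_nonneg_right h hR'0.le
      _ = (2 * C₁ * (1 + C₀ ^ 2) * δ * R') * K j' := by ring
      _ ≤ 1 * K j' := mul_le_mul_of_nonneg_right hδR h2.le
      _ = K j' := one_mul _
  have hK' : ∀ j' ∈ P, Kj ≤ K j' := by
    intro j' hj'
    have h := hK j' hj'
    nlinarith
  -- separation
  have hsep : ∀ μ, ∀ j' ∈ P, R' * (Kj * g a₁ j * g μ j') ≤ K j' * g a₁ j' * g μ j ∨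
      R' * (K j' * g a₁ j' * g μ j) ≤ Kj * g a₁ j * g μ j' := by
    intro μ j' hj'
    rcases lt_or_ge (key μ) (key a₁) with hk | hk
    · exact hgood μ hk j' hj'
    · left
      have hj'A := hst.hP hj'
      have hjj' := hst.above j' hj' j hj
      have h1 : g a₁ j * g μ j' ≤ g a₁ j' * g μ j := by
        rcases hk.lt_or_eq with hk | hk
        · have h2 := E.hM a₁ μ hk j hjA j' hj'A hjj'
          have h3 := mul_pos (E.hg μ j hjA) (E.hg a₁ j' hj'A)
          calc g a₁ j * g μ j' = g μ j' * g a₁ j := by ring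
            _ ≤ ε * (g μ j * g a₁ j') := h2
            _ ≤ 1 * (g μ j * g a₁ j') := mul_le_mul_of_nonneg_right hε1 h3.le
            _ = _ := by ring
        · have h2 := E.hinj hk
          rw [← h2, mul_comm]
      have h3 := mul_pos gj (E.hg μ j' hj'A)
      have h4 : 0 ≤ K j' := (hst.Kpos j' hj').le
      calc R' * (Kj * g a₁ j * g μ j') = (Kj * R') * (g a₁ j * g μ j') := by ring
        _ ≤ K j' * (g a₁ j * g μ j') := mul_le_mul_of_nonneg_right (hK j' hj') h3.le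
        _ ≤ K j' * (g a₁ j' * g μ j) := mul_le_mul_of_nonneg_left h1 h4
        _ = _ := by ring
  -- the largest cell
  set ρ : ℕ → ℝ := fun i => comb u₀ u T y i / u a₁ i with hρ
  have hρb : ∀ i ∈ B, |ρ i| ≤ C₁ * C₀ * Kj / κ a₁ := by
    intro i hi
    have hiA := hBA hi
    have hui := hupos i hiA
    rw [hρ]
    simp only
    rw [abs_div, div_le_div_iff₀ hui hκ]
    have h1 := (ht i hi).2
    have h2 := (htu i hiA).1
    calc |comb u₀ u T y i| * κ a₁ ≤ (C₁ * (Kj * g a₁ i)) * κ a₁ := by gcongr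
      _ = C₁ * Kj * (κ a₁ * g a₁ i) := by ring
      _ ≤ C₁ * Kj * (C₀ * |u a₁ i|) := by gcongr
      _ = _ := by ring
  obtain ⟨S', hS'B, hS'ne, hS'c, hcl⟩ := cluster B hBne ρ (C₁ * C₀ * Kj / κ a₁)
    (δ * Kj / (C₀ * κ a₁)) (by positivity) hρb Nc (by
      rw [div_mul_eq_mul_div, ← mul_div_assoc, div_lt_div_iff₀ hκ (by positivity)]
      have h3 : 0 < Kj * κ a₁ := mul_pos hKj hκ
      calc 2 * (C₁ * C₀ * Kj) * (C₀ * κ a₁) = (2 * C₁ * C₀ ^ 2) * (Kj * κ a₁) := by ring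
        _ < (δ * Nc) * (Kj * κ a₁) := mul_lt_mul_of_pos_right hNc h3
        _ = _ := by ring)
  obtain ⟨i₀, hi₀⟩ := hS'ne
  set s : ℝ := - ρ i₀ with hs
  have hval : ∀ i, comb u₀ u T (fun a => if a = a₁ then y a + s else y a) i
      = comb u₀ u T y i + s * u a₁ i := fun i => comb_add_one u₀ u T y a₁ E.ha₁ s i
  have hsm : ∀ i ∈ S', |comb u₀ u T (fun a => if a = a₁ then y a + s else y a) i|
      ≤ δ * (Kj * g a₁ i) := by
    intro i hi
    have hiA := hBA (hS'B hi)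
    have hui := hupos i hiA
    have hui' : u a₁ i ≠ 0 := abs_pos.1 hui
    have h1 := hcl i hi i₀ hi₀
    have h2 := (htu i hiA).2
    have e : comb u₀ u T y i + s * u a₁ i = (ρ i - ρ i₀) * u a₁ i := by
      have : comb u₀ u T y i = ρ i * u a₁ i := by
        rw [hρ]; simp only; rw [div_mul_cancel₀ _ hui']
      rw [this, hs]; ring
    rw [hval i, e, abs_mul]
    calc |ρ i - ρ i₀| * |u a₁ i| ≤ (δ * Kj / (C₀ * κ a₁)) * (C₀ * (κ a₁ * g a₁ i)) := by gcongr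
      _ = _ := by field_simp
  have hjP : j ∉ P := fun h => lt_irrefl _ (hst.above j h j hj)
  have hS'S : S' ⊆ S := hS'B.trans hBS
  have hPne : ∀ j' ∈ P, j' ≠ j := fun j' h e => hjP (e ▸ h)
  refine ⟨S', fun a => if a = a₁ then y a + s else y a, insert j P,
    fun i => if i = j then y else X i, fun i => if i = j then Kj else K i, ?_⟩
  constructor
  · exact hS'S.trans hst.hS
  · exact Finset.insert_subset hjA hst.hP
  · rw [Finset.card_insert_of_notMem hjP, hst.cardP]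
  · calc A.card ≤ F ^ t * S.card := hst.cardS
      _ ≤ F ^ t * (3 * L' * B.card) := Nat.mul_le_mul_left _ hcard
      _ ≤ F ^ t * (3 * L' * (Nc * S'.card)) := by gcongr
      _ = F ^ (t + 1) * S'.card := by rw [pow_succ, hF]; ring
  · intro i hi
    rcases Finset.mem_insert.1 hi with rfl | hi
    · simpa using hKj
    · rw [if_neg (hPne i hi)]; exact hst.Kpos i hi
  · intro i hi i' hi'
    rcases Finset.mem_insert.1 hi with rfl | hi
    · exact (mem_below.1 (hB (hS'B hi'))).2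
    · exact hst.above i hi i' (hS'S hi')
  · intro i hi
    rcases Finset.mem_insert.1 hi with rfl | hi
    · simpa using hy
    · simp only [if_neg (hPne i hi)]; exact hst.van i hi
  · intro i hi
    rcases Finset.mem_insert.1 hi with rfl | hi
    · simpa using ht.subset hS'B
    · simp only [if_neg (hPne i hi)]; exact (hst.tie i hi).subset hS'S
  · intro i hi i' hi'
    have h1 := hsm i' hi'
    have gi' := E.hg a₁ i' (hBA (hS'B hi'))
    rcases Finset.mem_insert.1 hi with rfl | hi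
    · simpa using h1
    · simp only [if_neg (hPne i hi)]
      refine h1.trans ?_
      have := hK' i hi
      gcongr
  · intro μ a ha b hb hab
    rcases Finset.mem_insert.1 ha with ea | ha'
    · rcases Finset.mem_insert.1 hb with eb | hb'
      · exact absurd (ea.trans eb.symm) hab
      · rw [if_pos ea, if_neg (hPne b hb'), ea]
        exact hsep μ b hb'
    · rcases Finset.mem_insert.1 hb with eb | hb'
      · rw [if_pos eb, if_neg (hPne a ha'), eb]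
        exact (hsep μ a ha').symm
      · rw [if_neg (hPne a ha'), if_neg (hPne b hb')]
        exact hst.sep μ a ha' b hb' hab

end Pool.Agent.LibSAR
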