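import Pool.Agent.LibSAR.Key

/-!
# Lemma P: settling finitely many functions
-/

namespace Pool.Agent.LibSAR

lemma s_tie_mono {C C' K : ℝ} {g u : ℕ → ℝ} {B B' : Finset ℕ} (hB : B' ⊆ B) (hC : C ≤ C')
    (hK : 0 < K) (hg : ∀ i ∈ B, 0 < g i) (h : Tie C K g u B) : Tie C' K g u B' := by
  intro i hi
  have h1 := h i (hB hi)
  have h2 : 0 < K * g i := mul_pos hK (hg i (hB hi))
  exact ⟨h1.1.trans (mul_le_mul_of_nonneg_right hC (abs_nonneg _)),
    h1.2.trans (mul_le_mul_of_nonneg_right hC h2.le)⟩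

lemma s_mono_mono {ι : Type} {ε ε' : ℝ} {key : ι → ℝ} {g : ι → ℕ → ℝ} {A A' : Finset ℕ}
    (hA : A' ⊆ A) (hε : ε ≤ ε') (hg : ∀ a, ∀ i ∈ A, 0 < g a i) (h : Mono ε key g A) :
    Mono ε' key g A' := by
  intro a b hab i hi j hj hij
  have h1 : 0 < g b i * g a j := mul_pos (hg b i (hA hi)) (hg a j (hA hj))
  exact (h a b hab i (hA hi) j (hA hj) hij).trans (mul_le_mul_of_nonneg_right hε h1.le)

lemma s_exp_le {c₁ c₂ m : ℕ} (hm : 1 ≤ m) : c₁ * m ^ c₁ + c₂ * m ^ c₂ ≤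
    (c₁ + c₂) * m ^ (c₁ + c₂) := by
  rw [add_mul]
  exact Nat.add_le_add (Nat.mul_le_mul_left _ (Nat.pow_le_pow_right hm (by omega)))
    (Nat.mul_le_mul_left _ (Nat.pow_le_pow_right hm (by omega)))

lemma s_exp_mono {c c' m : ℕ} (hm : 1 ≤ m) (h : c ≤ c') : c * m ^ c ≤ c' * m ^ c' :=
  Nat.mul_le_mul h (Nat.pow_le_pow_right hm h)

/-- The key lemma with constants independent of `T`. -/
lemma s_key (ι : Type) [Fintype ι] [DecidableEq ι] (R : ℝ) (hR : 1 < R) (C₀ : ℝ) (hC₀ : 1 ≤ C₀) :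
    ∃ ε : ℝ, 0 < ε ∧ ∃ CT : ℝ, 1 ≤ CT ∧ ∃ c : ℕ, ∀ m : ℕ, 1 ≤ m →
    ∀ (A : Finset ℕ) (key : ι → ℝ) (g : ι → ℕ → ℝ), Function.Injective key →
      (∀ a, ∀ i ∈ A, 0 < g a i) → Mono ε key g A → 2 ^ (c * m ^ c) ≤ A.card →
    ∀ (T : Finset ι), ∀ (u : ι → ℕ → ℝ) (κ : ι → ℝ),
      (∀ a ∈ T, 0 < κ a ∧ Tie C₀ (κ a) (g a) (u a) A) → ∀ u₀ : ℕ → ℝ,
      ∃ w : ℕ → ℝ, w - u₀ ∈ Submodule.span ℝ (u '' T) ∧ ∃ B ⊆ A,
        ((A.card ≤ 2 ^ (c * m ^ c) * B.card ∧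
          ((∀ i ∈ B, w i = 0) ∨ ∃ μ, μ ∉ T ∧ ∃ K : ℝ, 0 < K ∧ Tie CT K (g μ) w B)) ∨
        (m ≤ B.card ∧ (∀ i ∈ B, w i ≠ 0) ∧ Sep R g w B)) := by
  have h := fun q => key_lemma ι R hR q C₀ hC₀
  choose ε hε CT hCT c hc using h
  obtain ⟨N, hN⟩ : ∃ N, N = Fintype.card ι + 1 := ⟨_, rfl⟩
  have hne : (Finset.range N).Nonempty := ⟨0, Finset.mem_range.2 (by omega)⟩
  refine ⟨(Finset.range N).inf' hne ε, ?_, (Finset.range N).sup' hne CT, ?_,
    (Finset.range N).sup c, ?_⟩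
  · rw [Finset.lt_inf'_iff]
    exact fun q _ => hε q
  · exact (hCT 0).trans (Finset.le_sup' CT (Finset.mem_range.2 (by omega)))
  · intro m hm A key g hkey hg hmono hA T u κ hT u₀
    have hq : T.card ∈ Finset.range N := Finset.mem_range.2 (by
      have := Finset.card_le_univ T
      omega)
    have hcle : c T.card ≤ (Finset.range N).sup c := Finset.le_sup hq
    have hexp : 2 ^ (c T.card * m ^ c T.card) ≤ 2 ^ ((Finset.range N).sup c *
        m ^ (Finset.range N).sup c) := Nat.pow_le_pow_right (by norm_num) (s_exp_mono hm hcle)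
    obtain ⟨w, hw, B, hBA, hB⟩ := hc T.card m hm A key g hkey hg
      (s_mono_mono (Finset.Subset.refl A) (Finset.inf'_le ε hq) hg hmono) (hexp.trans hA) T rfl u κ
      hT u₀
    refine ⟨w, hw, B, hBA, ?_⟩
    rcases hB with ⟨h1, h2⟩ | h1
    · refine Or.inl ⟨h1.trans (Nat.mul_le_mul_right _ hexp), ?_⟩
      rcases h2 with h2 | ⟨μ, hμ, K, hK, h3⟩
      · exact Or.inl h2
      · exact Or.inr ⟨μ, hμ, K, hK, s_tie_mono (Finset.Subset.refl B)
          (Finset.le_sup' CT hq) hK (fun i hi => hg μ i (hBA hi)) h3⟩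
    · exact Or.inr h1

/-- LEMMA P -/
theorem settle (ι : Type) [Fintype ι] [DecidableEq ι] (R : ℝ) (hR : 1 < R) (r : ℕ) :
    ∃ ε : ℝ, 0 < ε ∧ ∃ C : ℝ, 1 ≤ C ∧ ∃ c : ℕ, ∀ m : ℕ, 1 ≤ m →
    ∀ (A : Finset ℕ) (key : ι → ℝ) (g : ι → ℕ → ℝ), Function.Injective key →
      (∀ a, ∀ i ∈ A, 0 < g a i) → Mono ε key g A → 2 ^ (c * m ^ c) ≤ A.card →
    ∀ f : Fin r → ℕ → ℝ,
      (∃ w ∈ Submodule.span ℝ (Set.range f), ∃ B ⊆ A, m ≤ B.card ∧ (∀ i ∈ B, w i ≠ 0) ∧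
        Sep R g w B) ∨
      (∃ B ⊆ A, A.card ≤ 2 ^ (c * m ^ c) * B.card ∧ ∃ (T : Finset ι) (u : ι → ℕ → ℝ) (κ : ι → ℝ),
        (∀ a ∈ T, 0 < κ a ∧ Tie C (κ a) (g a) (u a) B ∧ u a ∈ Submodule.span ℝ (Set.range f)) ∧
        ∀ s, ∃ x : ι → ℝ, ∀ i ∈ B, f s i = ∑ a ∈ T, x a * u a i) := by
  induction r with
  | zero =>
    refine ⟨1, one_pos, 1, le_refl 1, 0, fun m hm A key g _ _ _ _ f => Or.inr
      ⟨A, Finset.Subset.refl A, by simp, ∅, fun _ _ => 0, fun _ => 1, by simp, fun s => s.elim0⟩⟩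
  | succ r ih =>
    obtain ⟨ε₁, hε₁, C₁, hC₁, c₁, h₁⟩ := ih
    obtain ⟨ε₂, hε₂, C₂, hC₂, c₂, h₂⟩ := s_key ι R hR C₁ hC₁
    refine ⟨min ε₁ ε₂, lt_min hε₁ hε₂, max C₁ C₂, hC₁.trans (le_max_left _ _), c₁ + c₂, ?_⟩
    intro m hm A key g hkey hg hmono hA f
    let f' : Fin r → ℕ → ℝ := fun s => f s.castSucc
    have hspan : Submodule.span ℝ (Set.range f') ≤ Submodule.span ℝ (Set.range f) := by
      apply Submodule.span_mono
      rintro _ ⟨s, rfl⟩
      exact ⟨s.castSucc, rfl⟩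
    have hexp : c₁ * m ^ c₁ + c₂ * m ^ c₂ ≤ (c₁ + c₂) * m ^ (c₁ + c₂) := s_exp_le hm
    have hpow : 2 ^ (c₁ * m ^ c₁) * 2 ^ (c₂ * m ^ c₂) ≤ 2 ^ ((c₁ + c₂) * m ^ (c₁ + c₂)) := by
      rw [← pow_add]
      exact Nat.pow_le_pow_right (by norm_num) hexp
    have hA₁ : 2 ^ (c₁ * m ^ c₁) ≤ A.card := by
      refine le_trans ?_ hA
      exact Nat.pow_le_pow_right (by norm_num) (by omega)
    rcases h₁ m hm A key g hkey hg (s_mono_mono (Finset.Subset.refl A) (min_le_left _ _) hg hmono)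
      hA₁ f' with ⟨w, hw, B, hBA, hB⟩ | ⟨B₁, hB₁A, hB₁c, T, u, κ, hT, hf'⟩
    · exact Or.inl ⟨w, hspan hw, B, hBA, hB⟩
    have hB₁card : 2 ^ (c₂ * m ^ c₂) ≤ B₁.card := by
      have h3 : 2 ^ (c₁ * m ^ c₁) * 2 ^ (c₂ * m ^ c₂) ≤ 2 ^ (c₁ * m ^ c₁) * B₁.card :=
        (hpow.trans hA).trans hB₁c
      exact Nat.le_of_mul_le_mul_left h3 (by positivity)
    obtain ⟨w, hw, B, hBB₁, hB⟩ := h₂ m hm B₁ key g hkey (fun a i hi => hg a i (hB₁A hi))
      (s_mono_mono hB₁A (min_le_right _ _) hg hmono) hB₁card T u κ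
      (fun a ha => ⟨(hT a ha).1, (hT a ha).2.1⟩) (f (Fin.last r))
    have hwspan : w ∈ Submodule.span ℝ (Set.range f) := by
      have h3 : Submodule.span ℝ (u '' T) ≤ Submodule.span ℝ (Set.range f) := by
        rw [Submodule.span_le]
        rintro _ ⟨a, ha, rfl⟩
        exact hspan (hT a ha).2.2
      have h4 : w = (w - f (Fin.last r)) + f (Fin.last r) := by rw [sub_add_cancel]
      rw [h4]
      exact Submodule.add_mem _ (h3 hw) (Submodule.subset_span ⟨_, rfl⟩)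
    rcases hB with ⟨hBc, hB⟩ | hB
    swap
    · exact Or.inl ⟨w, hwspan, B, hBB₁.trans hB₁A, hB⟩
    right
    have hcard : A.card ≤ 2 ^ ((c₁ + c₂) * m ^ (c₁ + c₂)) * B.card := by
      calc A.card ≤ 2 ^ (c₁ * m ^ c₁) * B₁.card := hB₁c
        _ ≤ 2 ^ (c₁ * m ^ c₁) * (2 ^ (c₂ * m ^ c₂) * B.card) := Nat.mul_le_mul_left _ hBc
        _ = 2 ^ (c₁ * m ^ c₁) * 2 ^ (c₂ * m ^ c₂) * B.card := by ring
        _ ≤ _ := Nat.mul_le_mul_right _ hpow
    obtain ⟨y, hy⟩ := (Submodule.mem_span_image_finset_iff_exists_fun' ℝ).1 hw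
    have hy' : ∀ i, w i - f (Fin.last r) i = ∑ a ∈ T, y a * u a i := by
      intro i
      have h5 := congrFun hy i
      simp only [Finset.sum_apply, Pi.smul_apply, smul_eq_mul, Pi.sub_apply] at h5
      exact h5.symm
    refine ⟨B, hBB₁.trans hB₁A, hcard, ?_⟩
    rcases hB with hB | ⟨μ, hμ, K, hK, hTie⟩
    · refine ⟨T, u, κ, ?_, ?_⟩
      · intro a ha
        exact ⟨(hT a ha).1, s_tie_mono hBB₁ (le_max_left _ _) (hT a ha).1
          (fun i hi => hg a i (hB₁A hi)) (hT a ha).2.1, hspan (hT a ha).2.2⟩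
      · intro s
        refine Fin.lastCases ?_ (fun s => ?_) s
        · refine ⟨fun a => - y a, fun i hi => ?_⟩
          have h5 := hy' i
          rw [hB i hi] at h5
          simp only [neg_mul, Finset.sum_neg_distrib]
          linarith
        · obtain ⟨x, hx⟩ := hf' s
          exact ⟨x, fun i hi => hx i (hBB₁ hi)⟩
    · refine ⟨insert μ T, Function.update u μ w, Function.update κ μ K, ?_, ?_⟩
      · intro a ha
        rcases Finset.mem_insert.1 ha with rfl | ha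
        · rw [Function.update_self, Function.update_self]
          exact ⟨hK, s_tie_mono (Finset.Subset.refl B) (le_max_right _ _) hK
            (fun i hi => hg a i (hB₁A (hBB₁ hi))) hTie, hwspan⟩
        · have hne : a ≠ μ := ne_of_mem_of_not_mem ha hμ
          rw [Function.update_of_ne hne, Function.update_of_ne hne]
          exact ⟨(hT a ha).1, s_tie_mono hBB₁ (le_max_left _ _) (hT a ha).1
            (fun i hi => hg a i (hB₁A hi)) (hT a ha).2.1, hspan (hT a ha).2.2⟩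
      · have hsum : ∀ (x : ι → ℝ) (t : ℝ) (i : ℕ),
            ∑ a ∈ insert μ T, Function.update x μ t a * Function.update u μ w a i =
              t * w i + ∑ a ∈ T, x a * u a i := by
          intro x t i
          rw [Finset.sum_insert hμ, Function.update_self, Function.update_self]
          congr 1
          refine Finset.sum_congr rfl fun a ha => ?_
          have hne : a ≠ μ := ne_of_mem_of_not_mem ha hμ
          rw [Function.update_of_ne hne, Function.update_of_ne hne]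
        intro s
        refine Fin.lastCases ?_ (fun s => ?_) s
        · refine ⟨Function.update (fun a => - y a) μ 1, fun i hi => ?_⟩
          rw [hsum]
          have h5 := hy' i
          simp only [neg_mul, Finset.sum_neg_distrib]
          linarith
        · obtain ⟨x, hx⟩ := hf' s
          refine ⟨Function.update x μ 0, fun i hi => ?_⟩
          rw [hsum, zero_mul, zero_add]
          exact hx i (hBB₁ hi)

end Pool.Agent.LibSAR
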