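import Pool.Agent.LibSAR.Finish
import Pool.Agent.LibSAR.Settle
import Pool.Agent.LibSAR.Growth
import Pool.Agent.LibSAR.AlgDep

/-!
# The stage induction
-/

namespace Pool.Agent.LibSAR

lemma m_tw_add (j k m : ℕ) : tw j (tw k m) = tw (j + k) m := by
  induction j with
  | zero => simp [tw]
  | succ j ih =>
    rw [Nat.succ_add]
    change 2 ^ tw j (tw k m) = 2 ^ tw (j + k) m
    rw [ih]

lemma m_tw_mono (j : ℕ) {m m' : ℕ} (h : m ≤ m') : tw j m ≤ tw j m' := by
  induction j with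
  | zero => exact h
  | succ j ih => exact Nat.pow_le_pow_right (by norm_num) ih

lemma m_tw_le {j j' : ℕ} (h : j ≤ j') (m : ℕ) : tw j m ≤ tw j' m := by
  obtain ⟨i, rfl⟩ := Nat.exists_eq_add_of_le h
  rw [← m_tw_add]
  exact m_tw_mono j (r_le_tw i m)

/-- the polynomial, as a function of the indices of the points -/
noncomputable def mF {d D k : ℕ} (v : ℕ → Fin d → ℝ) (c : (Fin k → Fin d → Fin (D + 1)) → ℝ)
    (e : Fin k → ℕ) : ℝ := ∑ τ, c τ * ∏ l, ∏ a, v (e l) a ^ (τ l a : ℕ)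

/-- the desired conclusion -/
def mConcl {d D k : ℕ} (M : ℕ) (v : ℕ → Fin d → ℝ) (c : (Fin k → Fin d → Fin (D + 1)) → ℝ)
    (A : Finset ℕ) : Prop :=
  ∃ B ⊆ A, M ≤ B.card ∧ ((∀ e : Fin k → ℕ, StrictMono e → (∀ l, e l ∈ B) → 0 ≤ mF v c e) ∨
    (∀ e : Fin k → ℕ, StrictMono e → (∀ l, e l ∈ B) → mF v c e < 0))

/-- systems of `m` functions with quickly varying logarithms -/
def mSys {m : ℕ} (X : Fin m → ℕ → ℝ) (Λ : Finset (Fin m → ℝ)) (β : ℝ) (A : Finset ℕ) : Prop :=
  (∀ b, ∀ i ∈ A, X b i ≠ 0) ∧ ∀ ν ∈ Λ, ν ≠ 0 → ∀ i ∈ A, ∀ j ∈ A, i ≠ j →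
    β ≤ |∑ b, ν b * (Real.log (X b i) - Real.log (X b j))|

/-- stage `m` of the induction -/
def mStage (d D k m J : ℕ) : Prop :=
  ∃ (Λ : Finset (Fin m → ℝ)) (β : ℝ), 0 < β ∧ ∃ M₀ : ℕ, ∀ M ≥ M₀, ∀ (v : ℕ → Fin d → ℝ)
    (c : (Fin k → Fin d → Fin (D + 1)) → ℝ) (A : Finset ℕ) (X : Fin m → ℕ → ℝ),
    (∀ b, X b ∈ VD d D v) → mSys X Λ β A → tw J M ≤ A.card → mConcl M v c A

lemma mStage.mono {d D k m J J' : ℕ} (hJ : J ≤ J') (h : mStage d D k m J) :
    mStage d D k m J' := by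
  obtain ⟨Λ, β, hβ, M₀, h⟩ := h
  exact ⟨Λ, β, hβ, M₀, fun M hM v c A X hX hsys hA =>
    h M hM v c A X hX hsys ((m_tw_le hJ M).trans hA)⟩

/-- If a sum of nonzero terms vanishes, two different terms are comparable. -/
lemma m_two_terms {α : Type} [Fintype α] [DecidableEq α] (t : α → ℝ) (ht : ∑ a, t a = 0)
    (h0 : ∃ a, t a ≠ 0) : ∃ a b, a ≠ b ∧ t a ≠ 0 ∧ t b ≠ 0 ∧ |t b| ≤ |t a| ∧
      |t a| ≤ Fintype.card α * |t b| := by
  obtain ⟨a₀, ha₀⟩ := h0
  obtain ⟨a, -, ha⟩ := Finset.exists_max_image Finset.univ (fun a => |t a|) ⟨a₀, Finset.mem_univ _⟩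
  have hta : 0 < |t a| := lt_of_lt_of_le (abs_pos.2 ha₀) (ha a₀ (Finset.mem_univ _))
  have h1 : |t a| ≤ ∑ b ∈ Finset.univ.erase a, |t b| := by
    have h2 : t a = - ∑ b ∈ Finset.univ.erase a, t b := by
      have h3 := Finset.add_sum_erase Finset.univ t (Finset.mem_univ a)
      linarith
    rw [h2, abs_neg]
    exact Finset.abs_sum_le_sum_abs _ _
  have hne : (Finset.univ.erase a).Nonempty := by
    by_contra h
    rw [Finset.not_nonempty_iff_eq_empty] at h
    rw [h, Finset.sum_empty] at h1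
    linarith
  obtain ⟨b, hb, hbmax⟩ := Finset.exists_max_image (Finset.univ.erase a) (fun a => |t a|) hne
  have h4 : ∑ b ∈ Finset.univ.erase a, |t b| ≤ Fintype.card α * |t b| := by
    calc ∑ b ∈ Finset.univ.erase a, |t b| ≤ ∑ _b ∈ Finset.univ.erase a, |t b| :=
          Finset.sum_le_sum hbmax
      _ = ((Finset.univ.erase a).card : ℝ) * |t b| := by rw [Finset.sum_const, nsmul_eq_mul]
      _ ≤ _ := by
          apply mul_le_mul_of_nonneg_right _ (abs_nonneg _)
          exact_mod_cast Finset.card_le_univ _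
  have h5 : |t a| ≤ Fintype.card α * |t b| := h1.trans h4
  refine ⟨a, b, (Finset.ne_of_mem_erase hb).symm, abs_pos.1 hta, ?_, ha b (Finset.mem_univ _), h5⟩
  intro hb0
  rw [hb0, abs_zero, mul_zero] at h5
  linarith

lemma m_base (d D k : ℕ) : mStage d D k (d + 1) 0 := by
  classical
  obtain ⟨n, hn⟩ := alg_dep d D
  let α := Fin (d + 1) → Fin (n + 1)
  obtain ⟨nt, hnt⟩ : ∃ nt : ℕ, nt = Fintype.card α := ⟨_, rfl⟩
  have hnt1 : 1 ≤ nt := by rw [hnt]; exact Fintype.card_pos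
  let Λ : Finset (Fin (d + 1) → ℝ) := (Finset.univ : Finset (α × α)).image
    fun p b => ((p.1 b : ℕ) : ℝ) - ((p.2 b : ℕ) : ℝ)
  refine ⟨Λ, Real.log nt + 1, by
    have := Real.log_nonneg (show (1 : ℝ) ≤ nt by exact_mod_cast hnt1)
    linarith, Fintype.card (α × α) + 1, ?_⟩
  intro M hM v c A X hX hsys hA
  exfalso
  obtain ⟨P, hP, hrel⟩ := hn v X hX
  have hex : ∃ a, P a ≠ 0 := by
    by_contra h
    push Not at h
    exact hP (funext h)
  have hpair : ∀ i ∈ A, ∃ p : α × α, p.1 ≠ p.2 ∧ P p.1 ≠ 0 ∧ P p.2 ≠ 0 ∧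
      |P p.2 * ∏ b, X b i ^ (p.2 b : ℕ)| ≤ |P p.1 * ∏ b, X b i ^ (p.1 b : ℕ)| ∧
      |P p.1 * ∏ b, X b i ^ (p.1 b : ℕ)| ≤ nt * |P p.2 * ∏ b, X b i ^ (p.2 b : ℕ)| := by
    intro i hi
    obtain ⟨a₀, ha₀⟩ := hex
    obtain ⟨a, b, hab, ha, hb, h1, h2⟩ := m_two_terms (fun a : α => P a * ∏ b, X b i ^ (a b : ℕ))
      (hrel i) ⟨a₀, mul_ne_zero ha₀ (Finset.prod_ne_zero_iff.2 fun b _ =>
        pow_ne_zero _ (hsys.1 b i hi))⟩
    refine ⟨(a, b), hab, (mul_ne_zero_iff.1 ha).1, (mul_ne_zero_iff.1 hb).1, h1, ?_⟩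
    rw [hnt]
    exact h2
  choose! p hp using hpair
  have hcard : (Finset.univ : Finset (α × α)).card < A.card := by
    rw [Finset.card_univ]
    have : M ≤ A.card := hA
    omega
  obtain ⟨i, hi, j, hj, hij, hpij⟩ := Finset.exists_ne_map_eq_of_card_lt_of_maps_to hcard
    (f := p) (fun i _ => Finset.mem_univ _)
  have key : ∀ i ∈ A, ∃ x : ℝ, 0 ≤ x ∧ x ≤ Real.log nt ∧
      ∑ b, (((((p i).1 b : ℕ) : ℝ) - (((p i).2 b : ℕ) : ℝ)) * Real.log (X b i)) =
        x - (Real.log (P (p i).1) - Real.log (P (p i).2)) := by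
    intro i hi
    obtain ⟨-, h1, h2, h3, h4⟩ := hp i hi
    have hlog : ∀ a : α, P a ≠ 0 → Real.log |P a * ∏ b, X b i ^ (a b : ℕ)| =
        Real.log (P a) + ∑ b, ((a b : ℕ) : ℝ) * Real.log (X b i) := by
      intro a ha
      rw [Real.log_abs, Real.log_mul ha (Finset.prod_ne_zero_iff.2 fun b _ =>
        pow_ne_zero _ (hsys.1 b i hi)), Real.log_prod fun b _ => pow_ne_zero _ (hsys.1 b i hi)]
      congr 1
      exact Finset.sum_congr rfl fun b _ => Real.log_pow _ _
    have hpos : ∀ a : α, P a ≠ 0 → 0 < |P a * ∏ b, X b i ^ (a b : ℕ)| := fun a ha =>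
      abs_pos.2 (mul_ne_zero ha (Finset.prod_ne_zero_iff.2 fun b _ =>
        pow_ne_zero _ (hsys.1 b i hi)))
    have h5 := Real.log_le_log (hpos _ h2) h3
    have h6 := Real.log_le_log (hpos _ h1) h4
    rw [Real.log_mul (by exact_mod_cast (by omega : nt ≠ 0)) (hpos _ h2).ne'] at h6
    rw [hlog _ h1, hlog _ h2] at h5 h6
    refine ⟨Real.log (P (p i).1) + ∑ b, (((p i).1 b : ℕ) : ℝ) * Real.log (X b i) -
      (Real.log (P (p i).2) + ∑ b, (((p i).2 b : ℕ) : ℝ) * Real.log (X b i)), by linarith,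
      by linarith, ?_⟩
    simp only [sub_mul, Finset.sum_sub_distrib]
    ring
  obtain ⟨x, hx0, hx1, hx⟩ := key i hi
  obtain ⟨y, hy0, hy1, hy⟩ := key j hj
  let ν : Fin (d + 1) → ℝ := fun b => (((p i).1 b : ℕ) : ℝ) - (((p i).2 b : ℕ) : ℝ)
  have hν0 : ν ≠ 0 := by
    intro h
    apply (hp i hi).1
    funext b
    have h1 : ν b = 0 := congrFun h b
    have h2 : (((p i).1 b : ℕ) : ℝ) = (((p i).2 b : ℕ) : ℝ) := sub_eq_zero.1 h1
    exact Fin.ext (by exact_mod_cast h2)
  have h1 := hsys.2 ν (Finset.mem_image.2 ⟨p i, Finset.mem_univ _, rfl⟩) hν0 i hi j hj hij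
  have h2 : ∑ b, ν b * (Real.log (X b i) - Real.log (X b j)) = x - y := by
    simp only [mul_sub, Finset.sum_sub_distrib]
    have h3 : ∑ b, ν b * Real.log (X b i) = _ := hx
    have h4 : ∑ b, ν b * Real.log (X b j) =
        y - (Real.log (P (p j).1) - Real.log (P (p j).2)) := by
      simp only [ν]
      rw [hpij]
      exact hy
    rw [h3, h4, hpij]
    ring
  rw [h2] at h1
  have h3 : |x - y| ≤ Real.log nt := abs_le.2 ⟨by linarith, by linarith⟩
  linarith

lemma m_step (d D k m J : ℕ) (hJ : 10 ≤ J) (h : mStage d D k (m + 1) J) :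
    mStage d D k m (J + 4) := by
  classical
  obtain ⟨Λ', β', hβ', M₁, hst⟩ := h
  -- the exponents
  let Ξ : Finset (Fin m → ℝ) := (Λ'.filter fun ν => ν (Fin.last m) ≠ 0).image
    fun ν b => - (ν b.castSucc / ν (Fin.last m))
  let ι : Type := {x // x ∈ Ξ}
  let vec : ι → Fin m → ℝ := fun μ => μ.1
  have hvec : Function.Injective vec := Subtype.val_injective
  obtain ⟨ρ, hρ⟩ : ∃ ρ : ℝ, ρ = ∑ ν ∈ Λ'.filter (fun ν => ν (Fin.last m) ≠ 0),
      β' / |ν (Fin.last m)| := ⟨_, rfl⟩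
  have hρν : ∀ ν ∈ Λ', ν (Fin.last m) ≠ 0 → β' / |ν (Fin.last m)| ≤ ρ := by
    intro ν hν h0
    rw [hρ]
    exact Finset.single_le_sum (f := fun ν : Fin (m + 1) → ℝ => β' / |ν (Fin.last m)|)
      (fun ν _ => div_nonneg hβ'.le (abs_nonneg _)) (Finset.mem_filter.2 ⟨hν, h0⟩)
  have hρ0 : 0 ≤ ρ := by
    rw [hρ]
    exact Finset.sum_nonneg fun ν _ => div_nonneg hβ'.le (abs_nonneg _)
  obtain ⟨R, hR⟩ : ∃ R : ℝ, R = Real.exp (ρ + 1) := ⟨_, rfl⟩
  have hR1 : 1 < R := by rw [hR]; exact Real.one_lt_exp_iff.2 (by linarith)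
  let mon : Type := Fin d → Fin (D + 1)
  let r := Fintype.card mon
  let enum : mon ≃ Fin r := Fintype.equivFin mon
  obtain ⟨ε, hε, C, hC, cc, hset⟩ := settle ι R hR1 r
  obtain ⟨β₂, hβ₂, M₂, hfin⟩ := m_finish m k ι vec hvec C hC
  obtain ⟨M₃, hgrow⟩ := growth cc
  obtain ⟨M₄, hram⟩ := ramsey_two (ι × ι → Bool)
  let Λ : Finset (Fin m → ℝ) := ((Finset.univ : Finset (ι × ι)).image
    fun p => vec p.1 - vec p.2) ∪ Λ'.image fun ν b => ν b.castSucc
  obtain ⟨β, hβdef⟩ : ∃ β : ℝ, β = β' + β₂ + |Real.log ε| := ⟨_, rfl⟩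
  have hβ1 : β' ≤ β := by have := abs_nonneg (Real.log ε); linarith
  have hβ2 : β₂ ≤ β := by have := abs_nonneg (Real.log ε); linarith
  have hβ3 : - β ≤ Real.log ε := by have := neg_abs_le (Real.log ε); linarith
  refine ⟨Λ, β, by linarith, M₁ + M₂ + M₃ + M₄ + 2 + Fintype.card ι, ?_⟩
  intro M hM v c A X hX hsys hA
  -- sizes
  obtain ⟨m₂, hm₂⟩ : ∃ m₂, m₂ = tw J M := ⟨_, rfl⟩
  have hMm₂ : M ≤ m₂ := by rw [hm₂]; exact r_le_tw J M
  obtain ⟨m₁, hm₁⟩ : ∃ m₁, m₁ = 2 ^ (cc * m₂ ^ cc) * m₂ := ⟨_, rfl⟩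
  have hm₁A : tw 2 m₁ ≤ A.card := by
    refine le_trans ?_ hA
    have h1 : m₁ ≤ tw 2 m₂ := by rw [hm₁]; exact hgrow m₂ (by omega)
    calc tw 2 m₁ ≤ tw 2 (tw 2 m₂) := m_tw_mono 2 h1
      _ = tw (J + 4) M := by
          rw [m_tw_add, hm₂, m_tw_add]
          congr 1
          omega
  have hm₂m₁ : m₂ ≤ m₁ := by
    rw [hm₁]
    exact Nat.le_mul_of_pos_left _ (by positivity)
  have hfinsize : 2 ^ Fintype.card ι * tw 9 M ≤ m₂ := by
    have h1 : m₂ ≥ tw 10 M := by rw [hm₂]; exact m_tw_le hJ M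
    have h2 : tw 10 M = 2 ^ tw 9 M := rfl
    have h3 : 2 ^ Fintype.card ι * tw 9 M ≤ 2 ^ tw 9 M := by
      have h4 : tw 9 M = 2 ^ tw 8 M := rfl
      have h5 : M ≤ tw 8 M := r_le_tw 8 M
      have h6 : tw 8 M + Fintype.card ι ≤ tw 9 M := by
        rw [h4]
        have h7 : tw 8 M * tw 8 M ≤ 2 ^ tw 8 M ∨ tw 8 M < 4 := by
          by_cases h8 : 4 ≤ tw 8 M
          · exact Or.inl (r_sq_le _ h8)
          · exact Or.inr (by omega)
        rcases h7 with h7 | h7
        · have h8 : 2 * tw 8 M ≤ tw 8 M * tw 8 M := Nat.mul_le_mul_right _ (by omega)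
          omega
        · have h9 : tw 8 M = 2 ^ tw 7 M := rfl
          have h10 : M ≤ tw 7 M := r_le_tw 7 M
          have h11 : 2 ^ 2 ≤ 2 ^ tw 7 M := Nat.pow_le_pow_right (by norm_num) (by omega)
          omega
      calc 2 ^ Fintype.card ι * tw 9 M ≤ 2 ^ Fintype.card ι * 2 ^ tw 8 M := le_of_eq (by rw [h4])
        _ = 2 ^ (tw 8 M + Fintype.card ι) := by rw [← pow_add, add_comm]
        _ ≤ 2 ^ tw 9 M := Nat.pow_le_pow_right (by norm_num) h6
    omega
  -- the points in logarithmic coordinates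
  let P : ℕ → Fin m → ℝ := fun i b => Real.log (X b i)
  obtain ⟨A', hA'A, hA'c, s, hs⟩ := hram m₁ (by omega) A hm₁A
    (fun i j => fun p => decide (0 < ∑ b, (vec p.1 b - vec p.2 b) * (P i b - P j b)))
  have hA'2 : 1 < A'.card := by omega
  obtain ⟨x, hx, y, hy, hxy⟩ := Finset.one_lt_card.1 hA'2
  obtain ⟨i₁, hi₁, j₁, hj₁, hij₁⟩ : ∃ i ∈ A', ∃ j ∈ A', i < j := by
    rcases lt_or_gt_of_ne hxy with h | h
    · exact ⟨x, hx, y, hy, h⟩
    · exact ⟨y, hy, x, hx, h⟩
  have hsep : ∀ a b : ι, a ≠ b → ∀ i ∈ A', ∀ j ∈ A', i ≠ j →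
      β ≤ |∑ s, (vec a s - vec b s) * (P i s - P j s)| := by
    intro a b hab i hi j hj hij
    exact hsys.2 (vec a - vec b) (Finset.mem_union_left _ (Finset.mem_image.2
      ⟨(a, b), Finset.mem_univ _, rfl⟩)) (fun h => hab (hvec (sub_eq_zero.1 h))) i (hA'A hi) j
      (hA'A hj) hij
  let key : ι → ℝ := fun μ => ∑ b, vec μ b * (P i₁ b - P j₁ b)
  let g : ι → ℕ → ℝ := fun μ i => Real.exp (∑ b, vec μ b * P i b)
  have hkeydiff : ∀ a b : ι, key b - key a = ∑ s, (vec b s - vec a s) * (P i₁ s - P j₁ s) := by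
    intro a b
    simp only [key, sub_mul, Finset.sum_sub_distrib]
  have hkey : Function.Injective key := by
    intro a b hab
    by_contra hne
    have h1 := hsep b a (Ne.symm hne) i₁ hi₁ j₁ hj₁ hij₁.ne
    rw [← hkeydiff, hab, sub_self, abs_zero] at h1
    linarith
  have hgpos : ∀ a, ∀ i ∈ A', 0 < g a i := fun a i _ => Real.exp_pos _
  have hmono : Mono ε key g A' := by
    intro a b hab i hi j hj hij
    have hne : b ≠ a := fun h => by rw [h] at hab; exact lt_irrefl _ hab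
    have h1 : 0 < ∑ s, (vec b s - vec a s) * (P i₁ s - P j₁ s) := by rw [← hkeydiff]; linarith
    have h2 : decide (0 < ∑ s, (vec b s - vec a s) * (P i₁ s - P j₁ s)) = s (b, a) :=
      congrFun (hs i₁ hi₁ j₁ hj₁ hij₁) (b, a)
    have h3 : decide (0 < ∑ s, (vec b s - vec a s) * (P i s - P j s)) = s (b, a) :=
      congrFun (hs i hi j hj hij) (b, a)
    have h4 : 0 < ∑ s, (vec b s - vec a s) * (P i s - P j s) := by
      rw [← h2] at h3
      rw [decide_eq_true h1] at h3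
      exact of_decide_eq_true h3
    have h5 := hsep b a hne i hi j hj hij.ne
    rw [abs_of_pos h4] at h5
    simp only [g]
    simp only [sub_mul, mul_sub, Finset.sum_sub_distrib] at h5
    rw [← Real.exp_add, ← Real.exp_add]
    calc Real.exp (∑ t, vec b t * P j t + ∑ t, vec a t * P i t) ≤
        Real.exp (Real.log ε + (∑ t, vec b t * P i t + ∑ t, vec a t * P j t)) :=
          Real.exp_le_exp.2 (by linarith)
      _ = ε * Real.exp (∑ t, vec b t * P i t + ∑ t, vec a t * P j t) := by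
          rw [Real.exp_add, Real.exp_log hε]
  let f : Fin r → ℕ → ℝ := fun t i => ∏ a, v i a ^ ((enum.symm t) a : ℕ)
  have hrange : Submodule.span ℝ (Set.range f) ≤ VD d D v := by
    apply Submodule.span_mono
    rintro _ ⟨t, rfl⟩
    exact ⟨enum.symm t, rfl⟩
  have hm₂1 : 1 ≤ m₂ := by omega
  have hpow : 2 ^ (cc * m₂ ^ cc) ≤ A'.card := by
    refine le_trans ?_ hA'c
    rw [hm₁]
    exact Nat.le_mul_of_pos_right _ (by omega)
  rcases hset m₂ hm₂1 A' key g hkey hgpos hmono hpow f with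
    ⟨w, hw, B, hBA', hBc, hw0, hSep⟩ | ⟨B, hBA', hBc, T, u, κ, hT, hfx⟩
  · -- one more function
    have hBA : B ⊆ A := hBA'.trans hA'A
    let X' : Fin (m + 1) → ℕ → ℝ := Fin.snoc X w
    have hX'last : X' (Fin.last m) = w := Fin.snoc_last _ _
    have hX'cast : ∀ b : Fin m, X' b.castSucc = X b := fun b => Fin.snoc_castSucc _ _ _
    have hX' : ∀ b, X' b ∈ VD d D v := by
      intro b
      refine Fin.lastCases ?_ (fun b => ?_) b
      · rw [hX'last]
        exact hrange hw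
      · rw [hX'cast]
        exact hX b
    have hsys' : mSys X' Λ' β' B := by
      constructor
      · intro b
        refine Fin.lastCases ?_ (fun b => ?_) b
        · rw [hX'last]
          exact hw0
        · rw [hX'cast]
          exact fun i hi => hsys.1 b i (hBA hi)
      · intro ν hν hν0 i hi j hj hij
        rw [Fin.sum_univ_castSucc, hX'last]
        simp only [hX'cast]
        by_cases hlast : ν (Fin.last m) = 0
        · rw [hlast, zero_mul, add_zero]
          refine hβ1.trans (hsys.2 (fun b => ν b.castSucc) (Finset.mem_union_right _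
            (Finset.mem_image.2 ⟨ν, hν, rfl⟩)) ?_ i (hBA hi) j (hBA hj) hij)
          intro h
          apply hν0
          funext b
          refine Fin.lastCases ?_ (fun b => ?_) b
          · exact hlast
          · exact congrFun h b
        · let μ : ι := ⟨fun b => - (ν b.castSucc / ν (Fin.last m)), Finset.mem_image.2
            ⟨ν, Finset.mem_filter.2 ⟨hν, hlast⟩, rfl⟩⟩
          have hμ : ∀ b, vec μ b = - (ν b.castSucc / ν (Fin.last m)) := fun b => rfl
          have hfac : ∑ b : Fin m, ν b.castSucc * (Real.log (X b i) - Real.log (X b j)) +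
              ν (Fin.last m) * (Real.log (w i) - Real.log (w j)) =
              ν (Fin.last m) * ((Real.log (w i) - Real.log (w j)) -
                ∑ b, vec μ b * (P i b - P j b)) := by
            rw [mul_sub (ν (Fin.last m)) (Real.log (w i) - Real.log (w j)), Finset.mul_sum]
            have h1 : ∀ b : Fin m, ν (Fin.last m) * (vec μ b * (P i b - P j b)) =
                - (ν b.castSucc * (Real.log (X b i) - Real.log (X b j))) := by
              intro b
              rw [hμ]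
              simp only [P]
              field_simp
            simp only [h1, Finset.sum_neg_distrib]
            ring
          rw [hfac, abs_mul]
          have hlog : ρ + 1 ≤ |(Real.log (w i) - Real.log (w j)) -
              ∑ b, vec μ b * (P i b - P j b)| := by
            have hpos : ∀ i ∈ B, 0 < |w i| := fun i hi => abs_pos.2 (hw0 i hi)
            have hone : ∀ i ∈ B, ∀ j ∈ B, R * (|w i| * g μ j) ≤ |w j| * g μ i →
                ρ + 1 ≤ (Real.log (w j) - Real.log (w i)) -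
                  ∑ b, vec μ b * (P j b - P i b) := by
              intro i hi j hj h1
              have h2 := Real.log_le_log (mul_pos (by linarith) (mul_pos (hpos i hi)
                (Real.exp_pos _))) h1
              rw [Real.log_mul (by linarith) (mul_pos (hpos i hi) (Real.exp_pos _)).ne',
                Real.log_mul (hpos i hi).ne' (Real.exp_pos _).ne',
                Real.log_mul (hpos j hj).ne' (Real.exp_pos _).ne', hR, Real.log_exp,
                Real.log_exp, Real.log_exp, Real.log_abs, Real.log_abs] at h2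
              simp only [mul_sub, Finset.sum_sub_distrib]
              linarith
            rcases hSep μ i hi j hj hij with h1 | h1
            · have h2 := hone i hi j hj h1
              rw [abs_sub_comm]
              refine h2.trans (le_trans (le_of_eq ?_) (le_abs_self _))
              simp only [mul_sub, Finset.sum_sub_distrib]
              ring
            · exact (hone j hj i hi h1).trans (le_abs_self _)
          have hν1 := hρν ν hν hlast
          have hlastpos : 0 < |ν (Fin.last m)| := abs_pos.2 hlast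
          rw [div_le_iff₀ hlastpos] at hν1
          nlinarith
    obtain ⟨B', hB', hB'c, hB'F⟩ := hst M (by omega) v c B X' hX' hsys' (by rw [← hm₂]; exact hBc)
    exact ⟨B', hB'.trans hBA, hB'c, hB'F⟩
  · -- everything is settled
    have hBcard : m₂ ≤ B.card := by
      have h1 : 2 ^ (cc * m₂ ^ cc) * m₂ ≤ 2 ^ (cc * m₂ ^ cc) * B.card := by
        rw [← hm₁]
        exact hA'c.trans hBc
      exact Nat.le_of_mul_le_mul_left h1 (by positivity)
    choose x hx using hfx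
    let c' : (Fin k → ι) → ℝ := fun σ => ∑ τ : Fin k → mon, c τ * ∏ l, x (enum (τ l)) (σ l)
    obtain ⟨B', hB'B, hB'c, hB'⟩ := hfin M (by omega) P B (hfinsize.trans hBcard)
      (fun a b hab i hi j hj hij => hβ2.trans (hsep a b hab i (hBA' hi) j (hBA' hj) hij)) T u κ
      (fun a ha => ⟨(hT a ha).1, (hT a ha).2.1⟩) c'
    have hF : ∀ e : Fin k → ℕ, (∀ l, e l ∈ B') → mF v c e =
        ∑ σ ∈ Fintype.piFinset (fun _ => T), c' σ * ∏ l, u (σ l) (e l) := by
      intro e he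
      have h1 : ∀ τ : Fin k → mon, ∏ l, ∏ a, v (e l) a ^ (τ l a : ℕ) =
          ∑ σ ∈ Fintype.piFinset (fun _ => T), ∏ l, (x (enum (τ l)) (σ l) * u (σ l) (e l)) := by
        intro τ
        have h3 := Finset.prod_univ_sum (fun _ : Fin k => T)
          (fun l a => x (enum (τ l)) a * u a (e l))
        rw [← h3]
        refine Finset.prod_congr rfl fun l _ => ?_
        have h2 := hx (enum (τ l)) (e l) (hB'B (he l))
        simp only [f, Equiv.symm_apply_apply] at h2
        exact h2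
      unfold mF
      simp only [h1, c', Finset.sum_mul, Finset.mul_sum]
      rw [Finset.sum_comm]
      refine Finset.sum_congr rfl fun σ _ => Finset.sum_congr rfl fun τ _ => ?_
      rw [Finset.prod_mul_distrib]
      ring
    refine ⟨B', (hB'B.trans hBA').trans hA'A, hB'c, ?_⟩
    rcases hB' with h | h
    · left
      intro e he heB
      rw [hF e heB]
      exact h e he heB
    · right
      intro e he heB
      rw [hF e heB]
      exact h e he heB

lemma m_all (d D k i : ℕ) (hi : i ≤ d + 1) : mStage d D k (d + 1 - i) (10 + 4 * i) := by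
  induction i with
  | zero => exact (m_base d D k).mono (by omega)
  | succ i ih =>
    have h1 := ih (by omega)
    have h2 : d + 1 - i = (d + 1 - (i + 1)) + 1 := by omega
    rw [h2] at h1
    have h3 := m_step d D k (d + 1 - (i + 1)) (10 + 4 * i) (by omega) h1
    have h4 : 10 + 4 * i + 4 = 10 + 4 * (i + 1) := by ring
    rwa [h4] at h3

/-- MAIN (index form): `F e = ∑ τ, c τ * ∏ l, monomial (τ l) (e l)` -/
theorem main_index (d : ℕ) : ∃ J : ℕ, ∀ D k : ℕ, ∃ M₀ : ℕ, ∀ M ≥ M₀, ∀ (v : ℕ → Fin d → ℝ)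
    (c : (Fin k → Fin d → Fin (D + 1)) → ℝ) (A : Finset ℕ), tw J M ≤ A.card →
    ∃ B ⊆ A, M ≤ B.card ∧
      ((∀ e : Fin k → ℕ, StrictMono e → (∀ l, e l ∈ B) →
        0 ≤ ∑ τ, c τ * ∏ l, ∏ a, v (e l) a ^ (τ l a : ℕ)) ∨
       (∀ e : Fin k → ℕ, StrictMono e → (∀ l, e l ∈ B) →
        ∑ τ, c τ * ∏ l, ∏ a, v (e l) a ^ (τ l a : ℕ) < 0)) := by
  refine ⟨10 + 4 * (d + 1), fun D k => ?_⟩
  have h := m_all d D k (d + 1) le_rfl
  rw [Nat.sub_self] at h
  obtain ⟨Λ, β, hβ, M₀, h⟩ := h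
  refine ⟨M₀, fun M hM v c A hA => ?_⟩
  exact h M hM v c A (fun b => b.elim0) (fun b => b.elim0)
    ⟨fun b => b.elim0, fun ν _ hν => absurd (Subsingleton.elim ν 0) hν⟩ hA

end Pool.Agent.LibSAR
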